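import Pool.Agent.H36.RS.Stp

/-!
# Residues on average (T8, K1): the lower bound for a good `φ`, BOX

PARAMETERS. `k ≥ 4` large, `ε := A / (k + 1 + (k-1)/8)`, so that `5 ε ≤ θ` and `ε ≤ 1`; `y_i := Z ^ (ε + i ε / (4k))`, `0 ≤ i ≤ k`.
WINDOWS. `Good3` (exponents `ε/4`, `ε/2`, `ε`, each covers a factor 2 of the exponent) gives
`∑_{v ∈ win C a} r ≥ C ^ a / (2 C log (C ^ a))` for ALL `a` with `Z ^ (ε/4) ≤ C ^ a ≤ Z ^ (2 ε)`.
BASE (`base` with `X = Z ^ (ε/8)`, `y = y_0 = Z ^ ε`), `x ∈ [Z ^ (ε/2), Z ^ ε]`: for `q ∈ SQ X` take `a := ⌊log_C (x / NP q)⌋ - 1`, i.e.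
`C ^ (a+1) ≤ x / NP q < C ^ (a+2)`; then `win C a` lies in `P (x / NP q) \\ P (x / (C^2 NP q))`, and
`C ^ a > x / (C^2 NP q) ≥ Z ^ (3ε/8) / C^2 ≥ Z ^ (ε/4)`, `C ^ a ≤ x ≤ Z ^ ε`, so its `r`-sum is at least
`C ^ a / (2 C log Z) ≥ x / (2 C^3 NP q log Z)`. Hence `T x y_0 ≥ c_0 (x / log Z) M` with `M = M φ j (Z ^ (ε/8))`, `c_0 = 1/(2 C^3)`.
STEP `i` (`step` with `y = y_{i-1}`, `y' = y_i`), `x ∈ [Z ^ (a_i), Z ^ (b_i)]`, where `a_0 = ε/2`, `b_0 = ε`,
`a_i = a_{i-1} + (ε + iε/(4k))`, `b_i = b_{i-1} + (ε + (i-1)ε/(4k))`: all `x / nm v` (`v ∈ P y_i \\ P y_{i-1}`) are in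
`[Z ^ (a_{i-1}), Z ^ (b_{i-1})]`, and
`∑_{v ∈ P y_i \\ P y_{i-1}} r v / nm v ≥ c_1` (the windows `win C a` with `y_{i-1} ≤ C ^ a`, `C ^ (a+1) ≤ y_i` are disjoint and contained in
it; there are at least `ε log Z / (4 k log C) - 2` of them, each gives at least `C ^ a / (2 C log (C ^ a)) / C ^ (a+1) ≥ 1 / (4 C^2 log Z)`).
After `k` steps `T x y_k ≥ c_0 c_1^k (x / log Z) M` for `x ∈ [Z ^ (a_k), Z ^ (b_k)]`, `a_k = ε/2 + kε + (k+1)ε/8 < b_k = (k+1)ε + (k-1)ε/8 = A`;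
take `x = Z ^ A`; `y_k = Z ^ (5ε/4) ≤ Z ^ A`, and `T` is monotone in `y`.
-/

set_option autoImplicit false

noncomputable section

namespace Pool.Agent.H36.RS

open Real

variable {V J Φ : Type} [DecidableEq V] [Fintype J] [Fintype Φ]

private theorem P_mono {C θ η A Z : ℝ} {D : Dat V J Φ} (h : Hyp C θ η A Z D) {x y : ℝ} (hxy : x ≤ y) :
    D.P x ⊆ D.P y := by
  intro v hv
  rw [h.mem_P] at hv ⊢
  exact hv.trans hxy

private theorem R_nonneg {C θ η A Z : ℝ} {D : Dat V J Φ} (h : Hyp C θ η A Z D) (φ : Φ) (j : J) (q : Finset V) :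
    0 ≤ D.R φ j q := Finset.prod_nonneg fun v _ => h.r_nonneg φ j v

private theorem nm_pos {C θ η A Z : ℝ} {D : Dat V J Φ} (h : Hyp C θ η A Z D) (v : V) : (0 : ℝ) < D.nm v := by
  have := h.two v
  have h1 : 0 < D.nm v := by omega
  exact_mod_cast h1

private theorem NP_one_le {C θ η A Z : ℝ} {D : Dat V J Φ} (h : Hyp C θ η A Z D) (q : Finset V) : 1 ≤ D.NP q := by
  unfold Dat.NP
  have h1 : ∀ v ∈ q, (1 : ℝ) ≤ D.nm v := by
    intro v _
    have := h.two v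
    have h2 : 1 ≤ D.nm v := by omega
    exact_mod_cast h2
  calc (1 : ℝ) = ∏ v ∈ q, (1 : ℝ) := by rw [Finset.prod_const_one]
    _ ≤ ∏ v ∈ q, (D.nm v : ℝ) := Finset.prod_le_prod (fun _ _ => zero_le_one) h1

private theorem T_mono {C θ η A Z : ℝ} {D : Dat V J Φ} (h : Hyp C θ η A Z D) (φ : Φ) (j : J) (x : ℝ) {y y' : ℝ}
    (hy : y ≤ y') : D.T φ j x y ≤ D.T φ j x y' := by
  unfold Dat.T
  refine Finset.sum_le_sum_of_subset_of_nonneg ?_ fun q _ _ => R_nonneg h φ j q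
  intro q hq
  unfold Dat.SY at hq ⊢
  rw [Finset.mem_filter, Finset.mem_powerset] at hq ⊢
  exact ⟨hq.1.trans (P_mono h hy), hq.2⟩

private theorem M_nonneg {C θ η A Z : ℝ} {D : Dat V J Φ} (h : Hyp C θ η A Z D) (φ : Φ) (j : J) (x : ℝ) :
    0 ≤ D.M φ j x :=
  Finset.sum_nonneg fun q _ => div_nonneg (R_nonneg h φ j q) (zero_le_one.trans (NP_one_le h q))

private theorem pow_exp {C : ℝ} (hC : 0 < C) (n : ℕ) : C ^ n = Real.exp (n * Real.log C) := by
  rw [← Real.rpow_natCast, Real.rpow_def_of_pos hC, mul_comm]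

private theorem rpow_exp {Z : ℝ} (hZ : 0 < Z) (a : ℝ) : Z ^ a = Real.exp (a * Real.log Z) := by
  rw [Real.rpow_def_of_pos hZ, mul_comm]

omit [Fintype J] [Fintype Φ] in
private theorem good_all {D : Dat V J Φ} {C ε Z : ℝ} {φ : Φ} (hg : D.Good3 C ε Z φ) (j : J) (a : ℕ)
    (h1 : Z ^ (ε / 4) ≤ C ^ a) (h2 : C ^ a ≤ Z ^ (2 * ε)) :
    C ^ a / (2 * C * Real.log (C ^ a)) ≤ ∑ v ∈ D.win C a, D.r φ j v := by
  rcases le_total (C ^ a) (Z ^ (ε / 2)) with h3 | h3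
  · refine hg.1 j a h1 ?_
    rwa [show 2 * (ε / 4) = ε / 2 by ring]
  · rcases le_total (C ^ a) (Z ^ ε) with h4 | h4
    · refine hg.2.1 j a h3 ?_
      rwa [show 2 * (ε / 2) = ε by ring]
    · exact hg.2.2 j a h4 h2

private theorem ratio_lower {C θ η A Z : ℝ} {D : Dat V J Φ} (h : Hyp C θ η A Z D) (hC : 2 ≤ C) (φ : Φ) (j : J)
    {ε α δ : ℝ} (hε : 0 < ε) (hε1 : ε ≤ 1) (hZ : 1 < Z) (hg : D.Good3 C ε Z φ) (hα : ε ≤ α) (hδ : 0 < δ)
    (hαδ : α + δ ≤ 2 * ε) (hbig : 4 * Real.log C ≤ δ * Real.log Z) :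
    δ / (8 * C ^ 2 * Real.log C) ≤ ∑ v ∈ D.P (Z ^ (α + δ)) \ D.P (Z ^ α), D.r φ j v / D.nm v := by
  have hC0 : (0 : ℝ) < C := by linarith
  have hZ0 : 0 < Z := by linarith
  have hlC : 0 < Real.log C := Real.log_pos (by linarith)
  have hlZ : 0 < Real.log Z := Real.log_pos hZ
  have hα0 : 0 < α := hε.trans_le hα
  obtain ⟨a0, ha0⟩ : ∃ a0 : ℕ, a0 = ⌈α * Real.log Z / Real.log C⌉₊ := ⟨_, rfl⟩
  obtain ⟨N, hN⟩ : ∃ N : ℕ, N = ⌊δ * Real.log Z / Real.log C - 1⌋₊ := ⟨_, rfl⟩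
  have hD4 : 4 ≤ δ * Real.log Z / Real.log C := by
    rw [le_div_iff₀ hlC]
    exact hbig
  have h1 : α * Real.log Z ≤ a0 * Real.log C := by
    have := Nat.le_ceil (α * Real.log Z / Real.log C)
    rw [← ha0, div_le_iff₀ hlC] at this
    exact this
  have h2 : (a0 + N) * Real.log C ≤ (α + δ) * Real.log Z := by
    have h3 := Nat.ceil_lt_add_one (show 0 ≤ α * Real.log Z / Real.log C by positivity)
    rw [← ha0] at h3
    have h4 := Nat.floor_le (show 0 ≤ δ * Real.log Z / Real.log C - 1 by linarith)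
    rw [← hN] at h4
    have h5 : (a0 : ℝ) + N ≤ α * Real.log Z / Real.log C + δ * Real.log Z / Real.log C := by linarith
    rw [← add_div, le_div_iff₀ hlC] at h5
    linarith
  have h3 : δ * Real.log Z / Real.log C / 2 ≤ N := by
    have h4 := Nat.lt_floor_add_one (δ * Real.log Z / Real.log C - 1)
    rw [← hN] at h4
    linarith
  have hsub : D.P (C ^ (a0 + N)) \ D.P (C ^ a0) ⊆ D.P (Z ^ (α + δ)) \ D.P (Z ^ α) := by
    refine Finset.sdiff_subset_sdiff (P_mono h ?_) (P_mono h ?_)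
    · rw [pow_exp hC0, rpow_exp hZ0]
      apply Real.exp_le_exp.2
      push_cast
      exact h2
    · rw [pow_exp hC0, rpow_exp hZ0]
      exact Real.exp_le_exp.2 h1
  have hf : ∀ v, 0 ≤ D.r φ j v / (D.nm v : ℝ) := fun v => div_nonneg (h.r_nonneg φ j v) (nm_pos h v).le
  have h4 : ∑ v ∈ D.P (C ^ (a0 + N)) \ D.P (C ^ a0), D.r φ j v / (D.nm v : ℝ) ≤
      ∑ v ∈ D.P (Z ^ (α + δ)) \ D.P (Z ^ α), D.r φ j v / (D.nm v : ℝ) :=
    Finset.sum_le_sum_of_subset_of_nonneg hsub fun v _ _ => hf v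
  have hC1 : (1 : ℝ) ≤ C := by linarith
  have h5 : ∑ v ∈ D.P (C ^ (a0 + N)) \ D.P (C ^ a0), D.r φ j v / (D.nm v : ℝ) =
      ∑ i ∈ Finset.range N, ∑ v ∈ D.win C (a0 + i), D.r φ j v / (D.nm v : ℝ) := by
    have e1 : ∀ i, ∑ v ∈ D.win C (a0 + i), D.r φ j v / (D.nm v : ℝ) =
        (∑ v ∈ D.P (C ^ (a0 + (i + 1))), D.r φ j v / (D.nm v : ℝ)) -
          ∑ v ∈ D.P (C ^ (a0 + i)), D.r φ j v / (D.nm v : ℝ) := by
      intro i
      unfold Dat.win
      rw [eq_sub_iff_add_eq, ← add_assoc]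
      exact Finset.sum_sdiff (P_mono h (pow_le_pow_right₀ hC1 (Nat.le_succ _)))
    rw [Finset.sum_congr rfl fun i _ => e1 i,
      Finset.sum_range_sub (fun i => ∑ v ∈ D.P (C ^ (a0 + i)), D.r φ j v / (D.nm v : ℝ)), eq_sub_iff_add_eq]
    exact Finset.sum_sdiff (P_mono h (pow_le_pow_right₀ hC1 (Nat.le_add_right _ _)))
  have h6 : ∀ i ∈ Finset.range N, 1 / (4 * C ^ 2 * Real.log Z) ≤
      ∑ v ∈ D.win C (a0 + i), D.r φ j v / (D.nm v : ℝ) := by
    intro i hi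
    rw [Finset.mem_range] at hi
    have hCa : 0 < C ^ (a0 + i) := pow_pos hC0 _
    have hlo : ε * Real.log Z ≤ ((a0 + i : ℕ) : ℝ) * Real.log C := by
      have e1 : ε * Real.log Z ≤ α * Real.log Z := mul_le_mul_of_nonneg_right hα hlZ.le
      have e2 : (a0 : ℝ) * Real.log C ≤ ((a0 + i : ℕ) : ℝ) * Real.log C := by
        push_cast
        have : 0 ≤ (i : ℝ) * Real.log C := by positivity
        linarith
      linarith
    have hhi : ((a0 + i : ℕ) : ℝ) * Real.log C ≤ 2 * ε * Real.log Z := by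
      have e1 : ((a0 + i : ℕ) : ℝ) * Real.log C ≤ (a0 + N) * Real.log C := by
        push_cast
        have : (i : ℝ) ≤ N := by exact_mod_cast hi.le
        have := mul_le_mul_of_nonneg_right this hlC.le
        linarith
      have e2 : (α + δ) * Real.log Z ≤ 2 * ε * Real.log Z := mul_le_mul_of_nonneg_right hαδ hlZ.le
      linarith
    have hgood : C ^ (a0 + i) / (2 * C * Real.log (C ^ (a0 + i))) ≤ ∑ v ∈ D.win C (a0 + i), D.r φ j v := by
      refine hg.2.2 j (a0 + i) ?_ ?_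
      · rw [pow_exp hC0, rpow_exp hZ0]
        exact Real.exp_le_exp.2 hlo
      · rw [pow_exp hC0, rpow_exp hZ0]
        exact Real.exp_le_exp.2 hhi
    have hlog : Real.log (C ^ (a0 + i)) = ((a0 + i : ℕ) : ℝ) * Real.log C := Real.log_pow _ _
    have hlogpos : 0 < Real.log (C ^ (a0 + i)) := by
      rw [hlog]
      exact (mul_pos hε hlZ).trans_le hlo
    have hlogle : Real.log (C ^ (a0 + i)) ≤ 2 * Real.log Z := by
      rw [hlog]
      refine hhi.trans ?_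
      have := mul_le_mul_of_nonneg_right hε1 hlZ.le
      linarith
    calc 1 / (4 * C ^ 2 * Real.log Z) ≤ 1 / (2 * C ^ 2 * Real.log (C ^ (a0 + i))) := by
          apply one_div_le_one_div_of_le (by positivity)
          have : 2 * C ^ 2 * Real.log (C ^ (a0 + i)) ≤ 2 * C ^ 2 * (2 * Real.log Z) :=
            mul_le_mul_of_nonneg_left hlogle (by positivity)
          linarith
      _ = C ^ (a0 + i) / (2 * C * Real.log (C ^ (a0 + i))) / C ^ (a0 + i + 1) := by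
          rw [pow_succ C (a0 + i)]
          field_simp
      _ ≤ (∑ v ∈ D.win C (a0 + i), D.r φ j v) / C ^ (a0 + i + 1) :=
          div_le_div_of_nonneg_right hgood (pow_pos hC0 _).le
      _ = ∑ v ∈ D.win C (a0 + i), D.r φ j v / C ^ (a0 + i + 1) := Finset.sum_div _ _ _
      _ ≤ ∑ v ∈ D.win C (a0 + i), D.r φ j v / (D.nm v : ℝ) := by
          refine Finset.sum_le_sum fun v hv => ?_
          have hv1 : (D.nm v : ℝ) ≤ C ^ (a0 + i + 1) := by
            unfold Dat.win at hv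
            exact (h.mem_P _ _).1 (Finset.mem_sdiff.1 hv).1
          exact div_le_div_of_nonneg_left (h.r_nonneg φ j v) (nm_pos h v) hv1
  have h7 : (N : ℝ) * (1 / (4 * C ^ 2 * Real.log Z)) ≤
      ∑ i ∈ Finset.range N, ∑ v ∈ D.win C (a0 + i), D.r φ j v / (D.nm v : ℝ) := by
    have := Finset.card_nsmul_le_sum (Finset.range N) _ _ h6
    rwa [Finset.card_range, nsmul_eq_mul] at this
  calc δ / (8 * C ^ 2 * Real.log C) = (δ * Real.log Z / Real.log C / 2) * (1 / (4 * C ^ 2 * Real.log Z)) := by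
        field_simp
        ring
    _ ≤ (N : ℝ) * (1 / (4 * C ^ 2 * Real.log Z)) := mul_le_mul_of_nonneg_right h3 (by positivity)
    _ ≤ _ := h7
    _ ≤ _ := by rw [← h5]; exact h4

private theorem base_lower {C θ η A Z : ℝ} {D : Dat V J Φ} (h : Hyp C θ η A Z D) (hC : 2 ≤ C) (φ : Φ) (j : J)
    {ε : ℝ} (hε : 0 < ε) (hε1 : ε ≤ 1) (hZ : 1 < Z) (hg : D.Good3 C ε Z φ) (hbig : 2 * Real.log C ≤ ε / 8 * Real.log Z)
    {x : ℝ} (hx1 : Z ^ (ε / 2) ≤ x) (hx2 : x ≤ Z ^ ε) :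
    1 / (2 * C ^ 3) * (x / Real.log Z) * D.M φ j (Z ^ (ε / 8)) ≤ D.T φ j x (Z ^ ε) := by
  have hC0 : (0 : ℝ) < C := by linarith
  have hZ0 : 0 < Z := by linarith
  have hlC : 0 < Real.log C := Real.log_pos (by linarith)
  have hlZ : 0 < Real.log Z := Real.log_pos hZ
  have hx0 : 0 < x := (Real.rpow_pos_of_pos hZ0 _).trans_le hx1
  have hlx1 : ε / 2 * Real.log Z ≤ Real.log x := by
    have := Real.log_le_log (Real.rpow_pos_of_pos hZ0 _) hx1
    rwa [Real.log_rpow hZ0] at this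
  have hlx2 : Real.log x ≤ ε * Real.log Z := by
    have := Real.log_le_log hx0 hx2
    rwa [Real.log_rpow hZ0] at this
  have hX1 : 1 ≤ Z ^ (ε / 8) := Real.one_le_rpow hZ.le (by positivity)
  have hXx : C ^ 2 * (Z ^ (ε / 8)) ^ 2 ≤ x := by
    refine le_trans ?_ hx1
    rw [pow_exp hC0 2, ← Real.rpow_natCast (Z ^ (ε / 8)) 2, ← Real.rpow_mul hZ0.le, rpow_exp hZ0,
      rpow_exp hZ0, ← Real.exp_add]
    apply Real.exp_le_exp.2
    push_cast
    linarith
  refine le_trans ?_ (base h hC φ j _ x (Z ^ ε) hX1 hXx hx2)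
  unfold Dat.M
  rw [Finset.mul_sum]
  refine Finset.sum_le_sum fun q hq => ?_
  have hq1 : 1 ≤ D.NP q := NP_one_le h q
  have hq0 : 0 < D.NP q := by linarith
  have hqX : D.NP q ≤ Z ^ (ε / 8) := by
    unfold Dat.SQ Dat.SY at hq
    exact (Finset.mem_filter.1 hq).2
  have hlq0 : 0 ≤ Real.log (D.NP q) := Real.log_nonneg hq1
  have hlq : Real.log (D.NP q) ≤ ε / 8 * Real.log Z := by
    have := Real.log_le_log hq0 hqX
    rwa [Real.log_rpow hZ0] at this
  obtain ⟨s, hs⟩ : ∃ s : ℝ, s = x / D.NP q := ⟨_, rfl⟩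
  have hs0 : 0 < s := by rw [hs]; positivity
  have hls : Real.log s = Real.log x - Real.log (D.NP q) := by
    rw [hs, Real.log_div hx0.ne' hq0.ne']
  have hls1 : 3 * ε / 8 * Real.log Z ≤ Real.log s := by rw [hls]; linarith
  have hls2 : Real.log s ≤ ε * Real.log Z := by rw [hls]; linarith
  have hεZ : 0 < ε * Real.log Z := mul_pos hε hlZ
  have hs2 : 2 * Real.log C ≤ Real.log s := by linarith
  -- the window
  obtain ⟨m, hm⟩ : ∃ m : ℕ, m = ⌊Real.log s / Real.log C⌋₊ := ⟨_, rfl⟩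
  have hm1 : (m : ℝ) * Real.log C ≤ Real.log s := by
    have := Nat.floor_le (show 0 ≤ Real.log s / Real.log C from div_nonneg (by linarith) hlC.le)
    rw [← hm, le_div_iff₀ hlC] at this
    exact this
  have hm2 : Real.log s < ((m : ℝ) + 1) * Real.log C := by
    have := Nat.lt_floor_add_one (Real.log s / Real.log C)
    rw [← hm, div_lt_iff₀ hlC] at this
    exact this
  have hm3 : 1 ≤ m := by
    rw [hm]
    apply Nat.le_floor
    rw [le_div_iff₀ hlC]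
    push_cast
    linarith
  obtain ⟨a, rfl⟩ : ∃ a, m = a + 1 := ⟨m - 1, by omega⟩
  push_cast at hm1 hm2
  have hs_exp : s = Real.exp (Real.log s) := (Real.exp_log hs0).symm
  have hCa1 : C ^ (a + 1) ≤ s := by
    rw [hs_exp, pow_exp hC0]
    apply Real.exp_le_exp.2
    push_cast
    exact hm1
  have hCa2 : s / C ^ 2 ≤ C ^ a := by
    rw [div_le_iff₀ (by positivity), ← pow_add, hs_exp, pow_exp hC0]
    apply Real.exp_le_exp.2
    push_cast
    linarith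
  have hCale : C ^ a ≤ s := le_trans (pow_le_pow_right₀ (by linarith) (Nat.le_succ a)) hCa1
  have hCa3 : Z ^ (ε / 4) ≤ C ^ a := by
    refine le_trans ?_ hCa2
    rw [le_div_iff₀ (by positivity), hs_exp, pow_exp hC0 2, rpow_exp hZ0, ← Real.exp_add]
    apply Real.exp_le_exp.2
    push_cast
    linarith
  have hCa4 : C ^ a ≤ Z ^ (2 * ε) := by
    refine hCale.trans ?_
    rw [hs_exp, rpow_exp hZ0]
    apply Real.exp_le_exp.2
    linarith
  have hgood := good_all hg j a hCa3 hCa4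
  have hlogpos : 0 < Real.log (C ^ a) := by
    apply Real.log_pos
    refine lt_of_lt_of_le ?_ hCa3
    exact Real.one_lt_rpow hZ (by positivity)
  have hlogle : Real.log (C ^ a) ≤ Real.log Z := by
    have e1 := Real.log_le_log (pow_pos hC0 a) hCale
    have e2 := mul_le_mul_of_nonneg_right hε1 hlZ.le
    linarith
  have hsub : D.win C a ⊆ D.P (x / D.NP q) \ D.P (x / (C ^ 2 * D.NP q)) := by
    unfold Dat.win
    refine Finset.sdiff_subset_sdiff (P_mono h ?_) (P_mono h ?_)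
    · rw [← hs]
      exact hCa1
    · refine le_trans (le_of_eq ?_) hCa2
      rw [hs, div_div, mul_comm]
  have hin : s / (2 * C ^ 3 * Real.log Z) ≤
      ∑ v ∈ D.P (x / D.NP q) \ D.P (x / (C ^ 2 * D.NP q)), D.r φ j v := by
    refine le_trans ?_ (Finset.sum_le_sum_of_subset_of_nonneg hsub fun v _ _ => h.r_nonneg φ j v)
    refine le_trans ?_ hgood
    calc s / (2 * C ^ 3 * Real.log Z) = s / C ^ 2 / (2 * C * Real.log Z) := by
          field_simp
      _ ≤ C ^ a / (2 * C * Real.log Z) := div_le_div_of_nonneg_right hCa2 (by positivity)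
      _ ≤ C ^ a / (2 * C * Real.log (C ^ a)) := by
          apply div_le_div_of_nonneg_left (pow_pos hC0 a).le (by positivity)
          exact mul_le_mul_of_nonneg_left hlogle (by positivity)
  calc 1 / (2 * C ^ 3) * (x / Real.log Z) * (D.R φ j q / D.NP q) =
        D.R φ j q * (s / (2 * C ^ 3 * Real.log Z)) := by
        rw [hs]
        field_simp
    _ ≤ _ := mul_le_mul_of_nonneg_left hin (R_nonneg h φ j q)

private theorem induct {C θ η A Z : ℝ} {D : Dat V J Φ} (h : Hyp C θ η A Z D) (hC : 2 ≤ C) (φ : Φ) (j : J)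
    {ε : ℝ} (hε : 0 < ε) (hε1 : ε ≤ 1) (hZ : 1 < Z) (hg : D.Good3 C ε Z φ) {k : ℕ} (hk : 1 ≤ k)
    (hbig : 16 * k * Real.log C ≤ ε * Real.log Z) (i : ℕ) (hi : i ≤ k) (x : ℝ)
    (hx1 : Z ^ (ε / 2 + i * ε + ε / (4 * k) * (i * (i + 1) / 2)) ≤ x)
    (hx2 : x ≤ Z ^ (ε + i * ε + ε / (4 * k) * (i * (i - 1) / 2))) :
    1 / (2 * C ^ 3) * (ε / (4 * k) / (8 * C ^ 2 * Real.log C)) ^ i * (x / Real.log Z) * D.M φ j (Z ^ (ε / 8)) ≤
      D.T φ j x (Z ^ (ε + ε / (4 * k) * i)) := by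
  have hC0 : (0 : ℝ) < C := by linarith
  have hZ0 : 0 < Z := by linarith
  have hlC : 0 < Real.log C := Real.log_pos (by linarith)
  have hlZ : 0 < Real.log Z := Real.log_pos hZ
  have hk0 : (0 : ℝ) < k := by exact_mod_cast hk
  have hk1 : (1 : ℝ) ≤ k := by exact_mod_cast hk
  induction i generalizing x with
  | zero =>
    have hb : 2 * Real.log C ≤ ε / 8 * Real.log Z := by
      have : 16 * 1 * Real.log C ≤ 16 * k * Real.log C := by
        apply mul_le_mul_of_nonneg_right _ hlC.le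
        linarith
      linarith
    have e1 : ε / 2 + ((0 : ℕ) : ℝ) * ε + ε / (4 * k) * (((0 : ℕ) : ℝ) * (((0 : ℕ) : ℝ) + 1) / 2) = ε / 2 := by
      push_cast
      ring
    have e2 : ε + ((0 : ℕ) : ℝ) * ε + ε / (4 * k) * (((0 : ℕ) : ℝ) * (((0 : ℕ) : ℝ) - 1) / 2) = ε := by
      push_cast
      ring
    have e3 : ε + ε / (4 * k) * ((0 : ℕ) : ℝ) = ε := by
      push_cast
      ring
    rw [e1] at hx1
    rw [e2] at hx2
    rw [e3, pow_zero, mul_one]
    exact base_lower h hC φ j hε hε1 hZ hg hb hx1 hx2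
  | succ i ih =>
    have hi' : i ≤ k := by omega
    have hik : (i : ℝ) + 1 ≤ k := by exact_mod_cast hi
    have hi0 : (0 : ℝ) ≤ i := Nat.cast_nonneg i
    obtain ⟨δ, hδ⟩ : ∃ δ : ℝ, δ = ε / (4 * k) := ⟨_, rfl⟩
    have hδ0 : 0 < δ := by rw [hδ]; positivity
    have hδk : δ * k = ε / 4 := by
      rw [hδ]
      field_simp
    rw [← hδ] at ih hx1 hx2 ⊢
    obtain ⟨c, hc⟩ : ∃ c : ℝ, c = δ / (8 * C ^ 2 * Real.log C) := ⟨_, rfl⟩
    have hc0 : 0 < c := by rw [hc]; positivity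
    rw [← hc] at ih ⊢
    have hx0 : 0 < x := (Real.rpow_pos_of_pos hZ0 _).trans_le hx1
    obtain ⟨α, hα⟩ : ∃ α : ℝ, α = ε + δ * i := ⟨_, rfl⟩
    have hα1 : ε + δ * ((i + 1 : ℕ) : ℝ) = α + δ := by
      rw [hα]
      push_cast
      ring
    rw [hα1]
    have hαε : ε ≤ α := by
      rw [hα]
      have : 0 ≤ δ * i := by positivity
      linarith
    have hαδ : α + δ ≤ 2 * ε := by
      have e1 : δ * ((i : ℝ) + 1) ≤ δ * k := mul_le_mul_of_nonneg_left hik hδ0.le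
      rw [hα]
      linarith
    have hb : 4 * Real.log C ≤ δ * Real.log Z := by
      have e1 : 4 * k * (4 * Real.log C) ≤ 4 * k * (δ * Real.log Z) := by
        have e2 : 4 * k * (δ * Real.log Z) = 4 * (δ * k) * Real.log Z := by ring
        rw [e2, hδk]
        linarith
      exact le_of_mul_le_mul_left e1 (by positivity)
    have hrat := ratio_lower h hC φ j hε hε1 hZ hg hαε hδ0 hαδ hb
    rw [← hc] at hrat
    have hyy : Z ^ α ≤ Z ^ (α + δ) := Real.rpow_le_rpow_of_exponent_le hZ.le (by linarith)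
    refine le_trans ?_ (step h φ j x (Z ^ α) (Z ^ (α + δ)) hyy)
    have hM := M_nonneg h φ j (Z ^ (ε / 8))
    have hterm : ∀ v ∈ D.P (Z ^ (α + δ)) \ D.P (Z ^ α),
        1 / (2 * C ^ 3) * c ^ i * (x / Real.log Z) * D.M φ j (Z ^ (ε / 8)) * (D.r φ j v / D.nm v) ≤
          D.r φ j v * D.T φ j (x / D.nm v) (Z ^ α) := by
      intro v hv
      rw [Finset.mem_sdiff, h.mem_P, h.mem_P, not_le] at hv
      have hv0 := nm_pos h v
      have h1 := ih hi' (x / D.nm v) ?_ ?_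
      · rw [← hα] at h1
        calc 1 / (2 * C ^ 3) * c ^ i * (x / Real.log Z) * D.M φ j (Z ^ (ε / 8)) * (D.r φ j v / D.nm v)
            = D.r φ j v * (1 / (2 * C ^ 3) * c ^ i * (x / D.nm v / Real.log Z) * D.M φ j (Z ^ (ε / 8))) := by
              field_simp
          _ ≤ _ := mul_le_mul_of_nonneg_left h1 (h.r_nonneg φ j v)
      · rw [le_div_iff₀ hv0]
        refine le_trans ?_ hx1
        calc Z ^ (ε / 2 + i * ε + δ * (i * (i + 1) / 2)) * D.nm v
            ≤ Z ^ (ε / 2 + i * ε + δ * (i * (i + 1) / 2)) * Z ^ (α + δ) :=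
              mul_le_mul_of_nonneg_left hv.1 (Real.rpow_pos_of_pos hZ0 _).le
          _ = Z ^ (ε / 2 + ((i + 1 : ℕ) : ℝ) * ε + δ * (((i + 1 : ℕ) : ℝ) * (((i + 1 : ℕ) : ℝ) + 1) / 2)) := by
              rw [← Real.rpow_add hZ0]
              congr 1
              rw [hα]
              push_cast
              ring
      · rw [div_le_iff₀ hv0]
        refine hx2.trans ?_
        calc Z ^ (ε + ((i + 1 : ℕ) : ℝ) * ε + δ * (((i + 1 : ℕ) : ℝ) * (((i + 1 : ℕ) : ℝ) - 1) / 2))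
            = Z ^ (ε + i * ε + δ * (i * (i - 1) / 2)) * Z ^ α := by
              rw [← Real.rpow_add hZ0]
              congr 1
              rw [hα]
              push_cast
              ring
          _ ≤ Z ^ (ε + i * ε + δ * (i * (i - 1) / 2)) * D.nm v :=
              mul_le_mul_of_nonneg_left hv.2.le (Real.rpow_pos_of_pos hZ0 _).le
    refine le_trans ?_ (Finset.sum_le_sum hterm)
    rw [← Finset.mul_sum]
    have hK : 0 ≤ 1 / (2 * C ^ 3) * c ^ i * (x / Real.log Z) * D.M φ j (Z ^ (ε / 8)) := by positivity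
    calc 1 / (2 * C ^ 3) * c ^ (i + 1) * (x / Real.log Z) * D.M φ j (Z ^ (ε / 8))
        = 1 / (2 * C ^ 3) * c ^ i * (x / Real.log Z) * D.M φ j (Z ^ (ε / 8)) * c := by ring
      _ ≤ _ := mul_le_mul_of_nonneg_left hrat hK

theorem box (C θ A : ℝ) (hC : 2 ≤ C) (hθ : 0 < θ) (hA : 0 < A) :
    ∃ ε c Z0 : ℝ, 0 < ε ∧ ε ≤ 1 ∧ 5 * ε ≤ θ ∧ 0 < c ∧ 2 ≤ Z0 ∧
      ∀ (V J Φ : Type) [DecidableEq V] [Fintype J] [Fintype Φ] (D : Dat V J Φ) (η Z : ℝ),
        Z0 ≤ Z → Hyp C θ η A Z D → ∀ φ, D.Good3 C ε Z φ → ∀ j,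
          c * (Z ^ A / Real.log Z) * D.M φ j (Z ^ (ε / 8)) ≤ D.T φ j (Z ^ A) (Z ^ A) := by
  have hC0 : (0 : ℝ) < C := by linarith
  have hlC : 0 < Real.log C := Real.log_pos (by linarith)
  obtain ⟨k, hk⟩ : ∃ k : ℕ, k = ⌈A⌉₊ + ⌈5 * A / θ⌉₊ + 1 := ⟨_, rfl⟩
  have hk1 : 1 ≤ k := by omega
  have hk1' : (1 : ℝ) ≤ k := by exact_mod_cast hk1
  have hkA : A ≤ k := by
    have h1 := Nat.le_ceil A
    have h2 : (⌈A⌉₊ : ℝ) ≤ k := by
      rw [hk]
      push_cast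
      have := Nat.cast_nonneg (α := ℝ) ⌈5 * A / θ⌉₊
      linarith
    linarith
  have hkθ : 5 * A / θ ≤ k := by
    have h1 := Nat.le_ceil (5 * A / θ)
    have h2 : (⌈5 * A / θ⌉₊ : ℝ) ≤ k := by
      rw [hk]
      push_cast
      have := Nat.cast_nonneg (α := ℝ) ⌈A⌉₊
      linarith
    linarith
  obtain ⟨d, hd⟩ : ∃ d : ℝ, d = k + 1 + (k - 1) / 8 := ⟨_, rfl⟩
  have hdk : (k : ℝ) + 1 ≤ d := by
    rw [hd]
    linarith
  have hd0 : 0 < d := by linarith
  obtain ⟨ε, hε⟩ : ∃ ε : ℝ, ε = A / d := ⟨_, rfl⟩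
  have hε0 : 0 < ε := by rw [hε]; positivity
  have hεd : ε * d = A := by
    rw [hε]
    field_simp
  have hε1 : ε ≤ 1 := by
    rw [hε, div_le_one hd0]
    linarith
  have hεθ : 5 * ε ≤ θ := by
    rw [div_le_iff₀ hθ] at hkθ
    have h1 : 5 * (ε * d) ≤ θ * d := by
      rw [hεd]
      have : k * θ ≤ d * θ := mul_le_mul_of_nonneg_right (by linarith) hθ.le
      linarith
    have h2 : (5 * ε) * d ≤ θ * d := by linarith
    exact le_of_mul_le_mul_right h2 hd0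
  refine ⟨ε, 1 / (2 * C ^ 3) * (ε / (4 * k) / (8 * C ^ 2 * Real.log C)) ^ k, max 2 (Real.exp (16 * k * Real.log C / ε)),
    hε0, hε1, hεθ, by positivity, le_max_left _ _, ?_⟩
  intro V J Φ _ _ _ D η Z hZ h φ hg j
  have hZ2 : 2 ≤ Z := (le_max_left _ _).trans hZ
  have hZ1 : 1 < Z := by linarith
  have hZ0 : 0 < Z := by linarith
  have hbig : 16 * k * Real.log C ≤ ε * Real.log Z := by
    have h1 := Real.log_le_log (Real.exp_pos _) ((le_max_right _ _).trans hZ)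
    rw [Real.log_exp, div_le_iff₀ hε0] at h1
    linarith
  have hkk : (k : ℝ) ≠ 0 := by positivity
  have hδk : ε / (4 * k) * k = ε / 4 := by field_simp
  have hb : ε + k * ε + ε / (4 * k) * (k * (k - 1) / 2) = A := by
    have e1 : ε / (4 * k) * (k * (k - 1) / 2) = ε / (4 * k) * k * ((k - 1) / 2) := by ring
    rw [e1, hδk, ← hεd, hd]
    ring
  have ha : ε / 2 + k * ε + ε / (4 * k) * (k * (k + 1) / 2) ≤ A := by
    have e1 : ε / (4 * k) * (k * (k + 1) / 2) = ε / (4 * k) * k * ((k + 1) / 2) := by ring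
    rw [e1, hδk, ← hεd, hd]
    have : 0 < ε := hε0
    linarith [this]
  have h1 := induct h hC φ j hε0 hε1 hZ1 hg hk1 hbig k le_rfl (Z ^ A)
    (Real.rpow_le_rpow_of_exponent_le hZ1.le ha) (by rw [hb])
  refine h1.trans (T_mono h φ j _ (Real.rpow_le_rpow_of_exponent_le hZ1.le ?_))
  rw [hδk, ← hεd]
  have h2 : ε * 2 ≤ ε * d := mul_le_mul_of_nonneg_left (by linarith) hε0.le
  linarith

end Pool.Agent.H36.RS
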