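import Pool.Agent.H36.RS.End

/-!
# Residues on average (T8, K1), box form: definitions (complete)

`BX C ε Z k m U F`: the sets `s` of at most `k` primes in `(Z ^ (ε/4), Z ^ (2 ε)]`, not in `U`, with `F < NP m * NP s ≤ C ^ 3 * F`.
`BF C F`: the families `(q j)` of pairwise disjoint sets of primes with `F j < NP (q j) ≤ C ^ 3 * F j`.
-/

set_option autoImplicit false

noncomputable section

namespace Pool.Agent.H36.RS

variable {V J Φ : Type} [DecidableEq V] [Fintype J] [Fintype Φ]

namespace Dat

/-- products of few primes which complete `m` to a product in the window -/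
def BX (D : Dat V J Φ) (C ε Z : ℝ) (k : ℕ) (m U : Finset V) (F : ℝ) : Finset (Finset V) :=
  ((D.P (Z ^ (2 * ε)) \ D.P (Z ^ (ε / 4))) \ U).powerset.filter fun s =>
    s.card ≤ k ∧ F < D.NP m * D.NP s ∧ D.NP m * D.NP s ≤ C ^ 3 * F

open scoped Classical in
/-- the families in the box -/
def BF (D : Dat V J Φ) (C : ℝ) (F : J → ℝ) : Finset (J → Finset V) :=
  (Fintype.piFinset fun j => D.SQ (C ^ 3 * F j)).filter fun q =>
    (∀ i j, i ≠ j → Disjoint (q i) (q j)) ∧ ∀ j, F j < D.NP (q j)

open scoped Classical in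
/-- the families in the box with the given small parts -/
def BFm (D : Dat V J Φ) (C ε Z : ℝ) (m : J → Finset V) (F : J → ℝ) : Finset (J → Finset V) :=
  (D.BF C F).filter fun q => ∀ j, q j ∩ D.P (Z ^ (ε / 8)) = m j

end Dat

end Pool.Agent.H36.RS
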