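import Pool.Agent.H36.RS.Bxd

/-!
# Residues on average (T8, K1), box form: one factor, BXM

Like `Box.lean` (copy its private lemmas `ratio_lower`, `base_lower`, `pow_exp`, ...), but for ONE small part `m`, with a finite set `U` of
excluded primes, and for ALL `F` in `[Z ^ a, Z ^ b]`.

PARAMETERS. `x := C ^ 2 * F / NP m`, so `x ∈ [Z ^ (a - ε/8), C ^ 2 Z ^ b]`, write `x = Z ^ A`. `k0 := ⌊(A - 5 ε / 8) / ε⌋ ≥ 2` (as `a ≥ 4 ε`),
`k0 ≤ K := ⌈(b + 1) / ε⌉`, `e := (A - 5 ε / 8) / k0 ∈ [ε, 3 ε / 2]`, `δ := ε / (8 (K + 1) ^ 2)`.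
The primes of `s`: `v_i ∈ P (Z ^ (e + i δ)) \\ P (Z ^ (e + (i-1) δ))`, `1 ≤ i ≤ k0` (pairwise different, all in `(Z ^ ε, Z ^ (7 ε / 4)]`), and
`v_0` in a window `win C t` with `C ^ (t+1) ≤ x / ∏ v_i < C ^ (t+2)`: `x / ∏ v_i ∈ [Z ^ (ε/2), Z ^ (5 ε/8)]`, so `v_0 ∈ (Z ^ (ε/4), Z ^ ε]`
is different from the others; `NP s ∈ (x / C ^ 2, x]`, so `F < NP m * NP s ≤ C ^ 2 F`. `k := K + 1 ≥ k0 + 1 = card s`.
LOWER BOUND. All windows are covered by `Good3`, each gives `∑_{v ∈ win C t} r v ≥ C ^ t / (2 C log (C ^ t))`; without the primes of `U`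
(at most `N0`, each `r ≤ C`) at least half of it (`C ^ t ≥ Z ^ (ε/4)` large). So the sum over `v_0` is at least
`c (x / ∏ v_i) / log Z`, and `∑_{v_i} r / nm ≥ c δ` in each range (as in `ratio_lower`), minus `U`. Induction over `i` as in `induct` of
`Box.lean` (the map `(v_i) ↦ s` is injective because the ranges are disjoint).
-/

set_option autoImplicit false

noncomputable section

namespace Pool.Agent.H36.RS

open Real

section

variable {V J Φ : Type} [DecidableEq V] [Fintype J] [Fintype Φ]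

/-- what is used -/
private structure HB (C : ℝ) (D : Dat V J Φ) : Prop where
  mem_P : ∀ x v, v ∈ D.P x ↔ (D.nm v : ℝ) ≤ x
  two : ∀ v, 2 ≤ D.nm v
  r_nonneg : ∀ φ j v, 0 ≤ D.r φ j v
  r_le : ∀ φ j v, D.r φ j v ≤ C

private theorem P_mono {C : ℝ} {D : Dat V J Φ} (h : HB C D) {x y : ℝ} (hxy : x ≤ y) :
    D.P x ⊆ D.P y := by
  intro v hv
  rw [h.mem_P] at hv ⊢
  exact hv.trans hxy

private theorem R_nonneg {C : ℝ} {D : Dat V J Φ} (h : HB C D) (φ : Φ) (j : J) (q : Finset V) :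
    0 ≤ D.R φ j q := Finset.prod_nonneg fun v _ => h.r_nonneg φ j v

private theorem nm_pos {C : ℝ} {D : Dat V J Φ} (h : HB C D) (v : V) : (0 : ℝ) < D.nm v := by
  have := h.two v
  have h1 : 0 < D.nm v := by omega
  exact_mod_cast h1

private theorem NP_one_le {C : ℝ} {D : Dat V J Φ} (h : HB C D) (q : Finset V) : 1 ≤ D.NP q := by
  unfold Dat.NP
  have h1 : ∀ v ∈ q, (1 : ℝ) ≤ D.nm v := by
    intro v _
    have := h.two v
    have h2 : 1 ≤ D.nm v := by omega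
    exact_mod_cast h2
  calc (1 : ℝ) = ∏ v ∈ q, (1 : ℝ) := by rw [Finset.prod_const_one]
    _ ≤ ∏ v ∈ q, (D.nm v : ℝ) := Finset.prod_le_prod (fun _ _ => zero_le_one) h1

private theorem pow_exp {C : ℝ} (hC : 0 < C) (n : ℕ) : C ^ n = Real.exp (n * Real.log C) := by
  rw [← Real.rpow_natCast, Real.rpow_def_of_pos hC, mul_comm]

private theorem rpow_exp {Z : ℝ} (hZ : 0 < Z) (a : ℝ) : Z ^ a = Real.exp (a * Real.log Z) := by
  rw [Real.rpow_def_of_pos hZ, mul_comm]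

omit [DecidableEq V] [Fintype J] [Fintype Φ] in
private theorem good_all [DecidableEq V] {D : Dat V J Φ} {C ε Z : ℝ} {φ : Φ} (hg : D.Good3 C ε Z φ) (j : J) (a : ℕ)
    (h1 : Z ^ (ε / 4) ≤ C ^ a) (h2 : C ^ a ≤ Z ^ (2 * ε)) :
    C ^ a / (2 * C * Real.log (C ^ a)) ≤ ∑ v ∈ D.win C a, D.r φ j v := by
  rcases le_total (C ^ a) (Z ^ (ε / 2)) with h3 | h3
  · refine hg.1 j a h1 ?_
    rwa [show 2 * (ε / 4) = ε / 2 by ring]
  · rcases le_total (C ^ a) (Z ^ ε) with h4 | h4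
    · refine hg.2.1 j a h3 ?_
      rwa [show 2 * (ε / 2) = ε by ring]
    · exact hg.2.2 j a h4 h2

private theorem ratio_lower {C Z : ℝ} {D : Dat V J Φ} (h : HB C D) (hC : 2 ≤ C) (φ : Φ) (j : J)
    {ε α δ : ℝ} (hε : 0 < ε) (hε1 : ε ≤ 1) (hZ : 1 < Z) (hg : D.Good3 C ε Z φ) (hα : ε ≤ α) (hδ : 0 < δ)
    (hαδ : α + δ ≤ 2 * ε) (hbig : 4 * Real.log C ≤ δ * Real.log Z) :
    δ / (8 * C ^ 2 * Real.log C) ≤ ∑ v ∈ D.P (Z ^ (α + δ)) \ D.P (Z ^ α), D.r φ j v / D.nm v := by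
  have hC0 : (0 : ℝ) < C := by linarith
  have hZ0 : 0 < Z := by linarith
  have hlC : 0 < Real.log C := Real.log_pos (by linarith)
  have hlZ : 0 < Real.log Z := Real.log_pos hZ
  have hα0 : 0 < α := hε.trans_le hα
  obtain ⟨a0, ha0⟩ : ∃ a0 : ℕ, a0 = ⌈α * Real.log Z / Real.log C⌉₊ := ⟨_, rfl⟩
  obtain ⟨N, hN⟩ : ∃ N : ℕ, N = ⌊δ * Real.log Z / Real.log C - 1⌋₊ := ⟨_, rfl⟩
  have hD4 : 4 ≤ δ * Real.log Z / Real.log C := by
    rw [le_div_iff₀ hlC]
    exact hbig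
  have h1 : α * Real.log Z ≤ a0 * Real.log C := by
    have := Nat.le_ceil (α * Real.log Z / Real.log C)
    rw [← ha0, div_le_iff₀ hlC] at this
    exact this
  have h2 : (a0 + N) * Real.log C ≤ (α + δ) * Real.log Z := by
    have h3 := Nat.ceil_lt_add_one (show 0 ≤ α * Real.log Z / Real.log C by positivity)
    rw [← ha0] at h3
    have h4 := Nat.floor_le (show 0 ≤ δ * Real.log Z / Real.log C - 1 by linarith)
    rw [← hN] at h4
    have h5 : (a0 : ℝ) + N ≤ α * Real.log Z / Real.log C + δ * Real.log Z / Real.log C := by linarith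
    rw [← add_div, le_div_iff₀ hlC] at h5
    linarith
  have h3 : δ * Real.log Z / Real.log C / 2 ≤ N := by
    have h4 := Nat.lt_floor_add_one (δ * Real.log Z / Real.log C - 1)
    rw [← hN] at h4
    linarith
  have hsub : D.P (C ^ (a0 + N)) \ D.P (C ^ a0) ⊆ D.P (Z ^ (α + δ)) \ D.P (Z ^ α) := by
    refine Finset.sdiff_subset_sdiff (P_mono h ?_) (P_mono h ?_)
    · rw [pow_exp hC0, rpow_exp hZ0]
      apply Real.exp_le_exp.2
      push_cast
      exact h2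
    · rw [pow_exp hC0, rpow_exp hZ0]
      exact Real.exp_le_exp.2 h1
  have hf : ∀ v, 0 ≤ D.r φ j v / (D.nm v : ℝ) := fun v => div_nonneg (h.r_nonneg φ j v) (nm_pos h v).le
  have h4 : ∑ v ∈ D.P (C ^ (a0 + N)) \ D.P (C ^ a0), D.r φ j v / (D.nm v : ℝ) ≤
      ∑ v ∈ D.P (Z ^ (α + δ)) \ D.P (Z ^ α), D.r φ j v / (D.nm v : ℝ) :=
    Finset.sum_le_sum_of_subset_of_nonneg hsub fun v _ _ => hf v
  have hC1 : (1 : ℝ) ≤ C := by linarith
  have h5 : ∑ v ∈ D.P (C ^ (a0 + N)) \ D.P (C ^ a0), D.r φ j v / (D.nm v : ℝ) =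
      ∑ i ∈ Finset.range N, ∑ v ∈ D.win C (a0 + i), D.r φ j v / (D.nm v : ℝ) := by
    have e1 : ∀ i, ∑ v ∈ D.win C (a0 + i), D.r φ j v / (D.nm v : ℝ) =
        (∑ v ∈ D.P (C ^ (a0 + (i + 1))), D.r φ j v / (D.nm v : ℝ)) -
          ∑ v ∈ D.P (C ^ (a0 + i)), D.r φ j v / (D.nm v : ℝ) := by
      intro i
      unfold Dat.win
      rw [eq_sub_iff_add_eq, ← add_assoc]
      exact Finset.sum_sdiff (P_mono h (pow_le_pow_right₀ hC1 (Nat.le_succ _)))
    rw [Finset.sum_congr rfl fun i _ => e1 i,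
      Finset.sum_range_sub (fun i => ∑ v ∈ D.P (C ^ (a0 + i)), D.r φ j v / (D.nm v : ℝ)), eq_sub_iff_add_eq]
    exact Finset.sum_sdiff (P_mono h (pow_le_pow_right₀ hC1 (Nat.le_add_right _ _)))
  have h6 : ∀ i ∈ Finset.range N, 1 / (4 * C ^ 2 * Real.log Z) ≤
      ∑ v ∈ D.win C (a0 + i), D.r φ j v / (D.nm v : ℝ) := by
    intro i hi
    rw [Finset.mem_range] at hi
    have hCa : 0 < C ^ (a0 + i) := pow_pos hC0 _
    have hlo : ε * Real.log Z ≤ ((a0 + i : ℕ) : ℝ) * Real.log C := by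
      have e1 : ε * Real.log Z ≤ α * Real.log Z := mul_le_mul_of_nonneg_right hα hlZ.le
      have e2 : (a0 : ℝ) * Real.log C ≤ ((a0 + i : ℕ) : ℝ) * Real.log C := by
        push_cast
        have : 0 ≤ (i : ℝ) * Real.log C := by positivity
        linarith
      linarith
    have hhi : ((a0 + i : ℕ) : ℝ) * Real.log C ≤ 2 * ε * Real.log Z := by
      have e1 : ((a0 + i : ℕ) : ℝ) * Real.log C ≤ (a0 + N) * Real.log C := by
        push_cast
        have : (i : ℝ) ≤ N := by exact_mod_cast hi.le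
        have := mul_le_mul_of_nonneg_right this hlC.le
        linarith
      have e2 : (α + δ) * Real.log Z ≤ 2 * ε * Real.log Z := mul_le_mul_of_nonneg_right hαδ hlZ.le
      linarith
    have hgood : C ^ (a0 + i) / (2 * C * Real.log (C ^ (a0 + i))) ≤ ∑ v ∈ D.win C (a0 + i), D.r φ j v := by
      refine hg.2.2 j (a0 + i) ?_ ?_
      · rw [pow_exp hC0, rpow_exp hZ0]
        exact Real.exp_le_exp.2 hlo
      · rw [pow_exp hC0, rpow_exp hZ0]
        exact Real.exp_le_exp.2 hhi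
    have hlog : Real.log (C ^ (a0 + i)) = ((a0 + i : ℕ) : ℝ) * Real.log C := Real.log_pow _ _
    have hlogpos : 0 < Real.log (C ^ (a0 + i)) := by
      rw [hlog]
      exact (mul_pos hε hlZ).trans_le hlo
    have hlogle : Real.log (C ^ (a0 + i)) ≤ 2 * Real.log Z := by
      rw [hlog]
      refine hhi.trans ?_
      have := mul_le_mul_of_nonneg_right hε1 hlZ.le
      linarith
    calc 1 / (4 * C ^ 2 * Real.log Z) ≤ 1 / (2 * C ^ 2 * Real.log (C ^ (a0 + i))) := by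
          apply one_div_le_one_div_of_le (by positivity)
          have : 2 * C ^ 2 * Real.log (C ^ (a0 + i)) ≤ 2 * C ^ 2 * (2 * Real.log Z) :=
            mul_le_mul_of_nonneg_left hlogle (by positivity)
          linarith
      _ = C ^ (a0 + i) / (2 * C * Real.log (C ^ (a0 + i))) / C ^ (a0 + i + 1) := by
          rw [pow_succ C (a0 + i)]
          field_simp
      _ ≤ (∑ v ∈ D.win C (a0 + i), D.r φ j v) / C ^ (a0 + i + 1) :=
          div_le_div_of_nonneg_right hgood (pow_pos hC0 _).le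
      _ = ∑ v ∈ D.win C (a0 + i), D.r φ j v / C ^ (a0 + i + 1) := Finset.sum_div _ _ _
      _ ≤ ∑ v ∈ D.win C (a0 + i), D.r φ j v / (D.nm v : ℝ) := by
          refine Finset.sum_le_sum fun v hv => ?_
          have hv1 : (D.nm v : ℝ) ≤ C ^ (a0 + i + 1) := by
            unfold Dat.win at hv
            exact (h.mem_P _ _).1 (Finset.mem_sdiff.1 hv).1
          exact div_le_div_of_nonneg_left (h.r_nonneg φ j v) (nm_pos h v) hv1
  have h7 : (N : ℝ) * (1 / (4 * C ^ 2 * Real.log Z)) ≤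
      ∑ i ∈ Finset.range N, ∑ v ∈ D.win C (a0 + i), D.r φ j v / (D.nm v : ℝ) := by
    have := Finset.card_nsmul_le_sum (Finset.range N) _ _ h6
    rwa [Finset.card_range, nsmul_eq_mul] at this
  calc δ / (8 * C ^ 2 * Real.log C) = (δ * Real.log Z / Real.log C / 2) * (1 / (4 * C ^ 2 * Real.log Z)) := by
        field_simp
        ring
    _ ≤ (N : ℝ) * (1 / (4 * C ^ 2 * Real.log Z)) := mul_le_mul_of_nonneg_right h3 (by positivity)
    _ ≤ _ := h7
    _ ≤ _ := by rw [← h5]; exact h4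

/-- removing few terms -/
private theorem sum_U {X U : Finset V} {f : V → ℝ} {B : ℝ} {N0 : ℕ} (hB : 0 ≤ B) (hf : ∀ v ∈ X, f v ≤ B)
    (hU : U.card ≤ N0) : ∑ v ∈ X, f v - N0 * B ≤ ∑ v ∈ X \ U, f v := by
  have h1 := Finset.sum_inter_add_sum_sdiff X U f
  have h2 : ∑ v ∈ X ∩ U, f v ≤ (X ∩ U).card • B :=
    Finset.sum_le_card_nsmul _ _ _ fun v hv => hf v (Finset.mem_inter.1 hv).1
  have h3 : ((X ∩ U).card : ℝ) ≤ N0 := by
    exact_mod_cast (Finset.card_le_card Finset.inter_subset_right).trans hU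
  rw [nsmul_eq_mul] at h2
  have h4 := mul_le_mul_of_nonneg_right h3 hB
  linarith

private theorem ratio_U {C Z : ℝ} {D : Dat V J Φ} (h : HB C D) (hC : 2 ≤ C) (φ : Φ) (j : J)
    {ε α δ : ℝ} (hε : 0 < ε) (hε1 : ε ≤ 1) (hZ : 1 < Z) (hg : D.Good3 C ε Z φ) (hα : ε ≤ α) (hδ : 0 < δ)
    (hαδ : α + δ ≤ 2 * ε) (hbig : 4 * Real.log C ≤ δ * Real.log Z) {N0 : ℕ} {U : Finset V} (hU : U.card ≤ N0)
    (hbig2 : N0 * C ≤ δ / (16 * C ^ 2 * Real.log C) * Z ^ ε) :
    δ / (16 * C ^ 2 * Real.log C) ≤ ∑ v ∈ (D.P (Z ^ (α + δ)) \ D.P (Z ^ α)) \ U, D.r φ j v / D.nm v := by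
  have hC0 : (0 : ℝ) < C := by linarith
  have hZ0 : 0 < Z := by linarith
  have hlC : 0 < Real.log C := Real.log_pos (by linarith)
  have h1 := ratio_lower h hC φ j hε hε1 hZ hg hα hδ hαδ hbig
  have hZe : 0 < Z ^ ε := Real.rpow_pos_of_pos hZ0 _
  have h2 := sum_U (X := D.P (Z ^ (α + δ)) \ D.P (Z ^ α)) (f := fun v => D.r φ j v / (D.nm v : ℝ)) (B := C / Z ^ ε)
    (by positivity) (fun v hv => by
      rw [Finset.mem_sdiff, h.mem_P, h.mem_P, not_le] at hv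
      have h3 : Z ^ ε ≤ D.nm v := (Real.rpow_le_rpow_of_exponent_le hZ.le hα).trans hv.2.le
      have h4 := nm_pos h v
      rw [div_le_div_iff₀ h4 hZe]
      exact mul_le_mul (h.r_le φ j v) h3 hZe.le hC0.le) hU
  have h3 : N0 * (C / Z ^ ε) ≤ δ / (16 * C ^ 2 * Real.log C) := by
    rw [← mul_div_assoc, div_le_iff₀ hZe]
    exact hbig2
  have h4 : δ / (8 * C ^ 2 * Real.log C) = δ / (16 * C ^ 2 * Real.log C) + δ / (16 * C ^ 2 * Real.log C) := by
    field_simp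
    norm_num
  rw [h4] at h1
  linarith

/-- sets of at most `k` elements of `X` with product in `(y, C ^ 3 y]` -/
private def SS (D : Dat V J Φ) (C : ℝ) (X : Finset V) (k : ℕ) (y : ℝ) : Finset (Finset V) :=
  X.powerset.filter fun s => s.card ≤ k ∧ y < D.NP s ∧ D.NP s ≤ C ^ 3 * y

private theorem mem_SS {D : Dat V J Φ} {C : ℝ} {X : Finset V} {k : ℕ} {y : ℝ} {s : Finset V} :
    s ∈ SS D C X k y ↔ s ⊆ X ∧ s.card ≤ k ∧ y < D.NP s ∧ D.NP s ≤ C ^ 3 * y := by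
  unfold SS
  rw [Finset.mem_filter, Finset.mem_powerset]

private theorem add_one {C : ℝ} {D : Dat V J Φ} (h : HB C D) (φ : Φ) (j : J) (X X' W : Finset V)
    (hX : X ⊆ X') (hW : W ⊆ X') (hd : Disjoint X W) (k : ℕ) (y : ℝ) :
    ∑ v ∈ W, D.r φ j v * ∑ s ∈ SS D C X k (y / D.nm v), D.R φ j s ≤ ∑ s ∈ SS D C X' (k + 1) y, D.R φ j s := by
  have hnot : ∀ v ∈ W, ∀ s, s ⊆ X → v ∉ s := fun v hv s hs hvs =>
    Finset.disjoint_left.1 hd (hs hvs) hv
  have h1 : ∑ v ∈ W, D.r φ j v * ∑ s ∈ SS D C X k (y / D.nm v), D.R φ j s =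
      ∑ p ∈ W.sigma fun v => SS D C X k (y / D.nm v), D.R φ j (insert p.1 p.2) := by
    rw [Finset.sum_sigma]
    refine Finset.sum_congr rfl fun v hv => ?_
    rw [Finset.mul_sum]
    refine Finset.sum_congr rfl fun s hs => ?_
    unfold Dat.R
    rw [Finset.prod_insert (hnot v hv s (mem_SS.1 hs).1)]
  have hinj : ∀ p ∈ (W.sigma fun v => SS D C X k (y / D.nm v)), ∀ p' ∈ (W.sigma fun v => SS D C X k (y / D.nm v)),
      insert p.1 p.2 = insert p'.1 p'.2 → p = p' := by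
    rintro ⟨v, s⟩ hp ⟨v', s'⟩ hp' he
    rw [Finset.mem_sigma] at hp hp'
    simp only at hp hp' he
    have hs := (mem_SS.1 hp.2).1
    have hs' := (mem_SS.1 hp'.2).1
    have hv : v = v' := by
      have h2 : v ∈ insert v' s' := by rw [← he]; exact Finset.mem_insert_self _ _
      rcases Finset.mem_insert.1 h2 with h3 | h3
      · exact h3
      · exact absurd h3 (hnot v hp.1 s' hs')
    subst hv
    have h4 : s = s' := by
      rw [← Finset.erase_insert (hnot v hp.1 s hs), he, Finset.erase_insert (hnot v hp.1 s' hs')]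
    rw [h4]
  rw [h1, ← Finset.sum_image (f := fun s => D.R φ j s)
    (g := fun p : (_ : V) × Finset V => insert p.1 p.2) (s := W.sigma fun v => SS D C X k (y / D.nm v)) hinj]
  refine Finset.sum_le_sum_of_subset_of_nonneg ?_ fun s _ _ => R_nonneg h φ j s
  intro t ht
  obtain ⟨⟨v, s⟩, hp, rfl⟩ := Finset.mem_image.1 ht
  rw [Finset.mem_sigma] at hp
  obtain ⟨hv, hs⟩ := hp
  simp only at hv hs ⊢
  rw [mem_SS] at hs ⊢
  have hv0 := nm_pos h v
  have hNP : D.NP (insert v s) = D.nm v * D.NP s := by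
    unfold Dat.NP
    rw [Finset.prod_insert (hnot v hv s hs.1)]
  refine ⟨Finset.insert_subset (hW hv) (hs.1.trans hX), ?_, ?_, ?_⟩
  · rw [Finset.card_insert_of_notMem (hnot v hv s hs.1)]
    omega
  · rw [hNP]
    have h3 := hs.2.2.1
    rw [div_lt_iff₀ hv0] at h3
    linarith
  · rw [hNP]
    have h3 := hs.2.2.2
    rw [← mul_div_assoc, le_div_iff₀ hv0] at h3
    linarith

private theorem base_U {C Z : ℝ} {D : Dat V J Φ} (h : HB C D) (hC : 2 ≤ C) (φ : Φ) (j : J)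
    {ε : ℝ} (hε : 0 < ε) (hε1 : ε ≤ 1) (hZ : 1 < Z) (hg : D.Good3 C ε Z φ) (hbig : 2 * Real.log C ≤ ε / 8 * Real.log Z)
    {N0 : ℕ} {U : Finset V} (hU : U.card ≤ N0) (hbig2 : N0 * C ≤ Z ^ (ε / 2) / (4 * C * Real.log Z))
    {e : ℝ} (he : ε ≤ e) {y : ℝ} (hy1 : Z ^ (ε / 2) ≤ y) (hy2 : y ≤ Z ^ (7 * ε / 8)) :
    1 / (4 * C) * (y / Real.log Z) ≤
      ∑ s ∈ SS D C ((D.P (Z ^ e) \ D.P (Z ^ (ε / 4))) \ U) 1 y, D.R φ j s := by
  have hC0 : (0 : ℝ) < C := by linarith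
  have hZ0 : 0 < Z := by linarith
  have hlC : 0 < Real.log C := Real.log_pos (by linarith)
  have hlZ : 0 < Real.log Z := Real.log_pos hZ
  have hy0 : 0 < y := (Real.rpow_pos_of_pos hZ0 _).trans_le hy1
  have hly1 : ε / 2 * Real.log Z ≤ Real.log y := by
    have := Real.log_le_log (Real.rpow_pos_of_pos hZ0 _) hy1
    rwa [Real.log_rpow hZ0] at this
  have hly2 : Real.log y ≤ 7 * ε / 8 * Real.log Z := by
    have := Real.log_le_log hy0 hy2
    rwa [Real.log_rpow hZ0] at this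
  have hεZ : 0 < ε * Real.log Z := mul_pos hε hlZ
  obtain ⟨t, ht⟩ : ∃ t : ℕ, t = ⌈Real.log y / Real.log C⌉₊ := ⟨_, rfl⟩
  have hly0 : 0 ≤ Real.log y := by linarith
  have ht1 : Real.log y ≤ t * Real.log C := by
    have := Nat.le_ceil (Real.log y / Real.log C)
    rw [← ht, div_le_iff₀ hlC] at this
    exact this
  have ht2 : t * Real.log C ≤ Real.log y + Real.log C := by
    have := Nat.ceil_lt_add_one (show 0 ≤ Real.log y / Real.log C by positivity)
    rw [← ht] at this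
    have h1 := mul_lt_mul_of_pos_right this hlC
    rw [add_mul, div_mul_cancel₀ _ hlC.ne', one_mul] at h1
    exact h1.le
  have hye : y = Real.exp (Real.log y) := (Real.exp_log hy0).symm
  have hC1 : y ≤ C ^ t := by
    rw [hye, pow_exp hC0]
    exact Real.exp_le_exp.2 ht1
  have hC2 : C ^ t ≤ Z ^ ε := by
    rw [pow_exp hC0, rpow_exp hZ0]
    apply Real.exp_le_exp.2
    linarith
  have hC3 : C ^ (t + 1) ≤ Z ^ ε := by
    rw [pow_exp hC0, rpow_exp hZ0]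
    apply Real.exp_le_exp.2
    push_cast
    linarith
  have hC4 : C ^ (t + 1) ≤ C ^ 3 * y := by
    have h1 : C ^ 3 * y = Real.exp (3 * Real.log C + Real.log y) := by
      rw [Real.exp_add, ← hye, pow_exp hC0 3]
      push_cast
      rfl
    rw [h1, pow_exp hC0]
    apply Real.exp_le_exp.2
    push_cast
    linarith
  have hZ4 : Z ^ (ε / 4) ≤ y := (Real.rpow_le_rpow_of_exponent_le hZ.le (by linarith)).trans hy1
  have hgood := good_all hg j t (hZ4.trans hC1)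
    (hC2.trans (Real.rpow_le_rpow_of_exponent_le hZ.le (by linarith)))
  have hlogt : Real.log (C ^ t) ≤ Real.log Z := by
    have h1 := Real.log_le_log (pow_pos hC0 t) hC2
    rw [Real.log_rpow hZ0] at h1
    have h2 := mul_le_mul_of_nonneg_right hε1 hlZ.le
    linarith
  have hlogt0 : 0 < Real.log (C ^ t) := by
    rw [Real.log_pow]
    linarith
  have h1 : y / (2 * C * Real.log Z) ≤ ∑ v ∈ D.win C t, D.r φ j v := by
    refine le_trans ?_ hgood
    calc y / (2 * C * Real.log Z) ≤ C ^ t / (2 * C * Real.log Z) :=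
          div_le_div_of_nonneg_right hC1 (by positivity)
      _ ≤ C ^ t / (2 * C * Real.log (C ^ t)) := by
          apply div_le_div_of_nonneg_left (pow_pos hC0 t).le (by positivity)
          exact mul_le_mul_of_nonneg_left hlogt (by positivity)
  have h2 := sum_U (X := D.win C t) (f := fun v => D.r φ j v) hC0.le (fun v _ => h.r_le φ j v) hU
  have h3 : N0 * C ≤ y / (4 * C * Real.log Z) :=
    hbig2.trans (div_le_div_of_nonneg_right hy1 (by positivity))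
  have h4 : y / (2 * C * Real.log Z) = y / (4 * C * Real.log Z) + y / (4 * C * Real.log Z) := by
    field_simp
    norm_num
  have h5 : 1 / (4 * C) * (y / Real.log Z) = y / (4 * C * Real.log Z) := by
    field_simp
  have h6 : ∑ v ∈ D.win C t \ U, D.r φ j v = ∑ s ∈ (D.win C t \ U).image fun v => ({v} : Finset V), D.R φ j s := by
    rw [Finset.sum_image (fun v _ v' _ hvv => Finset.singleton_injective hvv)]
    refine Finset.sum_congr rfl fun v _ => ?_
    unfold Dat.R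
    rw [Finset.prod_singleton]
  have h7 : (D.win C t \ U).image (fun v => ({v} : Finset V)) ⊆
      SS D C ((D.P (Z ^ e) \ D.P (Z ^ (ε / 4))) \ U) 1 y := by
    intro s hs
    obtain ⟨v, hv, rfl⟩ := Finset.mem_image.1 hs
    unfold Dat.win at hv
    rw [Finset.mem_sdiff, Finset.mem_sdiff, h.mem_P, h.mem_P, not_le] at hv
    rw [mem_SS]
    have hNP : D.NP {v} = D.nm v := by
      unfold Dat.NP
      rw [Finset.prod_singleton]
    have hyv : y < D.nm v := hC1.trans_lt hv.1.2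
    rw [hNP]
    refine ⟨?_, by rw [Finset.card_singleton], hyv, hv.1.1.trans hC4⟩
    rw [Finset.singleton_subset_iff, Finset.mem_sdiff, Finset.mem_sdiff, h.mem_P, h.mem_P, not_le]
    exact ⟨⟨(hv.1.1.trans hC3).trans (Real.rpow_le_rpow_of_exponent_le hZ.le he), hZ4.trans_lt hyv⟩, hv.2⟩
  rw [h5]
  have h8 := Finset.sum_le_sum_of_subset_of_nonneg h7 (fun s _ _ => R_nonneg h φ j s) (f := fun s => D.R φ j s)
  rw [← h6] at h8
  linarith

private theorem induct_U {C Z : ℝ} {D : Dat V J Φ} (h : HB C D) (hC : 2 ≤ C) (φ : Φ) (j : J)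
    {ε δ e : ℝ} (hε : 0 < ε) (hε1 : ε ≤ 1) (hZ : 1 < Z) (hg : D.Good3 C ε Z φ) (hδ : 0 < δ) (he : ε ≤ e) {K : ℕ}
    (heK : e + δ * K ≤ 2 * ε) (hbig : 4 * Real.log C ≤ δ * Real.log Z) (hbig' : 2 * Real.log C ≤ ε / 8 * Real.log Z)
    {N0 : ℕ} {U : Finset V} (hU : U.card ≤ N0) (hbig2 : N0 * C ≤ δ / (16 * C ^ 2 * Real.log C) * Z ^ ε)
    (hbig3 : N0 * C ≤ Z ^ (ε / 2) / (4 * C * Real.log Z)) (i : ℕ) (hi : i ≤ K) (y : ℝ)
    (hy1 : Z ^ (ε / 2 + i * e + δ * (i * (i + 1) / 2)) ≤ y)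
    (hy2 : y ≤ Z ^ (7 * ε / 8 + i * e + δ * (i * (i - 1) / 2))) :
    1 / (4 * C) * (δ / (16 * C ^ 2 * Real.log C)) ^ i * (y / Real.log Z) ≤
      ∑ s ∈ SS D C ((D.P (Z ^ (e + δ * i)) \ D.P (Z ^ (ε / 4))) \ U) (i + 1) y, D.R φ j s := by
  have hC0 : (0 : ℝ) < C := by linarith
  have hZ0 : 0 < Z := by linarith
  have hlC : 0 < Real.log C := Real.log_pos (by linarith)
  have hlZ : 0 < Real.log Z := Real.log_pos hZ
  induction i generalizing y with
  | zero =>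
    have e1 : ε / 2 + ((0 : ℕ) : ℝ) * e + δ * (((0 : ℕ) : ℝ) * (((0 : ℕ) : ℝ) + 1) / 2) = ε / 2 := by
      push_cast
      ring
    have e2 : 7 * ε / 8 + ((0 : ℕ) : ℝ) * e + δ * (((0 : ℕ) : ℝ) * (((0 : ℕ) : ℝ) - 1) / 2) = 7 * ε / 8 := by
      push_cast
      ring
    have e3 : e + δ * ((0 : ℕ) : ℝ) = e := by
      push_cast
      ring
    rw [e1] at hy1
    rw [e2] at hy2
    rw [e3, pow_zero, mul_one]
    exact base_U h hC φ j hε hε1 hZ hg hbig' hU hbig3 he hy1 hy2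
  | succ i ih =>
    have hi' : i ≤ K := by omega
    have hik : (i : ℝ) + 1 ≤ K := by exact_mod_cast hi
    have hi0 : (0 : ℝ) ≤ i := Nat.cast_nonneg i
    obtain ⟨c, hc⟩ : ∃ c : ℝ, c = δ / (16 * C ^ 2 * Real.log C) := ⟨_, rfl⟩
    have hc0 : 0 < c := by rw [hc]; positivity
    rw [← hc] at ih ⊢
    have hy0 : 0 < y := (Real.rpow_pos_of_pos hZ0 _).trans_le hy1
    obtain ⟨α, hα⟩ : ∃ α : ℝ, α = e + δ * i := ⟨_, rfl⟩
    have hα1 : e + δ * ((i + 1 : ℕ) : ℝ) = α + δ := by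
      rw [hα]
      push_cast
      ring
    rw [hα1]
    have hαε : ε ≤ α := by
      rw [hα]
      have : 0 ≤ δ * i := by positivity
      linarith
    have hαδ : α + δ ≤ 2 * ε := by
      have e1 : δ * ((i : ℝ) + 1) ≤ δ * K := mul_le_mul_of_nonneg_left hik hδ.le
      rw [hα]
      linarith
    have hrat := ratio_U h hC φ j hε hε1 hZ hg hαε hδ hαδ hbig hU hbig2
    rw [← hc] at hrat
    have hyy : Z ^ α ≤ Z ^ (α + δ) := Real.rpow_le_rpow_of_exponent_le hZ.le (by linarith)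
    have hadd := add_one h φ j ((D.P (Z ^ α) \ D.P (Z ^ (ε / 4))) \ U) ((D.P (Z ^ (α + δ)) \ D.P (Z ^ (ε / 4))) \ U)
      ((D.P (Z ^ (α + δ)) \ D.P (Z ^ α)) \ U)
      (Finset.sdiff_subset_sdiff (Finset.sdiff_subset_sdiff (P_mono h hyy) subset_rfl) subset_rfl)
      (Finset.sdiff_subset_sdiff (Finset.sdiff_subset_sdiff subset_rfl
        (P_mono h (Real.rpow_le_rpow_of_exponent_le hZ.le (by linarith)))) subset_rfl)
      (by
        rw [Finset.disjoint_left]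
        intro v hv hv'
        rw [Finset.mem_sdiff, Finset.mem_sdiff] at hv hv'
        exact hv'.1.2 hv.1.1) (i + 1) y
    refine le_trans ?_ hadd
    have hterm : ∀ v ∈ (D.P (Z ^ (α + δ)) \ D.P (Z ^ α)) \ U,
        1 / (4 * C) * c ^ i * (y / Real.log Z) * (D.r φ j v / D.nm v) ≤
          D.r φ j v * ∑ s ∈ SS D C ((D.P (Z ^ α) \ D.P (Z ^ (ε / 4))) \ U) (i + 1) (y / D.nm v), D.R φ j s := by
      intro v hv
      rw [Finset.mem_sdiff, Finset.mem_sdiff, h.mem_P, h.mem_P, not_le] at hv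
      have hv0 := nm_pos h v
      have h1 := ih hi' (y / D.nm v) ?_ ?_
      · rw [← hα] at h1
        calc 1 / (4 * C) * c ^ i * (y / Real.log Z) * (D.r φ j v / D.nm v)
            = D.r φ j v * (1 / (4 * C) * c ^ i * (y / D.nm v / Real.log Z)) := by
              field_simp
          _ ≤ _ := mul_le_mul_of_nonneg_left h1 (h.r_nonneg φ j v)
      · rw [le_div_iff₀ hv0]
        refine le_trans ?_ hy1
        calc Z ^ (ε / 2 + i * e + δ * (i * (i + 1) / 2)) * D.nm v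
            ≤ Z ^ (ε / 2 + i * e + δ * (i * (i + 1) / 2)) * Z ^ (α + δ) :=
              mul_le_mul_of_nonneg_left hv.1.1 (Real.rpow_pos_of_pos hZ0 _).le
          _ = Z ^ (ε / 2 + ((i + 1 : ℕ) : ℝ) * e + δ * (((i + 1 : ℕ) : ℝ) * (((i + 1 : ℕ) : ℝ) + 1) / 2)) := by
              rw [← Real.rpow_add hZ0]
              congr 1
              rw [hα]
              push_cast
              ring
      · rw [div_le_iff₀ hv0]
        refine hy2.trans ?_
        calc Z ^ (7 * ε / 8 + ((i + 1 : ℕ) : ℝ) * e + δ * (((i + 1 : ℕ) : ℝ) * (((i + 1 : ℕ) : ℝ) - 1) / 2))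
            = Z ^ (7 * ε / 8 + i * e + δ * (i * (i - 1) / 2)) * Z ^ α := by
              rw [← Real.rpow_add hZ0]
              congr 1
              rw [hα]
              push_cast
              ring
          _ ≤ Z ^ (7 * ε / 8 + i * e + δ * (i * (i - 1) / 2)) * D.nm v :=
              mul_le_mul_of_nonneg_left hv.1.2.le (Real.rpow_pos_of_pos hZ0 _).le
    refine le_trans ?_ (Finset.sum_le_sum hterm)
    rw [← Finset.mul_sum]
    have hK : 0 ≤ 1 / (4 * C) * c ^ i * (y / Real.log Z) := by positivity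
    calc 1 / (4 * C) * c ^ (i + 1) * (y / Real.log Z)
        = 1 / (4 * C) * c ^ i * (y / Real.log Z) * c := by ring
      _ ≤ _ := mul_le_mul_of_nonneg_left hrat hK

end

/-- the choice of `Z0` -/
private theorem big (C ε δ : ℝ) (N0 : ℕ) (hC : 2 ≤ C) (hε : 0 < ε) (hδ : 0 < δ) :
    ∃ Z0 : ℝ, 2 ≤ Z0 ∧ ∀ Z, Z0 ≤ Z → 4 * Real.log C ≤ δ * Real.log Z ∧ 2 * Real.log C ≤ ε / 8 * Real.log Z ∧
      N0 * C ≤ δ / (16 * C ^ 2 * Real.log C) * Z ^ ε ∧ N0 * C ≤ Z ^ (ε / 2) / (4 * C * Real.log Z) := by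
  have hC0 : (0 : ℝ) < C := by linarith
  have hlC : 0 < Real.log C := Real.log_pos (by linarith)
  have h1 : ∀ᶠ Z : ℝ in Filter.atTop, 4 * Real.log C ≤ δ * Real.log Z :=
    (Real.tendsto_log_atTop.const_mul_atTop hδ).eventually_ge_atTop _
  have h2 : ∀ᶠ Z : ℝ in Filter.atTop, 2 * Real.log C ≤ ε / 8 * Real.log Z :=
    (Real.tendsto_log_atTop.const_mul_atTop (by positivity)).eventually_ge_atTop _
  have h3 : ∀ᶠ Z : ℝ in Filter.atTop, N0 * C ≤ δ / (16 * C ^ 2 * Real.log C) * Z ^ ε :=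
    ((tendsto_rpow_atTop hε).const_mul_atTop (by positivity)).eventually_ge_atTop _
  have h4 : ∀ᶠ Z : ℝ in Filter.atTop, N0 * C * (4 * C) * Real.log Z ≤ Z ^ (ε / 2) := by
    have h5 := (isLittleO_log_rpow_atTop (show 0 < ε / 2 by positivity)).def
      (show 0 < 1 / (N0 * C * (4 * C) + 1) by positivity)
    filter_upwards [h5, Filter.eventually_ge_atTop (1 : ℝ)] with Z hZ hZ1
    have hl : 0 ≤ Real.log Z := Real.log_nonneg hZ1
    rw [Real.norm_of_nonneg hl, Real.norm_of_nonneg (Real.rpow_nonneg (by linarith) _)] at hZ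
    have h6 : (0 : ℝ) < N0 * C * (4 * C) + 1 := by positivity
    rw [div_mul_eq_mul_div, one_mul, le_div_iff₀ h6] at hZ
    nlinarith
  obtain ⟨Z0, hZ0⟩ := Filter.eventually_atTop.1 ((h1.and h2).and (h3.and h4))
  refine ⟨max Z0 2, le_max_right _ _, fun Z hZ => ?_⟩
  obtain ⟨⟨e1, e2⟩, e3, e4⟩ := hZ0 Z ((le_max_left _ _).trans hZ)
  refine ⟨e1, e2, e3, ?_⟩
  have hZ2 : 2 ≤ Z := (le_max_right _ _).trans hZ
  have hlZ : 0 < Real.log Z := Real.log_pos (by linarith)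
  rw [le_div_iff₀ (by positivity)]
  linarith [mul_assoc (N0 * C) (4 * C) (Real.log Z)]

theorem bxm (C θ ε a b : ℝ) (N0 : ℕ) (hC : 2 ≤ C) (hε : 0 < ε) (hε1 : ε ≤ 1) (ha : 4 * ε ≤ a) (hab : a ≤ b) :
    ∃ (c Z0 : ℝ) (k : ℕ), 0 < c ∧ 2 ≤ Z0 ∧
      ∀ (V J Φ : Type) [DecidableEq V] [Fintype J] [Fintype Φ] (D : Dat V J Φ) (η A Z : ℝ),
        Z0 ≤ Z → Hyp C θ η A Z D → ∀ φ, D.Good3 C ε Z φ → ∀ (j : J) (m U : Finset V),
          D.NP m ≤ Z ^ (ε / 8) → U.card ≤ N0 → ∀ F : ℝ, Z ^ a ≤ F → F ≤ Z ^ b →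
            c * (F / Real.log Z) / D.NP m ≤ ∑ s ∈ D.BX C ε Z k m U F, D.R φ j s := by
  have hC0 : (0 : ℝ) < C := by linarith
  have hlC : 0 < Real.log C := Real.log_pos (by linarith)
  obtain ⟨K, hK⟩ : ∃ K : ℕ, K = ⌈b / ε⌉₊ := ⟨_, rfl⟩
  obtain ⟨δ, hδ⟩ : ∃ δ : ℝ, δ = ε / (8 * ((K : ℝ) + 1) ^ 2) := ⟨_, rfl⟩
  have hK0 : (0 : ℝ) ≤ K := Nat.cast_nonneg K
  have hδ0 : 0 < δ := by rw [hδ]; positivity
  have hδK : δ * ((K : ℝ) + 1) ^ 2 = ε / 8 := by
    rw [hδ]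
    field_simp
  obtain ⟨Z0, hZ02, hbig⟩ := big C ε δ N0 hC hε hδ0
  obtain ⟨c1, hc1⟩ : ∃ c1 : ℝ, c1 = δ / (16 * C ^ 2 * Real.log C) := ⟨_, rfl⟩
  have hc10 : 0 < c1 := by rw [hc1]; positivity
  refine ⟨1 / (4 * C) * (min 1 c1) ^ K, Z0, K + 1, by positivity, hZ02, ?_⟩
  intro V J Φ _ _ _ D η A Z hZ0 hH φ hg j m U hm hU F hF1 hF2
  have h : HB C D := ⟨hH.mem_P, hH.two, hH.r_nonneg, hH.r_le⟩
  obtain ⟨hb1, hb2, hb3, hb4⟩ := hbig Z hZ0
  have hZ : 1 < Z := by linarith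
  have hZp : 0 < Z := by linarith
  have hlZ : 0 < Real.log Z := Real.log_pos hZ
  have hm1 := NP_one_le h m
  have hm0 : 0 < D.NP m := by linarith
  have hF0 : 0 < F := (Real.rpow_pos_of_pos hZp _).trans_le hF1
  obtain ⟨y, hy⟩ : ∃ y : ℝ, y = F / D.NP m := ⟨_, rfl⟩
  have hy0 : 0 < y := by rw [hy]; positivity
  obtain ⟨A', hA'⟩ : ∃ A' : ℝ, A' = Real.log y / Real.log Z := ⟨_, rfl⟩
  have hyA : y = Z ^ A' := by
    rw [rpow_exp hZp, hA', div_mul_cancel₀ _ hlZ.ne', Real.exp_log hy0]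
  have hA1 : a - ε / 8 ≤ A' := by
    have h1 : Z ^ (a - ε / 8) ≤ Z ^ A' := by
      rw [← hyA, hy, Real.rpow_sub hZp]
      exact div_le_div₀ hF0.le hF1 hm0 hm
    exact (Real.rpow_le_rpow_left_iff hZ).1 h1
  have hA2 : A' ≤ b := by
    have h1 : Z ^ A' ≤ Z ^ b := by
      rw [← hyA, hy]
      exact (div_le_self hF0.le hm1).trans hF2
    exact (Real.rpow_le_rpow_left_iff hZ).1 h1
  obtain ⟨i, hi⟩ : ∃ i : ℕ, i = ⌊(A' - 5 * ε / 8) / ε⌋₊ := ⟨_, rfl⟩
  have hi1 : (i : ℝ) * ε ≤ A' - 5 * ε / 8 := by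
    have := Nat.floor_le (show 0 ≤ (A' - 5 * ε / 8) / ε from div_nonneg (by linarith) hε.le)
    rw [← hi, le_div_iff₀ hε] at this
    exact this
  have hi2 : A' - 5 * ε / 8 < ((i : ℝ) + 1) * ε := by
    have := Nat.lt_floor_add_one ((A' - 5 * ε / 8) / ε)
    rw [← hi, div_lt_iff₀ hε] at this
    exact this
  have hi3 : 2 ≤ i := by
    rw [hi]
    apply Nat.le_floor
    rw [le_div_iff₀ hε]
    push_cast
    linarith
  have hi3' : (2 : ℝ) ≤ i := by exact_mod_cast hi3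
  have hiK : i ≤ K := by
    have h1 : (i : ℝ) ≤ K := by
      have h2 := Nat.le_ceil (b / ε)
      rw [← hK, div_le_iff₀ hε] at h2
      have h3 : (i : ℝ) * ε ≤ K * ε := by linarith
      exact le_of_mul_le_mul_right h3 hε
    exact_mod_cast h1
  have hiK' : (i : ℝ) ≤ K := by exact_mod_cast hiK
  have hi0 : (0 : ℝ) < i := by linarith
  obtain ⟨e, he⟩ : ∃ e : ℝ, e = (A' - 5 * ε / 8) / i := ⟨_, rfl⟩
  have hie : (i : ℝ) * e = A' - 5 * ε / 8 := by
    rw [he]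
    field_simp
  have he1 : ε ≤ e := by
    rw [he, le_div_iff₀ hi0]
    linarith
  have he2 : e ≤ 3 * ε / 2 := by
    rw [he, div_le_iff₀ hi0]
    have h1 := mul_nonneg (sub_nonneg.2 hi3') hε.le
    linarith
  have hδ1 : δ * ((i : ℝ) * (i + 1) / 2) ≤ ε / 8 := by
    rw [← hδK]
    apply mul_le_mul_of_nonneg_left _ hδ0.le
    have h1 : (i : ℝ) * (i + 1) ≤ (K + 1) * (K + 1) :=
      mul_le_mul (by linarith) (by linarith) (by linarith) (by linarith)
    have h2 : 0 ≤ (i : ℝ) * (i + 1) := mul_nonneg hi0.le (by linarith)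
    rw [sq]
    linarith
  have hδ2 : 0 ≤ δ * ((i : ℝ) * (i - 1) / 2) := by
    apply mul_nonneg hδ0.le
    have h1 : 0 ≤ (i : ℝ) * (i - 1) := mul_nonneg hi0.le (by linarith)
    linarith
  have heK : e + δ * K ≤ 2 * ε := by
    have h1 : δ * K ≤ ε / 8 := by
      rw [← hδK]
      apply mul_le_mul_of_nonneg_left _ hδ0.le
      have h1 := mul_nonneg hK0 hK0
      rw [sq]
      linarith
    linarith
  have key := induct_U h hC φ j hε hε1 hZ hg hδ0 he1 heK hb1 hb2 hU hb3 hb4 i hiK y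
    (by
      rw [hyA]
      apply Real.rpow_le_rpow_of_exponent_le hZ.le
      linarith)
    (by
      rw [hyA]
      apply Real.rpow_le_rpow_of_exponent_le hZ.le
      linarith)
  rw [← hc1] at key
  have hsub : SS D C ((D.P (Z ^ (e + δ * i)) \ D.P (Z ^ (ε / 4))) \ U) (i + 1) y ⊆ D.BX C ε Z (K + 1) m U F := by
    intro s hs
    rw [mem_SS] at hs
    unfold Dat.BX
    rw [Finset.mem_filter, Finset.mem_powerset]
    refine ⟨hs.1.trans (Finset.sdiff_subset_sdiff (Finset.sdiff_subset_sdiff (P_mono h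
      (Real.rpow_le_rpow_of_exponent_le hZ.le ?_)) subset_rfl) subset_rfl), by omega, ?_, ?_⟩
    · have : δ * i ≤ δ * K := mul_le_mul_of_nonneg_left hiK' hδ0.le
      linarith
    · have h1 := hs.2.2.1
      rw [hy, div_lt_iff₀ hm0] at h1
      linarith
    · have h1 := hs.2.2.2
      rw [hy, ← mul_div_assoc, le_div_iff₀ hm0] at h1
      linarith
  refine le_trans ?_ (key.trans (Finset.sum_le_sum_of_subset_of_nonneg hsub fun s _ _ => R_nonneg h φ j s))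
  have hmin0 : 0 < min 1 c1 := lt_min one_pos hc10
  have hpow : (min 1 c1) ^ K ≤ c1 ^ i :=
    (pow_le_pow_of_le_one hmin0.le (min_le_left _ _) hiK).trans (pow_le_pow_left₀ hmin0.le (min_le_right _ _) i)
  calc 1 / (4 * C) * min 1 c1 ^ K * (F / Real.log Z) / D.NP m
      = 1 / (4 * C) * min 1 c1 ^ K * (y / Real.log Z) := by
        rw [hy]
        field_simp
    _ ≤ 1 / (4 * C) * c1 ^ i * (y / Real.log Z) := by
        apply mul_le_mul_of_nonneg_right _ (by positivity)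
        exact mul_le_mul_of_nonneg_left hpow (by positivity)

end Pool.Agent.H36.RS
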