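import Pool.Agent.H36.RS.Bxd

/-!
# Residues on average (T8, K1), box form: all factors, BXP

From the conclusion of `bxm` (hypothesis `hb`, for `U.card ≤ m * k`) to the families. Let `m : J → Finset V` be pairwise disjoint with
`∏ NP (m j) ≤ Z ^ (ε/8)` (so each `NP (m j) ≤ Z ^ (ε/8)`, all primes of `m j` are in `P (Z ^ (ε/8))`). Induction over the subsets `S` of `J`
(or over a list of the elements of `J`): the sum over the partial families `(s j)_(j ∈ S)`, `s j ∈ BX C ε Z k (m j) ∅ (F j)`, pairwise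
disjoint, of `∏_{j ∈ S} R φ j (s j)` is at least `∏_{j ∈ S} c (F j / log Z) / NP (m j)`: given the `s i`, `i ∈ S`, take
`U := ⋃_{i ∈ S} s i`, `card U ≤ k * card S`. `q j := m j ∪ s j` (disjoint, `s j` has only primes above `Z ^ (ε/4)`), `R (q j) = R (m j) R (s j)`,
`NP (q j) = NP (m j) NP (s j)`, `q j ∩ P (Z ^ (ε/8)) = m j`, so `q ∈ BFm`, and `q` determines `s`.
`bxt`: sum over `m ∈ Fam (Z ^ (ε/8))`: the sets `BFm m` are disjoint subsets of `BF`.
-/

set_option autoImplicit false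

noncomputable section

namespace Pool.Agent.H36.RS

open scoped Classical in
/-- the pairwise disjoint partial families -/
private def DF {V J Φ : Type} [DecidableEq V] [Fintype J] [Fintype Φ] (D : Dat V J Φ) (C ε Z : ℝ) (k : ℕ)
    (m : J → Finset V) (F : J → ℝ) (S : Finset J) : Finset (J → Finset V) :=
  (Fintype.piFinset fun j => if j ∈ S then D.BX C ε Z k (m j) ∅ (F j) else {∅}).filter fun s =>
    ∀ i j, i ≠ j → Disjoint (s i) (s j)

private theorem mem_DF {V J Φ : Type} [DecidableEq V] [Fintype J] [Fintype Φ] (D : Dat V J Φ) (C ε Z : ℝ) (k : ℕ)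
    (m : J → Finset V) (F : J → ℝ) (S : Finset J) (s : J → Finset V) :
    s ∈ DF D C ε Z k m F S ↔ (∀ j ∈ S, s j ∈ D.BX C ε Z k (m j) ∅ (F j)) ∧ (∀ j, j ∉ S → s j = ∅) ∧
      ∀ i j, i ≠ j → Disjoint (s i) (s j) := by
  classical
  unfold DF
  rw [Finset.mem_filter, Fintype.mem_piFinset]
  constructor
  · rintro ⟨h1, h2⟩
    refine ⟨fun j hj => ?_, fun j hj => ?_, h2⟩
    · have := h1 j
      rwa [if_pos hj] at this
    · have := h1 j
      rw [if_neg hj] at this
      exact Finset.mem_singleton.1 this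
  · rintro ⟨h1, h2, h3⟩
    refine ⟨fun j => ?_, h3⟩
    by_cases hj : j ∈ S
    · rw [if_pos hj]; exact h1 j hj
    · rw [if_neg hj]; exact Finset.mem_singleton.2 (h2 j hj)

private theorem mem_BX {V J Φ : Type} [DecidableEq V] [Fintype J] [Fintype Φ] (D : Dat V J Φ) (C ε Z : ℝ) (k : ℕ)
    (m U : Finset V) (F : ℝ) (s : Finset V) :
    s ∈ D.BX C ε Z k m U F ↔ s ⊆ (D.P (Z ^ (2 * ε)) \ D.P (Z ^ (ε / 4))) \ U ∧
      s.card ≤ k ∧ F < D.NP m * D.NP s ∧ D.NP m * D.NP s ≤ C ^ 3 * F := by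
  unfold Dat.BX
  rw [Finset.mem_filter, Finset.mem_powerset]

private theorem BX_sub {V J Φ : Type} [DecidableEq V] [Fintype J] [Fintype Φ] (D : Dat V J Φ) (C ε Z : ℝ) (k : ℕ)
    (m U : Finset V) (F : ℝ) (s : Finset V) (hs : s ∈ D.BX C ε Z k m U F) :
    s ∈ D.BX C ε Z k m ∅ F ∧ Disjoint s U := by
  rw [mem_BX] at hs ⊢
  refine ⟨⟨fun v hv => ?_, hs.2⟩, ?_⟩
  · have := hs.1 hv
    rw [Finset.mem_sdiff] at this ⊢
    exact ⟨this.1, Finset.notMem_empty v⟩
  · rw [Finset.disjoint_left]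
    intro v hv
    have := hs.1 hv
    rw [Finset.mem_sdiff] at this
    exact this.2

private theorem R_nonneg {V J Φ : Type} [DecidableEq V] [Fintype J] [Fintype Φ] {C θ η A Z : ℝ} {D : Dat V J Φ}
    (h : Hyp C θ η A Z D) (φ : Φ) (j : J) (q : Finset V) : 0 ≤ D.R φ j q :=
  Finset.prod_nonneg fun v _ => h.r_nonneg φ j v

private theorem NP_pos {V J Φ : Type} [DecidableEq V] [Fintype J] [Fintype Φ] {C θ η A Z : ℝ} {D : Dat V J Φ}
    (h : Hyp C θ η A Z D) (q : Finset V) : 0 < D.NP q := by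
  refine Finset.prod_pos fun v _ => ?_
  have := h.two v
  have : (2 : ℝ) ≤ D.nm v := by exact_mod_cast this
  linarith

private theorem one_le_NP {V J Φ : Type} [DecidableEq V] [Fintype J] [Fintype Φ] {C θ η A Z : ℝ} {D : Dat V J Φ}
    (h : Hyp C θ η A Z D) (q : Finset V) : 1 ≤ D.NP q := by
  unfold Dat.NP
  refine Finset.prod_induction (fun v => (D.nm v : ℝ)) (fun x => 1 ≤ x) (fun a b ha hb => ?_) le_rfl
    (fun v _ => ?_)
  · exact one_le_mul_of_one_le_of_one_le ha hb
  · have := h.two v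
    have : (2 : ℝ) ≤ D.nm v := by exact_mod_cast this
    linarith

private theorem nm_le_NP {V J Φ : Type} [DecidableEq V] [Fintype J] [Fintype Φ] {C θ η A Z : ℝ} {D : Dat V J Φ}
    (h : Hyp C θ η A Z D) (q : Finset V) (v : V) (hv : v ∈ q) : (D.nm v : ℝ) ≤ D.NP q := by
  have h1 : D.NP q = (D.nm v : ℝ) * D.NP (q.erase v) := by
    unfold Dat.NP
    rw [Finset.mul_prod_erase q (fun v => (D.nm v : ℝ)) hv]
  rw [h1]
  exact le_mul_of_one_le_right (by positivity) (one_le_NP h _)

private theorem df_sum {V J Φ : Type} [DecidableEq V] [Fintype J] [Fintype Φ] {C θ η A Z ε c : ℝ} {k : ℕ}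
    {D : Dat V J Φ} (hZ : 2 ≤ Z) (hc : 0 < c) (h : Hyp C θ η A Z D) (φ : Φ) (F : J → ℝ)
    (hb : ∀ (j : J) (m U : Finset V), D.NP m ≤ Z ^ (ε / 8) → U.card ≤ Fintype.card J * k →
      c * (F j / Real.log Z) / D.NP m ≤ ∑ s ∈ D.BX C ε Z k m U (F j), D.R φ j s)
    (hF : ∀ j, 0 < F j) (m : J → Finset V) (hm : ∀ j, D.NP (m j) ≤ Z ^ (ε / 8)) (S : Finset J) :
    ∏ j ∈ S, c * (F j / Real.log Z) / D.NP (m j) ≤
      ∑ s ∈ DF D C ε Z k m F S, ∏ j ∈ S, D.R φ j (s j) := by
  classical
  have hlog : 0 < Real.log Z := Real.log_pos (by linarith)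
  have ha : ∀ j, 0 ≤ c * (F j / Real.log Z) / D.NP (m j) := fun j =>
    div_nonneg (mul_nonneg hc.le (div_nonneg (hF j).le hlog.le)) (NP_pos h _).le
  induction S using Finset.induction_on with
  | empty =>
    rw [Finset.prod_empty]
    have h0 : (fun _ : J => (∅ : Finset V)) ∈ DF D C ε Z k m F ∅ := by
      rw [mem_DF]
      exact ⟨fun j hj => absurd hj (Finset.notMem_empty j), fun j _ => rfl, fun i j _ => Finset.disjoint_empty_left _⟩
    calc (1 : ℝ) = ∏ j ∈ (∅ : Finset J), D.R φ j ∅ := by rw [Finset.prod_empty]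
      _ ≤ _ := Finset.single_le_sum (f := fun s : J → Finset V => ∏ j ∈ (∅ : Finset J), D.R φ j (s j))
        (fun s _ => Finset.prod_nonneg fun j _ => R_nonneg h φ j _) h0
  | insert a S haS ih =>
    -- the pairs
    set E : Finset ((J → Finset V) × Finset V) :=
      (DF D C ε Z k m F S).sigma (fun s => D.BX C ε Z k (m a) (S.biUnion s) (F a)) |>.image
        (fun x => (x.1, x.2)) with hE
    have hmemE : ∀ x : (J → Finset V) × Finset V, x ∈ E ↔
        x.1 ∈ DF D C ε Z k m F S ∧ x.2 ∈ D.BX C ε Z k (m a) (S.biUnion x.1) (F a) := by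
      intro x
      rw [hE, Finset.mem_image]
      constructor
      · rintro ⟨y, hy, rfl⟩
        rw [Finset.mem_sigma] at hy
        exact hy
      · intro hx
        exact ⟨⟨x.1, x.2⟩, Finset.mem_sigma.2 hx, rfl⟩
    have hinj : Set.InjOn (fun x : (J → Finset V) × Finset V => Function.update x.1 a x.2) (E : Set _) := by
      intro x hx y hy hxy
      have hx' := (hmemE x).1 (Finset.mem_coe.1 hx)
      have hy' := (hmemE y).1 (Finset.mem_coe.1 hy)
      have hxa : x.1 a = ∅ := ((mem_DF D C ε Z k m F S x.1).1 hx'.1).2.1 a haS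
      have hya : y.1 a = ∅ := ((mem_DF D C ε Z k m F S y.1).1 hy'.1).2.1 a haS
      have h2 : x.2 = y.2 := by
        have := congrFun hxy a
        simpa using this
      have h1 : x.1 = y.1 := by
        funext i
        by_cases hi : i = a
        · rw [hi, hxa, hya]
        · have := congrFun hxy i
          simpa [Function.update_of_ne hi] using this
      exact Prod.ext h1 h2
    have hsub : E.image (fun x : (J → Finset V) × Finset V => Function.update x.1 a x.2) ⊆
        DF D C ε Z k m F (insert a S) := by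
      intro s hs
      rw [Finset.mem_image] at hs
      obtain ⟨x, hx, rfl⟩ := hs
      have hx' := (hmemE x).1 hx
      obtain ⟨h1, h2, h3⟩ := (mem_DF D C ε Z k m F S x.1).1 hx'.1
      obtain ⟨h4, h5⟩ := BX_sub D C ε Z k _ _ _ _ hx'.2
      have hdis : ∀ i, i ≠ a → Disjoint x.2 (x.1 i) := by
        intro i hi
        by_cases hiS : i ∈ S
        · exact h5.mono_right (Finset.subset_biUnion_of_mem x.1 hiS)
        · rw [h2 i hiS]; exact Finset.disjoint_empty_right _
      rw [mem_DF]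
      refine ⟨fun j hj => ?_, fun j hj => ?_, fun i j hij => ?_⟩
      · by_cases hja : j = a
        · subst hja; simpa using h4
        · rw [Function.update_of_ne hja]
          exact h1 j (Finset.mem_of_mem_insert_of_ne hj hja)
      · have hja : j ≠ a := fun e => hj (e ▸ Finset.mem_insert_self a S)
        rw [Function.update_of_ne hja]
        exact h2 j fun hjS => hj (Finset.mem_insert_of_mem hjS)
      · by_cases hia : i = a
        · subst hia
          have hji : j ≠ i := fun e => hij e.symm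
          rw [Function.update_self, Function.update_of_ne hji]
          exact hdis j hji
        · by_cases hja : j = a
          · subst hja
            rw [Function.update_self, Function.update_of_ne hia]
            exact (hdis i hia).symm
          · rw [Function.update_of_ne hia, Function.update_of_ne hja]
            exact h3 i j hij
    have hval : ∀ x ∈ E, ∏ j ∈ insert a S, D.R φ j (Function.update x.1 a x.2 j) =
        D.R φ a x.2 * ∏ j ∈ S, D.R φ j (x.1 j) := by
      intro x _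
      rw [Finset.prod_insert haS, Function.update_self]
      congr 1
      refine Finset.prod_congr rfl fun j hj => ?_
      have hja : j ≠ a := fun e => haS (e ▸ hj)
      rw [Function.update_of_ne hja]
    have hcard : ∀ s ∈ DF D C ε Z k m F S, (S.biUnion s).card ≤ Fintype.card J * k := by
      intro s hs
      obtain ⟨h1, -, -⟩ := (mem_DF D C ε Z k m F S s).1 hs
      calc (S.biUnion s).card ≤ ∑ i ∈ S, (s i).card := Finset.card_biUnion_le
        _ ≤ ∑ i ∈ S, k := Finset.sum_le_sum fun i hi => ((mem_BX D C ε Z k _ _ _ _).1 (h1 i hi)).2.1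
        _ = S.card * k := by rw [Finset.sum_const, smul_eq_mul]
        _ ≤ Fintype.card J * k := Nat.mul_le_mul_right k (Finset.card_le_univ S)
    calc ∏ j ∈ insert a S, c * (F j / Real.log Z) / D.NP (m j)
        = c * (F a / Real.log Z) / D.NP (m a) * ∏ j ∈ S, c * (F j / Real.log Z) / D.NP (m j) :=
          Finset.prod_insert haS
      _ ≤ c * (F a / Real.log Z) / D.NP (m a) * ∑ s ∈ DF D C ε Z k m F S, ∏ j ∈ S, D.R φ j (s j) :=
          mul_le_mul_of_nonneg_left ih (ha a)
      _ = ∑ s ∈ DF D C ε Z k m F S, c * (F a / Real.log Z) / D.NP (m a) * ∏ j ∈ S, D.R φ j (s j) :=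
          Finset.mul_sum _ _ _
      _ ≤ ∑ s ∈ DF D C ε Z k m F S, ∑ t ∈ D.BX C ε Z k (m a) (S.biUnion s) (F a),
            D.R φ a t * ∏ j ∈ S, D.R φ j (s j) := by
          refine Finset.sum_le_sum fun s hs => ?_
          rw [← Finset.sum_mul]
          exact mul_le_mul_of_nonneg_right (hb a (m a) _ (hm a) (hcard s hs))
            (Finset.prod_nonneg fun j _ => R_nonneg h φ j _)
      _ = ∑ x ∈ E, D.R φ a x.2 * ∏ j ∈ S, D.R φ j (x.1 j) := by
          rw [hE, Finset.sum_image, Finset.sum_sigma]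
          rintro ⟨x1, x2⟩ _ ⟨y1, y2⟩ _ hxy
          simp only [Prod.mk.injEq] at hxy
          obtain ⟨rfl, rfl⟩ := hxy
          rfl
      _ = ∑ x ∈ E, ∏ j ∈ insert a S, D.R φ j (Function.update x.1 a x.2 j) :=
          Finset.sum_congr rfl fun x hx => (hval x hx).symm
      _ = ∑ s ∈ E.image (fun x : (J → Finset V) × Finset V => Function.update x.1 a x.2),
            ∏ j ∈ insert a S, D.R φ j (s j) := by
          rw [Finset.sum_image hinj]
      _ ≤ ∑ s ∈ DF D C ε Z k m F (insert a S), ∏ j ∈ insert a S, D.R φ j (s j) :=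
          Finset.sum_le_sum_of_subset_of_nonneg hsub fun s _ _ =>
            Finset.prod_nonneg fun j _ => R_nonneg h φ j _

theorem bxp {V J Φ : Type} [DecidableEq V] [Fintype J] [Fintype Φ] {C θ η A Z ε c : ℝ} {k : ℕ} {D : Dat V J Φ}
    (hC : 2 ≤ C) (hε : 0 < ε) (hZ : 2 ≤ Z) (hc : 0 < c) (h : Hyp C θ η A Z D) (φ : Φ) (F : J → ℝ)
    (hb : ∀ (j : J) (m U : Finset V), D.NP m ≤ Z ^ (ε / 8) → U.card ≤ Fintype.card J * k →
      c * (F j / Real.log Z) / D.NP m ≤ ∑ s ∈ D.BX C ε Z k m U (F j), D.R φ j s)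
    (hF : ∀ j, 0 < F j) (m : J → Finset V) (hm : m ∈ D.Fam (Z ^ (ε / 8))) :
    (∏ j, c * (F j / Real.log Z)) * ∏ j, D.R φ j (m j) / D.NP (m j) ≤
      ∑ q ∈ D.BFm C ε Z m F, ∏ j, D.R φ j (q j) := by
  classical
  unfold Dat.Fam at hm
  rw [Finset.mem_filter, Fintype.mem_piFinset] at hm
  obtain ⟨hm1, hm2, hm3⟩ := hm
  have hm4 : ∀ j, m j ⊆ D.P (Z ^ (ε / 8)) ∧ D.NP (m j) ≤ Z ^ (ε / 8) := by
    intro j
    have := hm1 j
    unfold Dat.SQ Dat.SY at this
    rw [Finset.mem_filter, Finset.mem_powerset] at this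
    exact this
  have hPP : D.P (Z ^ (ε / 8)) ⊆ D.P (Z ^ (ε / 4)) := by
    intro v hv
    rw [h.mem_P] at hv ⊢
    refine hv.trans (Real.rpow_le_rpow_of_exponent_le (by linarith) (by linarith))
  have hds : ∀ (j i : J) (s : J → Finset V), s ∈ DF D C ε Z k m F Finset.univ →
      ∀ v ∈ s i, v ∉ D.P (Z ^ (ε / 8)) := by
    intro j i s hs v hv hv8
    obtain ⟨h1, -, -⟩ := (mem_DF D C ε Z k m F _ s).1 hs
    have h2 := ((mem_BX D C ε Z k _ _ _ _).1 (h1 i (Finset.mem_univ i))).1 hv
    rw [Finset.mem_sdiff, Finset.mem_sdiff] at h2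
    exact h2.1.2 (hPP hv8)
  have hdm : ∀ (i j : J) (s : J → Finset V), s ∈ DF D C ε Z k m F Finset.univ →
      Disjoint (m i) (s j) := by
    intro i j s hs
    rw [Finset.disjoint_left]
    intro v hv hv2
    exact hds i j s hs v hv2 ((hm4 i).1 hv)
  have key := df_sum (C := C) (θ := θ) (η := η) (A := A) (ε := ε) (k := k) hZ hc h φ F hb hF m (fun j => (hm4 j).2) Finset.univ
  have hinj : Set.InjOn (fun (s : J → Finset V) (j : J) => m j ∪ s j) (DF D C ε Z k m F Finset.univ : Set _) := by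
    intro s hs t ht hst
    funext j
    have hst' : m j ∪ s j = m j ∪ t j := congrFun hst j
    have hs1 := hdm j j s (Finset.mem_coe.1 hs)
    have ht1 := hdm j j t (Finset.mem_coe.1 ht)
    calc s j = (m j ∪ s j) \ m j := by
          rw [Finset.union_sdiff_left, Finset.sdiff_eq_self_of_disjoint hs1.symm]
      _ = (m j ∪ t j) \ m j := by rw [hst']
      _ = t j := by rw [Finset.union_sdiff_left, Finset.sdiff_eq_self_of_disjoint ht1.symm]
  have hsub : (DF D C ε Z k m F Finset.univ).image (fun (s : J → Finset V) (j : J) => m j ∪ s j) ⊆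
      D.BFm C ε Z m F := by
    intro q hq
    rw [Finset.mem_image] at hq
    obtain ⟨s, hs, rfl⟩ := hq
    obtain ⟨h1, -, h3⟩ := (mem_DF D C ε Z k m F _ s).1 hs
    have hNP : ∀ j, D.NP (m j ∪ s j) = D.NP (m j) * D.NP (s j) := fun j => by
      unfold Dat.NP
      exact Finset.prod_union (hdm j j s hs)
    have hb1 : ∀ j, F j < D.NP (m j) * D.NP (s j) ∧ D.NP (m j) * D.NP (s j) ≤ C ^ 3 * F j := fun j =>
      ((mem_BX D C ε Z k _ _ _ _).1 (h1 j (Finset.mem_univ j))).2.2
    unfold Dat.BFm Dat.BF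
    rw [Finset.mem_filter, Finset.mem_filter, Fintype.mem_piFinset]
    refine ⟨⟨fun j => ?_, fun i j hij => ?_, fun j => ?_⟩, fun j => ?_⟩
    · unfold Dat.SQ Dat.SY
      rw [Finset.mem_filter, Finset.mem_powerset]
      have h5 : D.NP (m j ∪ s j) ≤ C ^ 3 * F j := by rw [hNP]; exact (hb1 j).2
      refine ⟨fun v hv => ?_, h5⟩
      rw [h.mem_P]
      exact (nm_le_NP h _ v hv).trans h5
    · rw [Finset.disjoint_union_left, Finset.disjoint_union_right, Finset.disjoint_union_right]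
      exact ⟨⟨hm2 i j hij, hdm i j s hs⟩, (hdm j i s hs).symm, h3 i j hij⟩
    · rw [hNP]; exact (hb1 j).1
    · ext v
      rw [Finset.mem_inter, Finset.mem_union]
      constructor
      · rintro ⟨h6 | h6, h7⟩
        · exact h6
        · exact absurd h7 (hds j j s hs v h6)
      · intro h6
        exact ⟨Or.inl h6, (hm4 j).1 h6⟩
  have hRm : 0 ≤ ∏ j, D.R φ j (m j) := Finset.prod_nonneg fun j _ => R_nonneg h φ j _
  calc (∏ j, c * (F j / Real.log Z)) * ∏ j, D.R φ j (m j) / D.NP (m j)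
      = (∏ j, D.R φ j (m j)) * ∏ j, c * (F j / Real.log Z) / D.NP (m j) := by
        rw [← Finset.prod_mul_distrib, ← Finset.prod_mul_distrib]
        refine Finset.prod_congr rfl fun j _ => ?_
        ring
    _ ≤ (∏ j, D.R φ j (m j)) * ∑ s ∈ DF D C ε Z k m F Finset.univ, ∏ j, D.R φ j (s j) :=
        mul_le_mul_of_nonneg_left key hRm
    _ = ∑ s ∈ DF D C ε Z k m F Finset.univ, ∏ j, D.R φ j (m j ∪ s j) := by
        rw [Finset.mul_sum]
        refine Finset.sum_congr rfl fun s hs => ?_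
        rw [← Finset.prod_mul_distrib]
        refine Finset.prod_congr rfl fun j _ => ?_
        unfold Dat.R
        rw [Finset.prod_union (hdm j j s hs)]
    _ = ∑ q ∈ (DF D C ε Z k m F Finset.univ).image (fun (s : J → Finset V) (j : J) => m j ∪ s j),
          ∏ j, D.R φ j (q j) := by
        rw [Finset.sum_image hinj]
    _ ≤ ∑ q ∈ D.BFm C ε Z m F, ∏ j, D.R φ j (q j) :=
        Finset.sum_le_sum_of_subset_of_nonneg hsub fun s _ _ =>
          Finset.prod_nonneg fun j _ => R_nonneg h φ j _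

theorem bxt {V J Φ : Type} [DecidableEq V] [Fintype J] [Fintype Φ] {C θ η A Z ε c : ℝ} {k : ℕ} {D : Dat V J Φ}
    (hC : 2 ≤ C) (hε : 0 < ε) (hZ : 2 ≤ Z) (hc : 0 < c) (h : Hyp C θ η A Z D) (φ : Φ) (F : J → ℝ)
    (hb : ∀ (j : J) (m U : Finset V), D.NP m ≤ Z ^ (ε / 8) → U.card ≤ Fintype.card J * k →
      c * (F j / Real.log Z) / D.NP m ≤ ∑ s ∈ D.BX C ε Z k m U (F j), D.R φ j s)
    (hF : ∀ j, 0 < F j) :
    (∏ j, c * (F j / Real.log Z)) * ∑ m ∈ D.Fam (Z ^ (ε / 8)), ∏ j, D.R φ j (m j) / D.NP (m j) ≤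
      ∑ q ∈ D.BF C F, ∏ j, D.R φ j (q j) := by
  classical
  rw [Finset.mul_sum]
  calc ∑ m ∈ D.Fam (Z ^ (ε / 8)), (∏ j, c * (F j / Real.log Z)) * ∏ j, D.R φ j (m j) / D.NP (m j)
      ≤ ∑ m ∈ D.Fam (Z ^ (ε / 8)), ∑ q ∈ D.BFm C ε Z m F, ∏ j, D.R φ j (q j) :=
        Finset.sum_le_sum fun m hm => bxp hC hε hZ hc h φ F hb hF m hm
    _ = ∑ q ∈ (D.Fam (Z ^ (ε / 8))).biUnion (fun m => D.BFm C ε Z m F), ∏ j, D.R φ j (q j) := by
        rw [Finset.sum_biUnion]
        intro m _ m' _ hmm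
        change Disjoint (D.BFm C ε Z m F) (D.BFm C ε Z m' F)
        rw [Finset.disjoint_left]
        intro q hq hq'
        unfold Dat.BFm at hq hq'
        rw [Finset.mem_filter] at hq hq'
        exact hmm (funext fun j => (hq.2 j).symm.trans (hq'.2 j))
    _ ≤ ∑ q ∈ D.BF C F, ∏ j, D.R φ j (q j) := by
        refine Finset.sum_le_sum_of_subset_of_nonneg ?_ fun s _ _ =>
          Finset.prod_nonneg fun j _ => R_nonneg h φ j _
        intro q hq
        rw [Finset.mem_biUnion] at hq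
        obtain ⟨m, _, hq⟩ := hq
        unfold Dat.BFm at hq
        exact (Finset.mem_filter.1 hq).1

end Pool.Agent.H36.RS
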