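import Mathlib

/-!
# Residues on average (T8, theorem K1): definitions (complete)

Completely abstract. `V` is the set of primes, `nm` the norm, `P x` the finite set of primes of norm at most `x`;
`J` the set of orbits, `Φ` a finite weighted family (weights `w`), `r φ j v` the number of fixed points of the
Frobenius at `v` of `φ` on the orbit `j`, `g j v` its mean over the family, `κ φ j` the residue.
`Hyp C θ η A Z D` collects the hypotheses:
`card_P` (Chebyshev), `che1` (many primes with `g > 0` in every window `(x, C x]`), `che2` (Mertens from below),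
`mean` (means over the family, power saving, for squarefree products of norm at most `Z ^ θ`),
`cnt` (the number of squarefree integral ideals of norm at most `Z ^ A` is at most `C κ Z ^ A`).
RESULT (`End.lean`): `∑ φ, w φ * ∏ j, κ φ j ≥ c ∑ φ, w φ`.
-/

set_option autoImplicit false

noncomputable section

namespace Pool.Agent.H36.RS

/-- the data -/
structure Dat (V J Φ : Type) where
  /-- the norm of a prime -/
  nm : V → ℕ
  /-- the primes of norm at most `x` -/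
  P : ℝ → Finset V
  /-- the number of fixed points of Frobenius -/
  r : Φ → J → V → ℝ
  /-- its mean -/
  g : J → V → ℝ
  /-- the weights -/
  w : Φ → ℝ
  /-- the residues -/
  κ : Φ → J → ℝ

variable {V J Φ : Type} [DecidableEq V] [Fintype J] [Fintype Φ]

namespace Dat

/-- the norm of a squarefree product -/
def NP (D : Dat V J Φ) (q : Finset V) : ℝ := ∏ v ∈ q, (D.nm v : ℝ)

/-- `∏ v ∈ q, r φ j v` -/
def R (D : Dat V J Φ) (φ : Φ) (j : J) (q : Finset V) : ℝ := ∏ v ∈ q, D.r φ j v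

/-- `∏ v ∈ q, g j v` -/
def G (D : Dat V J Φ) (j : J) (q : Finset V) : ℝ := ∏ v ∈ q, D.g j v

/-- the total weight -/
def W (D : Dat V J Φ) : ℝ := ∑ φ, D.w φ

/-- the squarefree products of norm at most `x` with all primes of norm at most `y` -/
def SY (D : Dat V J Φ) (x y : ℝ) : Finset (Finset V) :=
  (D.P y).powerset.filter fun q => D.NP q ≤ x

/-- the squarefree products of norm at most `x` -/
def SQ (D : Dat V J Φ) (x : ℝ) : Finset (Finset V) := D.SY x x

/-- `∑ R q` over the squarefree products of norm at most `x` with all primes of norm at most `y` -/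
def T (D : Dat V J Φ) (φ : Φ) (j : J) (x y : ℝ) : ℝ := ∑ q ∈ D.SY x y, D.R φ j q

/-- `∑ R q / N q` over the squarefree products of norm at most `x` -/
def M (D : Dat V J Φ) (φ : Φ) (j : J) (x : ℝ) : ℝ := ∑ q ∈ D.SQ x, D.R φ j q / D.NP q

/-- the window `(C ^ a, C ^ (a + 1)]` -/
def win (D : Dat V J Φ) (C : ℝ) (a : ℕ) : Finset V := D.P (C ^ (a + 1)) \ D.P (C ^ a)

/-- `φ` has the expected number of fixed points in all windows between `Z ^ ε` and `Z ^ (2 ε)` -/
def Good (D : Dat V J Φ) (C ε Z : ℝ) (φ : Φ) : Prop :=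
  ∀ (j : J) (a : ℕ), Z ^ ε ≤ C ^ a → C ^ a ≤ Z ^ (2 * ε) →
    C ^ a / (2 * C * Real.log (C ^ a)) ≤ ∑ v ∈ D.win C a, D.r φ j v

open scoped Classical in
/-- the families of pairwise disjoint squarefree products with product at most `x` -/
def Fam (D : Dat V J Φ) (x : ℝ) : Finset (J → Finset V) :=
  (Fintype.piFinset fun _ => D.SQ x).filter fun q =>
    (∀ i j, i ≠ j → Disjoint (q i) (q j)) ∧ ∏ j, D.NP (q j) ≤ x

/-- `Good` for the exponents `ε/4, ε/2, ε` -/
def Good3 (D : Dat V J Φ) (C ε Z : ℝ) (φ : Φ) : Prop :=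
  D.Good C (ε / 4) Z φ ∧ D.Good C (ε / 2) Z φ ∧ D.Good C ε Z φ

open scoped Classical in
/-- the exceptional `φ` -/
def Exc (D : Dat V J Φ) (C ε Z : ℝ) : Finset Φ := Finset.univ.filter fun φ => ¬ D.Good3 C ε Z φ

end Dat

/-- the hypotheses -/
structure Hyp (C θ η A Z : ℝ) (D : Dat V J Φ) : Prop where
  mem_P : ∀ x v, v ∈ D.P x ↔ (D.nm v : ℝ) ≤ x
  two : ∀ v, 2 ≤ D.nm v
  card_P : ∀ x : ℝ, 2 ≤ x → ((D.P x).card : ℝ) ≤ C * x / Real.log x
  r_nonneg : ∀ φ j v, 0 ≤ D.r φ j v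
  r_le : ∀ φ j v, D.r φ j v ≤ C
  g_nonneg : ∀ j v, 0 ≤ D.g j v
  g_le : ∀ j v, D.g j v ≤ C
  w_nonneg : ∀ φ, 0 ≤ D.w φ
  κ_nonneg : ∀ φ j, 0 ≤ D.κ φ j
  che1 : ∀ (j : J) (x : ℝ), C ≤ x →
    x / (C * Real.log x) ≤ ∑ v ∈ D.P (C * x) \ D.P x, D.g j v
  che2 : ∀ (j : J) (x : ℝ), 2 ≤ x →
    Real.log (Real.log x) - C ≤ ∑ v ∈ D.P x, D.g j v / (D.nm v : ℝ)
  mean : ∀ q : J → Finset V, (∀ i j, i ≠ j → Disjoint (q i) (q j)) →
    ∏ j, D.NP (q j) ≤ Z ^ θ →
    |∑ φ, D.w φ * ∏ j, D.R φ j (q j) - D.W * ∏ j, D.G j (q j)| ≤ D.W * Z ^ (-η)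
  cnt : ∀ φ j, D.T φ j (Z ^ A) (Z ^ A) ≤ C * D.κ φ j * Z ^ A

/-- the hypotheses on the primes only -/
structure PH (C : ℝ) {V : Type} (nm : V → ℕ) (P : ℝ → Finset V) : Prop where
  mem_P : ∀ x v, v ∈ P x ↔ (nm v : ℝ) ≤ x
  two : ∀ v, 2 ≤ nm v
  card_P : ∀ x : ℝ, 2 ≤ x → ((P x).card : ℝ) ≤ C * x / Real.log x

theorem Hyp.toP {C θ η A Z : ℝ} {D : Dat V J Φ} (h : Hyp C θ η A Z D) : PH C D.nm D.P :=
  ⟨h.mem_P, h.two, h.card_P⟩

end Pool.Agent.H36.RS
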