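import Pool.Agent.H36.RS.Sum

/-!
# Residues on average (T8, K1): the deterministic main term, DTM

`b v := ∑ j, g j v`, `0 ≤ b v ≤ m C`. For `y = Z ^ ε''`, `ε'' ≤ ε` small:
`∑_{s ∈ SQ (Z ^ ε)} ∏ b/nm ≥ ∑_{s ⊂ P y} - ∑_{s ⊂ P y, NP s > Z ^ ε}`. The full sum is
`Π := ∏_{v ∈ P y} (1 + b v / nm v) ≥ exp (∑ b/nm - ∑ (b/nm)^2) ≥ c (log y) ^ m` (`che2` for every `j`, `sum_sq`; `1 + t ≥ exp (t - t^2)`
for `t ≥ 0`). RANKIN with `σ = 1 / log y` times `L` (`L` a large constant): the tail is at most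
`Z ^ (-ε σ) ∏ (1 + b nm^σ / nm) ≤ Z ^ (-ε σ) Π exp (∑_{v ∈ P y} b (nm^σ - 1) / nm)`, `nm^σ - 1 ≤ σ log nm exp L` (as `nm ≤ y`), so with
`sum_log` the last exponent is at most `m C L exp L K`, and `Z ^ (-ε σ) = exp (- ε L / ε'')`: take `L = 1` and `ε''` small; the ratio
is at most `1/2`.
-/

set_option autoImplicit false

noncomputable section

namespace Pool.Agent.H36.RS

private theorem exp_le (t : ℝ) (ht : 0 ≤ t) : Real.exp (t - t ^ 2) ≤ 1 + t := by
  have h1 : 0 < 1 - (t - t ^ 2) := by nlinarith [sq_nonneg (t - 1 / 2)]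
  have h2 : 1 - (t - t ^ 2) ≤ Real.exp (-(t - t ^ 2)) := by
    have := Real.add_one_le_exp (-(t - t ^ 2))
    linarith
  rw [Real.exp_neg] at h2
  have h3 : 0 < Real.exp (t - t ^ 2) := Real.exp_pos _
  have h4 : (1 - (t - t ^ 2)) * Real.exp (t - t ^ 2) ≤ 1 := by
    have h5 := mul_le_mul_of_nonneg_right h2 h3.le
    rwa [inv_mul_cancel₀ h3.ne'] at h5
  have h6 : 1 ≤ (1 - (t - t ^ 2)) * (1 + t) := by
    have : (1 - (t - t ^ 2)) * (1 + t) = 1 + t ^ 3 := by ring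
    rw [this]
    have : 0 ≤ t ^ 3 := by positivity
    linarith
  exact le_of_mul_le_mul_left (h4.trans h6) h1

private theorem exp_sub (t : ℝ) (_ht : 0 ≤ t) : Real.exp t - 1 ≤ t * Real.exp t := by
  have h1 : 1 - t ≤ Real.exp (-t) := by
    have := Real.add_one_le_exp (-t)
    linarith
  rw [Real.exp_neg] at h1
  have h3 : 0 < Real.exp t := Real.exp_pos _
  have h5 := mul_le_mul_of_nonneg_right h1 h3.le
  rw [inv_mul_cancel₀ h3.ne'] at h5
  linarith

private theorem rankin {V : Type} [DecidableEq V] (P : Finset V) (nm : V → ℕ) (_hn : ∀ v, 2 ≤ nm v)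
    (x : V → ℝ) (hx : ∀ v, 0 ≤ x v) (X σ : ℝ) (hX : 1 ≤ X) (hσ : 0 < σ) :
    ∑ s ∈ P.powerset.filter (fun s => ¬ (∏ v ∈ s, (nm v : ℝ)) ≤ X), ∏ v ∈ s, x v ≤
      X ^ (-σ) * ∏ v ∈ P, (1 + x v * (nm v : ℝ) ^ σ) := by
  have hX0 : 0 < X := by linarith
  rw [Finset.prod_one_add, Finset.mul_sum]
  refine le_trans (Finset.sum_le_sum (g := fun s => X ^ (-σ) * ∏ v ∈ s, (x v * (nm v : ℝ) ^ σ)) ?_) ?_
  · intro s hs
    have h1 : X < ∏ v ∈ s, (nm v : ℝ) := not_le.1 (Finset.mem_filter.1 hs).2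
    have h2 : 0 ≤ ∏ v ∈ s, x v := Finset.prod_nonneg (fun v _ => hx v)
    show _ ≤ X ^ (-σ) * ∏ v ∈ s, (x v * (nm v : ℝ) ^ σ)
    rw [Finset.prod_mul_distrib, Real.finsetProd_rpow s (fun v => (nm v : ℝ)) (fun v _ => Nat.cast_nonneg _) σ]
    have h3 : 1 ≤ X ^ (-σ) * (∏ v ∈ s, (nm v : ℝ)) ^ σ := by
      have h4 : X ^ σ ≤ (∏ v ∈ s, (nm v : ℝ)) ^ σ := Real.rpow_le_rpow hX0.le h1.le hσ.le
      have h5 : X ^ (-σ) * X ^ σ = 1 := by
        rw [← Real.rpow_add hX0, neg_add_cancel, Real.rpow_zero]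
      calc (1 : ℝ) = X ^ (-σ) * X ^ σ := h5.symm
        _ ≤ _ := mul_le_mul_of_nonneg_left h4 (Real.rpow_nonneg hX0.le _)
    calc ∏ v ∈ s, x v = (∏ v ∈ s, x v) * 1 := (mul_one _).symm
      _ ≤ (∏ v ∈ s, x v) * (X ^ (-σ) * (∏ v ∈ s, (nm v : ℝ)) ^ σ) := mul_le_mul_of_nonneg_left h3 h2
      _ = _ := by ring
  · refine Finset.sum_le_sum_of_subset_of_nonneg (Finset.filter_subset _ _) ?_
    intro s _ _
    refine mul_nonneg (Real.rpow_nonneg hX0.le _) (Finset.prod_nonneg (fun v _ => ?_))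
    exact mul_nonneg (hx v) (Real.rpow_nonneg (Nat.cast_nonneg _) _)

private theorem step (x n σ : ℝ) (hx : 0 ≤ x) (hn : 2 ≤ n) (hσ : 0 < σ) (hn1 : σ * Real.log n ≤ 1) :
    1 + x * n ^ σ ≤ (1 + x) * Real.exp (x * (σ * Real.log n * Real.exp 1)) := by
  have hlog : 0 ≤ Real.log n := Real.log_nonneg (by linarith)
  have h1 : n ^ σ = Real.exp (σ * Real.log n) := by
    rw [Real.rpow_def_of_pos (by linarith), mul_comm]
  have h2 := exp_sub (σ * Real.log n) (mul_nonneg hσ.le hlog)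
  have h3 : Real.exp (σ * Real.log n) ≤ Real.exp 1 := Real.exp_le_exp.2 hn1
  have h4 : n ^ σ - 1 ≤ σ * Real.log n * Real.exp 1 := by
    rw [h1]
    exact h2.trans (mul_le_mul_of_nonneg_left h3 (mul_nonneg hσ.le hlog))
  set u := σ * Real.log n * Real.exp 1 with hu
  have hu0 : 0 ≤ u := by positivity
  have h5 : 1 + x * u ≤ Real.exp (x * u) := by
    have := Real.add_one_le_exp (x * u)
    linarith
  have h6 : 1 + x * n ^ σ ≤ 1 + x + x * u := by nlinarith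
  have h7 : 1 + x + x * u ≤ (1 + x) * (1 + x * u) := by
    have : 0 ≤ x * (x * u) := by positivity
    nlinarith
  exact h6.trans (h7.trans (mul_le_mul_of_nonneg_left h5 (by linarith)))

theorem dtm (C ε : ℝ) (m : ℕ) (hC : 2 ≤ C) (hε : 0 < ε) :
    ∃ c Z0 : ℝ, 0 < c ∧ 2 ≤ Z0 ∧
      ∀ (V J Φ : Type) [DecidableEq V] [Fintype J] [Fintype Φ] (D : Dat V J Φ) (θ η A Z : ℝ),
        Z0 ≤ Z → Fintype.card J = m → Hyp C θ η A Z D →
          c * Real.log Z ^ m ≤ ∑ s ∈ D.SQ (Z ^ ε), ∏ v ∈ s, (∑ j, D.g j v) / (D.nm v : ℝ) := by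
  obtain ⟨K, hK1, hK⟩ := sum_log C hC
  obtain ⟨K2, hK21, hK2⟩ := sum_sq C hC
  set B : ℝ := m * C with hB
  have hB0 : 0 ≤ B := by positivity
  set Q : ℝ := B * Real.exp 1 * K + 1 with hQ
  have hQ1 : 1 ≤ Q := by
    have : 0 ≤ B * Real.exp 1 * K := by positivity
    linarith
  set e : ℝ := ε / Q with he
  have he0 : 0 < e := by positivity
  have hee : e ≤ ε := div_le_self hε.le hQ1
  have heQ : ε / e = Q := by
    rw [he]
    field_simp
  refine ⟨1 / 2 * (e ^ m * Real.exp (-(B + B ^ 2 * K2))), max 2 (2 ^ (1 / e)), by positivity, le_max_left _ _, ?_⟩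
  intro V J Φ _ _ _ D θ η A Z hZ hm h
  have hZ2 : 2 ≤ Z := (le_max_left _ _).trans hZ
  have hZ0 : 0 < Z := by linarith
  have hZe : (2 : ℝ) ^ (1 / e) ≤ Z := (le_max_right _ _).trans hZ
  set y : ℝ := Z ^ e with hy
  have hy2 : 2 ≤ y := by
    have h1 := Real.rpow_le_rpow (by positivity) hZe he0.le
    rw [← Real.rpow_mul (by norm_num), one_div, inv_mul_cancel₀ he0.ne', Real.rpow_one] at h1
    exact h1
  have hyX : y ≤ Z ^ ε := Real.rpow_le_rpow_of_exponent_le (by linarith) hee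
  have hX1 : 1 ≤ Z ^ ε := by linarith
  have hlogy : Real.log y = e * Real.log Z := Real.log_rpow hZ0 e
  have hlogZ : 0 < Real.log Z := Real.log_pos (by linarith)
  have hly : 0 < Real.log y := by rw [hlogy]; positivity
  set σ : ℝ := 1 / Real.log y with hσ
  have hσ0 : 0 < σ := by positivity
  set x : V → ℝ := fun v => (∑ j, D.g j v) / (D.nm v : ℝ) with hx
  have hnm : ∀ v, (2 : ℝ) ≤ D.nm v := fun v => by exact_mod_cast h.two v
  have hb0 : ∀ v, 0 ≤ ∑ j, D.g j v := fun v => Finset.sum_nonneg (fun j _ => h.g_nonneg j v)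
  have hbB : ∀ v, ∑ j, D.g j v ≤ B := by
    intro v
    refine (Finset.sum_le_sum (fun j _ => h.g_le j v)).trans ?_
    rw [Finset.sum_const, Finset.card_univ, hm, nsmul_eq_mul]
  have hx0 : ∀ v, 0 ≤ x v := fun v => div_nonneg (hb0 v) (Nat.cast_nonneg _)
  -- the full sum
  have hfull : ∑ s ∈ (D.P y).powerset, ∏ v ∈ s, x v = ∏ v ∈ D.P y, (1 + x v) := (Finset.prod_one_add _).symm
  have hsplit := Finset.sum_filter_add_sum_filter_not (D.P y).powerset
    (fun s => (∏ v ∈ s, (D.nm v : ℝ)) ≤ Z ^ ε) (fun s => ∏ v ∈ s, x v)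
  have hsub : ∑ s ∈ (D.P y).powerset.filter (fun s => (∏ v ∈ s, (D.nm v : ℝ)) ≤ Z ^ ε), ∏ v ∈ s, x v ≤
      ∑ s ∈ D.SQ (Z ^ ε), ∏ v ∈ s, x v := by
    refine Finset.sum_le_sum_of_subset_of_nonneg ?_ (fun s _ _ => Finset.prod_nonneg (fun v _ => hx0 v))
    intro s hs
    rw [Finset.mem_filter, Finset.mem_powerset] at hs
    unfold Dat.SQ Dat.SY
    rw [Finset.mem_filter, Finset.mem_powerset]
    refine ⟨fun v hv => ?_, hs.2⟩
    rw [h.mem_P]
    exact ((h.mem_P _ _).1 (hs.1 hv)).trans hyX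
  have htail := rankin (D.P y) D.nm h.two x hx0 (Z ^ ε) σ hX1 hσ0
  have hprod : ∏ v ∈ D.P y, (1 + x v * (D.nm v : ℝ) ^ σ) ≤
      (∏ v ∈ D.P y, (1 + x v)) * Real.exp (B * Real.exp 1 * K) := by
    have h1 : ∏ v ∈ D.P y, (1 + x v * (D.nm v : ℝ) ^ σ) ≤
        ∏ v ∈ D.P y, ((1 + x v) * Real.exp (x v * (σ * Real.log (D.nm v) * Real.exp 1))) := by
      refine Finset.prod_le_prod ?_ ?_
      · intro v _
        have := mul_nonneg (hx0 v) (Real.rpow_nonneg (Nat.cast_nonneg (D.nm v)) σ)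
        linarith
      · intro v hv
        refine step (x v) (D.nm v) σ (hx0 v) (hnm v) hσ0 ?_
        have h2 : (D.nm v : ℝ) ≤ y := (h.mem_P _ _).1 hv
        have h3 : Real.log (D.nm v) ≤ Real.log y := Real.log_le_log (by linarith [hnm v]) h2
        rw [hσ, one_div, inv_mul_eq_div, div_le_one hly]
        exact h3
    refine h1.trans ?_
    rw [Finset.prod_mul_distrib, ← Real.exp_sum]
    refine mul_le_mul_of_nonneg_left (Real.exp_le_exp.2 ?_) (Finset.prod_nonneg (fun v _ => by linarith [hx0 v]))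
    have h4 : ∀ v ∈ D.P y, x v * (σ * Real.log (D.nm v) * Real.exp 1) ≤
        (B * σ * Real.exp 1) * (Real.log (D.nm v) / (D.nm v : ℝ)) := by
      intro v _
      have h5 : x v ≤ B / (D.nm v : ℝ) := div_le_div_of_nonneg_right (hbB v) (Nat.cast_nonneg _)
      have h6 : 0 ≤ Real.log (D.nm v) := Real.log_nonneg (by linarith [hnm v])
      have h7 : 0 ≤ σ * Real.log (D.nm v) * Real.exp 1 := by positivity
      calc x v * (σ * Real.log (D.nm v) * Real.exp 1) ≤ B / (D.nm v : ℝ) * (σ * Real.log (D.nm v) * Real.exp 1) :=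
            mul_le_mul_of_nonneg_right h5 h7
        _ = _ := by ring
    refine (Finset.sum_le_sum h4).trans ?_
    rw [← Finset.mul_sum]
    have h8 := hK V D.nm D.P h.toP y hy2
    have h9 : (B * σ * Real.exp 1) * ∑ v ∈ D.P y, Real.log (D.nm v) / (D.nm v : ℝ) ≤
        (B * σ * Real.exp 1) * (K * Real.log y) := mul_le_mul_of_nonneg_left h8 (by positivity)
    refine h9.trans (le_of_eq ?_)
    have h10 : σ * Real.log y = 1 := by rw [hσ, one_div, inv_mul_cancel₀ hly.ne']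
    calc B * σ * Real.exp 1 * (K * Real.log y) = (σ * Real.log y) * (B * Real.exp 1 * K) := by ring
      _ = _ := by rw [h10, one_mul]
  have hXσ : (Z ^ ε) ^ (-σ) = Real.exp (-Q) := by
    rw [← Real.rpow_mul hZ0.le, Real.rpow_def_of_pos hZ0]
    congr 1
    rw [hσ, hlogy, ← heQ]
    field_simp
  set Pi : ℝ := ∏ v ∈ D.P y, (1 + x v) with hPi
  have hPi0 : 0 ≤ Pi := Finset.prod_nonneg (fun v _ => by linarith [hx0 v])
  have htail2 : ∑ s ∈ (D.P y).powerset.filter (fun s => ¬ (∏ v ∈ s, (D.nm v : ℝ)) ≤ Z ^ ε), ∏ v ∈ s, x v ≤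
      Pi / 2 := by
    refine htail.trans ?_
    rw [hXσ]
    have h1 : Real.exp (-Q) * ∏ v ∈ D.P y, (1 + x v * (D.nm v : ℝ) ^ σ) ≤
        Real.exp (-Q) * (Pi * Real.exp (B * Real.exp 1 * K)) :=
      mul_le_mul_of_nonneg_left hprod (Real.exp_pos _).le
    refine h1.trans ?_
    have h2 : Real.exp (-Q) * (Pi * Real.exp (B * Real.exp 1 * K)) = Pi * Real.exp (-1) := by
      have h3 : Real.exp (-Q) * Real.exp (B * Real.exp 1 * K) = Real.exp (-1) := by
        rw [← Real.exp_add]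
        congr 1
        rw [hQ]
        ring
      calc _ = Pi * (Real.exp (-Q) * Real.exp (B * Real.exp 1 * K)) := by ring
        _ = _ := by rw [h3]
    rw [h2]
    have h4 : Real.exp (-1) ≤ 1 / 2 := by
      rw [Real.exp_neg, one_div]
      refine inv_anti₀ (by norm_num) ?_
      have := Real.add_one_le_exp (1 : ℝ)
      linarith
    nlinarith
  have hge : Pi / 2 ≤ ∑ s ∈ D.SQ (Z ^ ε), ∏ v ∈ s, x v := by
    rw [hfull] at hsplit
    linarith
  refine le_trans ?_ hge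
  -- lower bound for the product
  have hPi1 : Real.exp (∑ v ∈ D.P y, (x v - x v ^ 2)) ≤ Pi := by
    rw [Real.exp_sum]
    exact Finset.prod_le_prod (fun v _ => (Real.exp_pos _).le) (fun v _ => exp_le (x v) (hx0 v))
  have hsum1 : (m : ℝ) * (Real.log (Real.log y) - C) ≤ ∑ v ∈ D.P y, x v := by
    have h1 : ∑ v ∈ D.P y, x v = ∑ j, ∑ v ∈ D.P y, D.g j v / (D.nm v : ℝ) := by
      rw [Finset.sum_comm]
      refine Finset.sum_congr rfl (fun v _ => ?_)
      show (∑ j, D.g j v) / (D.nm v : ℝ) = _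
      rw [Finset.sum_div]
    rw [h1]
    refine le_trans (le_of_eq ?_) (Finset.sum_le_sum (fun j _ => h.che2 j y hy2))
    rw [Finset.sum_const, Finset.card_univ, hm, nsmul_eq_mul]
  have hsum2 : ∑ v ∈ D.P y, x v ^ 2 ≤ B ^ 2 * K2 := by
    have h1 : ∀ v ∈ D.P y, x v ^ 2 ≤ B ^ 2 * (1 / (D.nm v : ℝ) ^ 2) := by
      intro v _
      have h5 : x v ≤ B / (D.nm v : ℝ) := div_le_div_of_nonneg_right (hbB v) (Nat.cast_nonneg _)
      have h6 : x v ^ 2 ≤ (B / (D.nm v : ℝ)) ^ 2 := pow_le_pow_left₀ (hx0 v) h5 2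
      refine h6.trans (le_of_eq ?_)
      rw [div_pow]
      ring
    refine (Finset.sum_le_sum h1).trans ?_
    rw [← Finset.mul_sum]
    exact mul_le_mul_of_nonneg_left (hK2 V D.nm D.P h.toP y) (by positivity)
  have hexp : Real.log y ^ m * Real.exp (-(B + B ^ 2 * K2)) ≤ Pi := by
    refine le_trans ?_ hPi1
    have h1 : Real.log y ^ m = Real.exp (m * Real.log (Real.log y)) := by
      rw [Real.exp_nat_mul, Real.exp_log hly]
    rw [h1, ← Real.exp_add]
    refine Real.exp_le_exp.2 ?_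
    rw [Finset.sum_sub_distrib]
    have h2 : (m : ℝ) * (Real.log (Real.log y) - C) = m * Real.log (Real.log y) - B := by
      rw [hB]; ring
    rw [h2] at hsum1
    linarith
  have hfin : 1 / 2 * (e ^ m * Real.exp (-(B + B ^ 2 * K2))) * Real.log Z ^ m =
      (Real.log y ^ m * Real.exp (-(B + B ^ 2 * K2))) / 2 := by
    rw [hlogy, mul_pow]
    ring
  rw [hfin]
  linarith

end Pool.Agent.H36.RS
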