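import Pool.Agent.H36.RS.Bxm
import Pool.Agent.H36.RS.Bxp

/-!
# Residues on average (T8, K1), box form: THE RESULT `rbox`

`ε := min (θ / 5) (min (a / 4) 1)`. As in `res` (End.lean): `∑_φ w ∑_{m ∈ Fam x} ∏ R / NP ≥ 2 c₂ W (log Z) ^ n` with `x = Z ^ (ε/8)` (this is
the middle part of the proof of `mmn`: `key`, `e1`, `e2`, `e3`), the exceptional `φ` contribute at most
`∑_{Exc} w ∏ M ≤ W Z ^ (-η') ... ≤ c₂ W` (`var`, `M_le`, `fam_upper`), and for the good `φ` use `bxm` + `bxt`: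
`∑_{q ∈ BF} ∏ R ≥ (∏ c F j / log Z) ∑_{m ∈ Fam} ∏ R / NP`; the powers of `log Z` cancel. For `J` empty everything is `1`.
-/

set_option autoImplicit false

noncomputable section

namespace Pool.Agent.H36.RS

private theorem ev (a b p η δ : ℝ) (ha : 0 ≤ a) (hb : 0 ≤ b) (hp : 0 ≤ p) (hη : 0 < η)
    (hδ : 0 < δ) : ∃ Z1 : ℝ, 3 ≤ Z1 ∧ ∀ Z, Z1 ≤ Z →
      Z ^ (-η) * (a * (1 + b * Real.log Z)) ^ p ≤ δ := by
  have h := isLittleO_log_rpow_rpow_atTop p hη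
  have hK : 0 ≤ (a * (1 + b)) ^ p := by positivity
  have hc : 0 < δ / ((a * (1 + b)) ^ p + 1) := by positivity
  obtain ⟨Z2, hZ2⟩ := Filter.eventually_atTop.mp (h.def hc)
  refine ⟨max 3 Z2, le_max_left _ _, fun Z hZ => ?_⟩
  have h3 : 3 ≤ Z := le_trans (le_max_left _ _) hZ
  have hl : 1 ≤ Real.log Z := by
    rw [Real.le_log_iff_exp_le (by linarith)]
    exact le_trans (by linarith [Real.exp_one_lt_d9]) h3
  have h4 := hZ2 Z (le_trans (le_max_right _ _) hZ)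
  have hZ0 : 0 < Z := by linarith
  have hl0 : 0 ≤ Real.log Z := by linarith
  rw [Real.norm_of_nonneg (by positivity), Real.norm_of_nonneg (by positivity)] at h4
  have h5 : (a * (1 + b * Real.log Z)) ^ p ≤ (a * (1 + b)) ^ p * Real.log Z ^ p := by
    rw [← Real.mul_rpow (by positivity) hl0]
    apply Real.rpow_le_rpow (by positivity) _ hp
    nlinarith [mul_nonneg ha hb]
  have hZp : 0 < Z ^ (-η) := Real.rpow_pos_of_pos hZ0 _
  have hZm : Z ^ (-η) * Z ^ η = 1 := by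
    rw [← Real.rpow_add hZ0]; simp
  calc Z ^ (-η) * (a * (1 + b * Real.log Z)) ^ p
      ≤ Z ^ (-η) * ((a * (1 + b)) ^ p * Real.log Z ^ p) :=
        mul_le_mul_of_nonneg_left h5 hZp.le
    _ ≤ Z ^ (-η) * ((a * (1 + b)) ^ p * (δ / ((a * (1 + b)) ^ p + 1) * Z ^ η)) := by
        gcongr
    _ = (a * (1 + b)) ^ p * (δ / ((a * (1 + b)) ^ p + 1)) * (Z ^ (-η) * Z ^ η) := by ring
    _ = (a * (1 + b)) ^ p * (δ / ((a * (1 + b)) ^ p + 1)) := by rw [hZm, mul_one]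
    _ ≤ δ := by
        rw [mul_div_assoc', div_le_iff₀ (by positivity)]
        nlinarith

private theorem NP_nonneg {V J Φ : Type} [DecidableEq V] [Fintype J] [Fintype Φ]
    (D : Dat V J Φ) (q : Finset V) : 0 ≤ D.NP q :=
  Finset.prod_nonneg fun _ _ => Nat.cast_nonneg _

private theorem W_nonneg {V J Φ : Type} [DecidableEq V] [Fintype J] [Fintype Φ]
    {C θ η A Z : ℝ} {D : Dat V J Φ} (h : Hyp C θ η A Z D) : 0 ≤ D.W :=
  Finset.sum_nonneg fun φ _ => h.w_nonneg φ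

private theorem R_nonneg {V J Φ : Type} [DecidableEq V] [Fintype J] [Fintype Φ]
    {C θ η A Z : ℝ} {D : Dat V J Φ} (h : Hyp C θ η A Z D) (φ : Φ) (j : J) (q : Finset V) :
    0 ≤ D.R φ j q :=
  Finset.prod_nonneg fun v _ => h.r_nonneg φ j v

private theorem M_nonneg {V J Φ : Type} [DecidableEq V] [Fintype J] [Fintype Φ]
    {C θ η A Z : ℝ} {D : Dat V J Φ} (h : Hyp C θ η A Z D) (φ : Φ) (j : J) (x : ℝ) :
    0 ≤ D.M φ j x :=
  Finset.sum_nonneg fun q _ => div_nonneg (R_nonneg h φ j q) (NP_nonneg D q)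

private theorem mfm (C θ η ε : ℝ) (m : ℕ) (hC : 2 ≤ C) (hη : 0 < η) (hε : 0 < ε) (hθ : ε ≤ θ) :
    ∃ c Z0 : ℝ, 0 < c ∧ 2 ≤ Z0 ∧
      ∀ (V J Φ : Type) [DecidableEq V] [Fintype J] [Fintype Φ] (D : Dat V J Φ) (A Z : ℝ),
        Z0 ≤ Z → Fintype.card J = m → Hyp C θ η A Z D →
          c * D.W * Real.log Z ^ m ≤ ∑ φ, D.w φ * ∑ q ∈ D.Fam (Z ^ ε), ∏ j, D.R φ j (q j) / D.NP (q j) := by
  obtain ⟨c, Z1, hc, hZ1, hd⟩ := dtm C ε m hC hε
  obtain ⟨K, hK, hf⟩ := fam_le C m hC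
  obtain ⟨Z2, hZ2, he⟩ := ev K ε K η (c / 2) (by linarith) hε.le (by linarith) hη (by linarith)
  obtain ⟨Z3, hZ3⟩ : ∃ Z3 : ℝ, ∀ Z, Z3 ≤ Z → 2 ≤ Z ^ ε := by
    have := (tendsto_rpow_atTop hε).eventually_ge_atTop 2
    exact Filter.eventually_atTop.mp this
  refine ⟨c / 2, max (max Z1 Z2) Z3, by linarith,
    le_trans hZ1 (le_trans (le_max_left _ _) (le_max_left _ _)), ?_⟩
  intro V J Φ _ _ _ D A Z hZ hJ h
  have h1 : Z1 ≤ Z := le_trans (le_trans (le_max_left _ _) (le_max_left _ _)) hZ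
  have h2 : Z2 ≤ Z := le_trans (le_trans (le_max_right _ _) (le_max_left _ _)) hZ
  have h3 : Z3 ≤ Z := le_trans (le_max_right _ _) hZ
  have hZ0 : 3 ≤ Z := le_trans hZ2 h2
  have hl : 1 ≤ Real.log Z := by
    rw [Real.le_log_iff_exp_le (by linarith)]
    exact le_trans (by linarith [Real.exp_one_lt_d9]) hZ0
  have hx := hZ3 Z h3
  have hD := hd V J Φ D θ η A Z h1 hJ h
  have hF := hf V J Φ D θ η A Z hJ h (Z ^ ε) hx
  have hE := he Z h2
  rw [Real.log_rpow (by linarith)] at hF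
  set x := Z ^ ε with hxd
  have hW := W_nonneg h
  have hxθ : x ≤ Z ^ θ := Real.rpow_le_rpow_of_exponent_le (by linarith) hθ
  have key : ∑ q ∈ D.Fam x, (D.W * ∏ j, D.G j (q j) - D.W * Z ^ (-η)) * ∏ j, 1 / D.NP (q j)
      ≤ ∑ φ, D.w φ * ∑ q ∈ D.Fam x, ∏ j, D.R φ j (q j) / D.NP (q j) := by
    calc ∑ q ∈ D.Fam x, (D.W * ∏ j, D.G j (q j) - D.W * Z ^ (-η)) * ∏ j, 1 / D.NP (q j)
        ≤ ∑ q ∈ D.Fam x, (∑ φ, D.w φ * ∏ j, D.R φ j (q j)) * ∏ j, 1 / D.NP (q j) := by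
          apply Finset.sum_le_sum
          intro q hq
          obtain ⟨hdis, hprod⟩ := fam_spec hq
          have hm := h.mean q hdis (le_trans hprod hxθ)
          have hm2 := (abs_le.mp hm).1
          apply mul_le_mul_of_nonneg_right
          · linarith
          · exact Finset.prod_nonneg fun j _ =>
              div_nonneg zero_le_one (NP_nonneg D _)
      _ = ∑ φ, D.w φ * ∑ q ∈ D.Fam x, ∏ j, D.R φ j (q j) / D.NP (q j) := by
          simp_rw [Finset.sum_mul, Finset.mul_sum]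
          rw [Finset.sum_comm]
          apply Finset.sum_congr rfl
          intro φ _
          apply Finset.sum_congr rfl
          intro q _
          rw [mul_assoc, ← Finset.prod_mul_distrib]
          congr 1
          apply Finset.prod_congr rfl
          intro j _
          rw [mul_one_div]
  refine le_trans ?_ key
  have e1 : ∑ q ∈ D.Fam x, (D.W * ∏ j, D.G j (q j) - D.W * Z ^ (-η)) * ∏ j, 1 / D.NP (q j)
      = D.W * (∑ q ∈ D.Fam x, ∏ j, D.G j (q j) / D.NP (q j)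
        - Z ^ (-η) * ∑ q ∈ D.Fam x, ∏ j, 1 / D.NP (q j)) := by
    rw [mul_sub, Finset.mul_sum, Finset.mul_sum, Finset.mul_sum, ← Finset.sum_sub_distrib]
    apply Finset.sum_congr rfl
    intro q _
    have : ∏ j, D.G j (q j) / D.NP (q j) = (∏ j, D.G j (q j)) * ∏ j, 1 / D.NP (q j) := by
      rw [← Finset.prod_mul_distrib]
      apply Finset.prod_congr rfl
      intro j _
      rw [mul_one_div]
    rw [this]
    ring
  rw [e1]
  have hfl := fam_lower h x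
  have hZp : 0 < Z ^ (-η) := Real.rpow_pos_of_pos (by linarith) _
  have e2 : Z ^ (-η) * ∑ q ∈ D.Fam x, ∏ j, 1 / D.NP (q j) ≤ c / 2 * Real.log Z ^ m := by
    calc Z ^ (-η) * ∑ q ∈ D.Fam x, ∏ j, 1 / D.NP (q j)
        ≤ Z ^ (-η) * (K * (1 + ε * Real.log Z)) ^ K := mul_le_mul_of_nonneg_left hF hZp.le
      _ ≤ c / 2 := hE
      _ = c / 2 * 1 := by ring
      _ ≤ c / 2 * Real.log Z ^ m :=
          mul_le_mul_of_nonneg_left (one_le_pow₀ hl) (by linarith)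
  have e3 : c / 2 * Real.log Z ^ m ≤ ∑ q ∈ D.Fam x, ∏ j, D.G j (q j) / D.NP (q j)
        - Z ^ (-η) * ∑ q ∈ D.Fam x, ∏ j, 1 / D.NP (q j) := by
    have := le_trans hD hfl
    linarith
  calc c / 2 * D.W * Real.log Z ^ m = D.W * (c / 2 * Real.log Z ^ m) := by ring
    _ ≤ _ := mul_le_mul_of_nonneg_left e3 hW

theorem rbox (C θ η a b : ℝ) (n : ℕ) (hC : 2 ≤ C) (hθ : 0 < θ) (hη : 0 < η) (ha : 0 < a) (hab : a ≤ b) :
    ∃ c Z0 : ℝ, 0 < c ∧ 2 ≤ Z0 ∧
      ∀ (V J Φ : Type) [DecidableEq V] [Fintype J] [Fintype Φ] (D : Dat V J Φ) (A Z : ℝ),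
        Z0 ≤ Z → Fintype.card J = n → Hyp C θ η A Z D → ∀ F : J → ℝ, (∀ j, Z ^ a ≤ F j) → (∀ j, F j ≤ Z ^ b) →
          c * (∑ φ, D.w φ) * ∏ j, F j ≤ ∑ φ, D.w φ * ∑ q ∈ D.BF C F, ∏ j, D.R φ j (q j) := by
  obtain ⟨ε, hεd⟩ : ∃ ε, ε = min (θ / 5) (min (a / 4) 1) := ⟨_, rfl⟩
  have hε : 0 < ε := by
    rw [hεd]
    exact lt_min (by linarith) (lt_min (by linarith) one_pos)
  have hε5 : 5 * ε ≤ θ := by
    have : ε ≤ θ / 5 := by rw [hεd]; exact min_le_left _ _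
    linarith
  have hε4 : 4 * ε ≤ a := by
    have : ε ≤ a / 4 := by rw [hεd]; exact (min_le_right _ _).trans (min_le_left _ _)
    linarith
  have hε1 : ε ≤ 1 := by rw [hεd]; exact (min_le_right _ _).trans (min_le_right _ _)
  have hb0 : 0 < b := by linarith
  obtain ⟨k1, hk1d⟩ : ∃ k1 : ℕ, k1 = ⌈4 * (b + 1) / ε⌉₊ := ⟨_, rfl⟩
  obtain ⟨c1, Z1, k, hc1, hZ1, hbx⟩ := bxm C θ ε a b (n * k1) hC hε hε1 hε4 hab
  obtain ⟨c2, Z2, hc2, hZ2, hmm⟩ := mfm C θ η (ε / 8) n hC hη (by linarith) (by linarith)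
  obtain ⟨η', Z3, hη', hZ3, hvar⟩ := var C θ η ε n hC hη hε hε5
  obtain ⟨K, hK, hM⟩ := M_le C hC
  have hKm : 0 ≤ K * (n : ℝ) := mul_nonneg (by linarith) (Nat.cast_nonneg _)
  obtain ⟨Z4, hZ4, he⟩ := ev K (ε / 8) (K * n) η' (c2 / 2) (by linarith) (by linarith)
    hKm hη' (by linarith)
  obtain ⟨Z5, hZ5⟩ : ∃ Z5 : ℝ, ∀ Z, Z5 ≤ Z → 2 ≤ Z ^ (ε / 8) := by
    have hε8 : 0 < ε / 8 := by linarith
    have := (tendsto_rpow_atTop hε8).eventually_ge_atTop 2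
    exact Filter.eventually_atTop.mp this
  have hCp : 0 < C := by linarith
  refine ⟨c1 ^ n * (c2 / 2), max (max (max Z1 Z2) (max Z3 Z4)) (max Z5 (C ^ 3)), by positivity,
    le_trans hZ1 (le_trans (le_trans (le_max_left _ _) (le_max_left _ _)) (le_max_left _ _)), ?_⟩
  intro V J Φ _ _ _ D A Z hZ hJ h F hFa hFb
  have hZa : max (max Z1 Z2) (max Z3 Z4) ≤ Z := le_trans (le_max_left _ _) hZ
  have h12 : max Z1 Z2 ≤ Z := le_trans (le_max_left _ _) hZa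
  have h34 : max Z3 Z4 ≤ Z := le_trans (le_max_right _ _) hZa
  have h1 : Z1 ≤ Z := le_trans (le_max_left _ _) h12
  have h2 : Z2 ≤ Z := le_trans (le_max_right _ _) h12
  have h3 : Z3 ≤ Z := le_trans (le_max_left _ _) h34
  have h4 : Z4 ≤ Z := le_trans (le_max_right _ _) h34
  have h5 : Z5 ≤ Z := le_trans (le_trans (le_max_left _ _) (le_max_right _ _)) hZ
  have h6 : C ^ 3 ≤ Z := le_trans (le_trans (le_max_right _ _) (le_max_right _ _)) hZ
  have hZ0 : 3 ≤ Z := le_trans hZ4 h4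
  have hZpos : 0 < Z := by linarith
  have hl : 1 ≤ Real.log Z := by
    rw [Real.le_log_iff_exp_le (by linarith)]
    exact le_trans (by linarith [Real.exp_one_lt_d9]) hZ0
  have hlpos : 0 < Real.log Z := by linarith
  have hx := hZ5 Z h5
  have hmm' := hmm V J Φ D A Z h2 hJ h
  have hvar' := hvar V J Φ D A Z h3 hJ h
  have hE := he Z h4
  have hW := W_nonneg h
  have hMle : ∀ φ j, D.M φ j (Z ^ (ε / 8)) ≤ (K * (1 + ε / 8 * Real.log Z)) ^ K := by
    intro φ j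
    have := hM V J Φ D θ η A Z h φ j (Z ^ (ε / 8)) hx
    rwa [Real.log_rpow hZpos] at this
  have hF0 : ∀ j, 0 < F j := fun j => lt_of_lt_of_le (Real.rpow_pos_of_pos hZpos a) (hFa j)
  have hPF0 : 0 ≤ ∏ j, F j := Finset.prod_nonneg fun j _ => (hF0 j).le
  -- the sets `BX` do not depend on the bound for the number of primes
  have hcard : ∀ (j : J) (m U : Finset V), D.BX C ε Z k m U (F j) ⊆ D.BX C ε Z k1 m U (F j) := by
    intro j m U s hs
    unfold Dat.BX at hs ⊢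
    rw [Finset.mem_filter, Finset.mem_powerset] at hs ⊢
    obtain ⟨hs1, _, hs2, hs3⟩ := hs
    refine ⟨hs1, ?_, hs2, hs3⟩
    have hm1 : 1 ≤ D.NP m := by
      unfold Dat.NP
      have h0 : ∏ v ∈ m, (1 : ℝ) ≤ ∏ v ∈ m, (D.nm v : ℝ) :=
        Finset.prod_le_prod (fun v _ => zero_le_one) fun v _ => by
          have := h.two v
          exact_mod_cast (by omega : 1 ≤ D.nm v)
      simpa using h0
    have hns : (Z ^ (ε / 4)) ^ s.card ≤ D.NP s := by
      unfold Dat.NP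
      rw [← Finset.prod_const]
      refine Finset.prod_le_prod (fun v _ => Real.rpow_nonneg hZpos.le _) fun v hv => ?_
      have h7 := (Finset.mem_sdiff.1 (Finset.mem_sdiff.1 (hs1 hv)).1).2
      rw [h.mem_P] at h7
      exact (not_le.1 h7).le
    have hle : D.NP s ≤ Z ^ (b + 1) := by
      have h8 : D.NP s ≤ D.NP m * D.NP s := le_mul_of_one_le_left (NP_nonneg D s) hm1
      have h9 : C ^ 3 * F j ≤ Z * Z ^ b :=
        mul_le_mul h6 (hFb j) (hF0 j).le hZpos.le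
      have h10 : Z * Z ^ b = Z ^ (b + 1) := by
        rw [Real.rpow_add hZpos, Real.rpow_one, mul_comm]
      linarith
    have h11 : Z ^ (ε / 4 * (s.card : ℝ)) ≤ Z ^ (b + 1) := by
      rw [Real.rpow_mul hZpos.le, Real.rpow_natCast]
      exact hns.trans hle
    have h12' : ε / 4 * (s.card : ℝ) ≤ b + 1 := (Real.rpow_le_rpow_left_iff (by linarith)).1 h11
    have h13 : (s.card : ℝ) ≤ 4 * (b + 1) / ε := by
      rw [le_div_iff₀ hε]
      linarith
    have h14 : (s.card : ℝ) ≤ (k1 : ℝ) := by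
      rw [hk1d]
      exact h13.trans (Nat.le_ceil _)
    exact_mod_cast h14
  -- the good ones
  have hgood : ∀ φ, φ ∉ D.Exc C ε Z →
      (∏ j, c1 * (F j / Real.log Z)) * ∑ m ∈ D.Fam (Z ^ (ε / 8)), ∏ j, D.R φ j (m j) / D.NP (m j) ≤
        ∑ q ∈ D.BF C F, ∏ j, D.R φ j (q j) := by
    intro φ hφ
    have hg : D.Good3 C ε Z φ := by
      by_contra hn
      exact hφ (by simp only [Dat.Exc, Finset.mem_filter, Finset.mem_univ, true_and]; exact hn)
    refine bxt (k := k1) hC hε (by linarith) hc1 h φ F ?_ hF0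
    intro j m U hm hU
    rw [hJ] at hU
    refine (hbx V J Φ D η A Z h1 h φ hg j m U hm hU (F j) (hFa j) (hFb j)).trans ?_
    exact Finset.sum_le_sum_of_subset_of_nonneg (hcard j m U) fun s _ _ => R_nonneg h φ j s
  have hprod : ∏ j, c1 * (F j / Real.log Z) = (c1 / Real.log Z) ^ n * ∏ j, F j := by
    have : ∀ j, c1 * (F j / Real.log Z) = c1 / Real.log Z * F j := fun j => by ring
    rw [Finset.prod_congr rfl fun j _ => this j, Finset.prod_mul_distrib, Finset.prod_const, Finset.card_univ, hJ]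
  rw [hprod] at hgood
  set x := Z ^ (ε / 8) with hxd
  set B := (K * (1 + ε / 8 * Real.log Z)) ^ K with hB
  have hBase : 0 ≤ K * (1 + ε / 8 * Real.log Z) := by positivity
  have hBm : B ^ n = (K * (1 + ε / 8 * Real.log Z)) ^ (K * (n : ℝ)) := by
    rw [hB, Real.rpow_mul hBase, Real.rpow_natCast]
  have hB0 : 0 ≤ B := Real.rpow_nonneg hBase _
  have hexc : ∑ φ ∈ D.Exc C ε Z, D.w φ * ∑ m ∈ D.Fam x, ∏ j, D.R φ j (m j) / D.NP (m j) ≤ D.W * (c2 / 2) := by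
    calc ∑ φ ∈ D.Exc C ε Z, D.w φ * ∑ m ∈ D.Fam x, ∏ j, D.R φ j (m j) / D.NP (m j)
        ≤ ∑ φ ∈ D.Exc C ε Z, D.w φ * B ^ n := by
          apply Finset.sum_le_sum
          intro φ _
          apply mul_le_mul_of_nonneg_left _ (h.w_nonneg φ)
          calc ∑ m ∈ D.Fam x, ∏ j, D.R φ j (m j) / D.NP (m j) ≤ ∏ j, D.M φ j x := fam_upper h x φ
            _ ≤ ∏ _j : J, B :=
                Finset.prod_le_prod (fun j _ => M_nonneg h φ j x) (fun j _ => hMle φ j)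
            _ = B ^ n := by rw [Finset.prod_const, Finset.card_univ, hJ]
      _ = (∑ φ ∈ D.Exc C ε Z, D.w φ) * B ^ n := by rw [Finset.sum_mul]
      _ ≤ (D.W * Z ^ (-η')) * B ^ n := mul_le_mul_of_nonneg_right hvar' (pow_nonneg hB0 _)
      _ = D.W * (Z ^ (-η') * (K * (1 + ε / 8 * Real.log Z)) ^ (K * (n : ℝ))) := by
          rw [hBm]; ring
      _ ≤ D.W * (c2 / 2) := mul_le_mul_of_nonneg_left hE hW
  have : DecidableEq Φ := Classical.decEq Φ
  have hsplit : ∀ f : Φ → ℝ, ∑ φ, f φ = ∑ φ ∈ D.Exc C ε Z, f φ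
      + ∑ φ ∈ Finset.univ \ D.Exc C ε Z, f φ := by
    intro f
    rw [add_comm]
    exact (Finset.sum_sdiff (Finset.subset_univ _)).symm
  have hgoodsum : D.W * (c2 / 2) * Real.log Z ^ n ≤
      ∑ φ ∈ Finset.univ \ D.Exc C ε Z, D.w φ * ∑ m ∈ D.Fam x, ∏ j, D.R φ j (m j) / D.NP (m j) := by
    have h8 := hsplit (fun φ => D.w φ * ∑ m ∈ D.Fam x, ∏ j, D.R φ j (m j) / D.NP (m j))
    have h9 : D.W * (c2 / 2) * 1 ≤ D.W * (c2 / 2) * Real.log Z ^ n :=
      mul_le_mul_of_nonneg_left (one_le_pow₀ hl) (by positivity)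
    have h10 : c2 * D.W * Real.log Z ^ n = D.W * (c2 / 2) * Real.log Z ^ n
      + D.W * (c2 / 2) * Real.log Z ^ n := by ring
    linarith
  have hc0 : 0 ≤ (c1 / Real.log Z) ^ n * ∏ j, F j := by positivity
  have hRn : ∀ φ, 0 ≤ ∑ q ∈ D.BF C F, ∏ j, D.R φ j (q j) := fun φ =>
    Finset.sum_nonneg fun q _ => Finset.prod_nonneg fun j _ => R_nonneg h φ j _
  have hfin : ((c1 / Real.log Z) ^ n * ∏ j, F j) * (D.W * (c2 / 2) * Real.log Z ^ n) ≤
      ∑ φ, D.w φ * ∑ q ∈ D.BF C F, ∏ j, D.R φ j (q j) := by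
    calc ((c1 / Real.log Z) ^ n * ∏ j, F j) * (D.W * (c2 / 2) * Real.log Z ^ n)
        ≤ ((c1 / Real.log Z) ^ n * ∏ j, F j) *
          ∑ φ ∈ Finset.univ \ D.Exc C ε Z, D.w φ * ∑ m ∈ D.Fam x, ∏ j, D.R φ j (m j) / D.NP (m j) :=
          mul_le_mul_of_nonneg_left hgoodsum hc0
      _ = ∑ φ ∈ Finset.univ \ D.Exc C ε Z,
          D.w φ * (((c1 / Real.log Z) ^ n * ∏ j, F j) * ∑ m ∈ D.Fam x, ∏ j, D.R φ j (m j) / D.NP (m j)) := by
          rw [Finset.mul_sum]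
          apply Finset.sum_congr rfl
          intro φ _
          ring
      _ ≤ ∑ φ ∈ Finset.univ \ D.Exc C ε Z, D.w φ * ∑ q ∈ D.BF C F, ∏ j, D.R φ j (q j) := by
          apply Finset.sum_le_sum
          intro φ hφ
          exact mul_le_mul_of_nonneg_left (hgood φ (Finset.mem_sdiff.mp hφ).2) (h.w_nonneg φ)
      _ ≤ ∑ φ, D.w φ * ∑ q ∈ D.BF C F, ∏ j, D.R φ j (q j) := by
          apply Finset.sum_le_sum_of_subset_of_nonneg (Finset.subset_univ _)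
          intro φ _ _
          exact mul_nonneg (h.w_nonneg φ) (hRn φ)
  have hW' : ∑ φ, D.w φ = D.W := rfl
  rw [hW']
  refine le_trans (le_of_eq ?_) hfin
  have : (c1 / Real.log Z) ^ n * Real.log Z ^ n = c1 ^ n := by
    rw [← mul_pow]
    congr 1
    field_simp
  calc c1 ^ n * (c2 / 2) * D.W * ∏ j, F j
      = ((c1 / Real.log Z) ^ n * Real.log Z ^ n) * (c2 / 2) * D.W * ∏ j, F j := by rw [this]
    _ = ((c1 / Real.log Z) ^ n * ∏ j, F j) * (D.W * (c2 / 2) * Real.log Z ^ n) := by ring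

end Pool.Agent.H36.RS
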