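import Pool.Agent.H36.RS.Def

/-!
# Residues on average (T8, K1): families, FAM (combinatorics)

`fam_lower`: `∏_{v ∈ s} ((∑ j, g j v) / nm v) = ∑_{f : s → J} ∏_{v ∈ s} g (f v) v / nm v` (`Finset.prod_sum` or
`Finset.prod_univ_sum`), and `(s, f) ↦ (j ↦ f⁻¹ j)` is injective into `Fam x` (`∏ j, NP (q j) = NP s ≤ x`, each `NP (q j) ≤ NP s ≤ x`
because norms are at least `1`). `fam_upper`: `∏ j, M φ j x = ∑` over all families in `piFinset`, drop the terms outside `Fam x`.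
-/

set_option autoImplicit false

noncomputable section

namespace Pool.Agent.H36.RS

variable {V J Φ : Type} [DecidableEq V] [Fintype J] [Fintype Φ]

open scoped Classical in
/-- the family of a coloured set -/
private def fib (t : Σ s : Finset V, (∀ v ∈ s, J)) (j : J) : Finset V :=
  (t.1.attach.filter fun v => t.2 v.1 v.2 = j).map (Function.Embedding.subtype _)

omit [DecidableEq V] [Fintype J] in
private theorem mem_fib (t : Σ s : Finset V, (∀ v ∈ s, J)) (j : J) (v : V) :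
    v ∈ fib t j ↔ ∃ h : v ∈ t.1, t.2 v h = j := by
  classical
  unfold fib
  rw [Finset.mem_map]
  constructor
  · rintro ⟨a, ha, rfl⟩
    exact ⟨a.2, (Finset.mem_filter.mp ha).2⟩
  · rintro ⟨h, hj⟩
    exact ⟨⟨v, h⟩, Finset.mem_filter.mpr ⟨Finset.mem_attach _ _, hj⟩, rfl⟩

omit [DecidableEq V] [Fintype J] in
private theorem fib_sub (t : Σ s : Finset V, (∀ v ∈ s, J)) (j : J) : fib t j ⊆ t.1 := fun v hv =>
  ((mem_fib t j v).mp hv).1

omit [DecidableEq V] in
private theorem prod_fib (t : Σ s : Finset V, (∀ v ∈ s, J)) (F : J → V → ℝ) :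
    ∏ j, ∏ v ∈ fib t j, F j v = ∏ v ∈ t.1.attach, F (t.2 v.1 v.2) v.1 := by
  classical
  rw [← Finset.prod_fiberwise t.1.attach (fun v => t.2 v.1 v.2) (fun v => F (t.2 v.1 v.2) v.1)]
  refine Finset.prod_congr rfl fun j _ => ?_
  unfold fib
  rw [Finset.prod_map]
  refine Finset.prod_congr (by congr) fun v hv => ?_
  rw [(Finset.mem_filter.mp hv).2]
  rfl

private theorem one_le_nm {C θ η A Z : ℝ} {D : Dat V J Φ} (h : Hyp C θ η A Z D) (v : V) :
    (1 : ℝ) ≤ (D.nm v : ℝ) := by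
  have h2 := h.two v
  exact_mod_cast (by omega : 1 ≤ D.nm v)

private theorem NP_pos {C θ η A Z : ℝ} {D : Dat V J Φ} (h : Hyp C θ η A Z D) (q : Finset V) :
    0 < D.NP q := by
  unfold Dat.NP
  exact Finset.prod_pos fun v _ => lt_of_lt_of_le one_pos (one_le_nm h v)

private theorem NP_mono {C θ η A Z : ℝ} {D : Dat V J Φ} (h : Hyp C θ η A Z D) {q s : Finset V}
    (hqs : q ⊆ s) : D.NP q ≤ D.NP s := by
  unfold Dat.NP
  rw [← Finset.prod_sdiff hqs]
  refine le_mul_of_one_le_left (Finset.prod_nonneg fun v _ => zero_le_one.trans (one_le_nm h v)) ?_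
  exact Finset.one_le_prod fun v _ => one_le_nm h v

theorem fam_lower {C θ η A Z : ℝ} {D : Dat V J Φ} (h : Hyp C θ η A Z D) (x : ℝ) :
    ∑ s ∈ D.SQ x, ∏ v ∈ s, (∑ j, D.g j v) / (D.nm v : ℝ) ≤
      ∑ q ∈ D.Fam x, ∏ j, D.G j (q j) / D.NP (q j) := by
  classical
  have hNP : ∀ t : (Σ s : Finset V, (∀ v ∈ s, J)), ∏ j, D.NP (fib t j) = D.NP t.1 := by
    intro t
    unfold Dat.NP
    rw [prod_fib t (fun _ v => (D.nm v : ℝ)), Finset.prod_attach t.1 (fun v => (D.nm v : ℝ))]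
  have hval : ∀ t : (Σ s : Finset V, (∀ v ∈ s, J)),
      ∏ v ∈ t.1.attach, D.g (t.2 v.1 v.2) v.1 / (D.nm v.1 : ℝ) =
        ∏ j, D.G j (fib t j) / D.NP (fib t j) := by
    intro t
    rw [← prod_fib t (fun j v => D.g j v / (D.nm v : ℝ))]
    refine Finset.prod_congr rfl fun j _ => ?_
    unfold Dat.G Dat.NP
    rw [Finset.prod_div_distrib]
  have hexp : ∑ s ∈ D.SQ x, ∏ v ∈ s, (∑ j, D.g j v) / (D.nm v : ℝ) =
      ∑ t ∈ (D.SQ x).sigma (fun s => s.pi fun _ => (Finset.univ : Finset J)),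
        ∏ j, D.G j (fib t j) / D.NP (fib t j) := by
    rw [Finset.sum_sigma]
    refine Finset.sum_congr rfl fun s _ => ?_
    have e1 : ∏ v ∈ s, (∑ j, D.g j v) / (D.nm v : ℝ) =
        ∏ v ∈ s, ∑ j, D.g j v / (D.nm v : ℝ) :=
      Finset.prod_congr rfl fun v _ => Finset.sum_div _ _ _
    rw [e1, Finset.prod_sum]
    exact Finset.sum_congr rfl fun p _ => hval ⟨s, p⟩
  rw [hexp]
  have hinj : Set.InjOn (fib : (Σ s : Finset V, (∀ v ∈ s, J)) → J → Finset V)
      ((D.SQ x).sigma (fun s => s.pi fun _ => (Finset.univ : Finset J)) : Set _) := by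
    rintro ⟨s, p⟩ _ ⟨s', p'⟩ _ he
    have hs : s = s' := by
      ext v
      constructor
      · intro hv
        have h1 : v ∈ fib ⟨s, p⟩ (p v hv) := (mem_fib _ _ _).mpr ⟨hv, rfl⟩
        rw [he] at h1
        exact ((mem_fib _ _ _).mp h1).1
      · intro hv
        have h1 : v ∈ fib ⟨s', p'⟩ (p' v hv) := (mem_fib _ _ _).mpr ⟨hv, rfl⟩
        rw [← he] at h1
        exact ((mem_fib _ _ _).mp h1).1
    subst hs
    have hp : p = p' := by
      funext v hv
      have h1 : v ∈ fib ⟨s, p⟩ (p v hv) := (mem_fib _ _ _).mpr ⟨hv, rfl⟩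
      rw [he] at h1
      obtain ⟨_, h2⟩ := (mem_fib _ _ _).mp h1
      exact h2.symm
    rw [hp]
  rw [← Finset.sum_image (f := fun q : J → Finset V => ∏ j, D.G j (q j) / D.NP (q j)) hinj]
  refine Finset.sum_le_sum_of_subset_of_nonneg ?_ ?_
  · intro q hq
    obtain ⟨t, ht, rfl⟩ := Finset.mem_image.mp hq
    have hts : t.1 ∈ D.SQ x := (Finset.mem_sigma.mp ht).1
    obtain ⟨hsub, hle⟩ := Finset.mem_filter.mp hts
    rw [Finset.mem_powerset] at hsub
    refine Finset.mem_filter.mpr ⟨Fintype.mem_piFinset.mpr fun j => ?_, ?_, ?_⟩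
    · exact Finset.mem_filter.mpr ⟨Finset.mem_powerset.mpr ((fib_sub t j).trans hsub),
        (NP_mono h (fib_sub t j)).trans hle⟩
    · intro i j hij
      rw [Finset.disjoint_left]
      intro v hvi hvj
      obtain ⟨h1, h2⟩ := (mem_fib _ _ _).mp hvi
      obtain ⟨_, h4⟩ := (mem_fib _ _ _).mp hvj
      exact hij (h2.symm.trans h4)
    · rw [hNP]
      exact hle
  · intro q _ _
    refine Finset.prod_nonneg fun j _ => div_nonneg ?_ (NP_pos h _).le
    exact Finset.prod_nonneg fun v _ => h.g_nonneg j v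

theorem fam_upper {C θ η A Z : ℝ} {D : Dat V J Φ} (h : Hyp C θ η A Z D) (x : ℝ) (φ : Φ) :
    ∑ q ∈ D.Fam x, ∏ j, D.R φ j (q j) / D.NP (q j) ≤ ∏ j, D.M φ j x := by
  classical
  unfold Dat.M
  rw [Finset.prod_univ_sum]
  refine Finset.sum_le_sum_of_subset_of_nonneg (Finset.filter_subset _ _) ?_
  intro q _ _
  refine Finset.prod_nonneg fun j _ => div_nonneg ?_ (NP_pos h _).le
  exact Finset.prod_nonneg fun v _ => h.r_nonneg φ j v

theorem fam_spec {D : Dat V J Φ} {x : ℝ} {q : J → Finset V} (hq : q ∈ D.Fam x) :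
    (∀ i j, i ≠ j → Disjoint (q i) (q j)) ∧ ∏ j, D.NP (q j) ≤ x := by
  classical
  exact (Finset.mem_filter.mp hq).2

end Pool.Agent.H36.RS
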