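import Pool.Agent.H36.RS.Sum

/-!
# Residues on average (T8, K1): pointwise upper bounds, PTW

`euler_le`: `∑_{q ⊂ P x} ∏_{v ∈ q} b v / nm v = ∏_{v ∈ P x} (1 + b v / nm v) ≤ exp (C ∑ 1 / nm v)` and `sum_inv`.
`M_le`: `SQ x` is a set of subsets of `P x`, `R φ j q / NP q = ∏_{v ∈ q} r φ j v / nm v`. `fam_le`: the sum over the families is at most
the product over `j` of the sums over the subsets of `P x` (`Finset.prod_univ_sum`).
-/

set_option autoImplicit false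

noncomputable section

namespace Pool.Agent.H36.RS

theorem euler_le (C : ℝ) (hC : 2 ≤ C) : ∃ K : ℝ, 1 ≤ K ∧ ∀ (V : Type) (nm : V → ℕ)
    (P : ℝ → Finset V), PH C nm P → ∀ b : V → ℝ, (∀ v, 0 ≤ b v) → (∀ v, b v ≤ C) →
      ∀ x : ℝ, 2 ≤ x → ∑ q ∈ (P x).powerset, ∏ v ∈ q, b v / (nm v : ℝ) ≤
        (K * (1 + Real.log x)) ^ K := by
  obtain ⟨K1, hK1, h1⟩ := sum_inv C hC
  have hCK : 0 ≤ C * K1 := by positivity
  refine ⟨C * K1 + 3, by linarith, fun V nm P hP b hb hbC x hx => ?_⟩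
  obtain ⟨K, hK⟩ : ∃ K, K = C * K1 + 3 := ⟨_, rfl⟩
  obtain ⟨L, hL⟩ : ∃ L, L = 1 + Real.log x := ⟨_, rfl⟩
  rw [← hK, ← hL]
  have hL1 : 1 ≤ L := by
    have := Real.log_nonneg (by linarith : (1 : ℝ) ≤ x)
    linarith
  have hK3 : 3 ≤ K := by linarith
  have hlogL : 0 ≤ Real.log L := Real.log_nonneg hL1
  have hlogK : 1 ≤ Real.log K := by
    rw [Real.le_log_iff_exp_le (by linarith)]
    have := Real.exp_one_lt_d9
    linarith
  have h2 : ∑ q ∈ (P x).powerset, ∏ v ∈ q, b v / (nm v : ℝ) = ∏ v ∈ P x, (1 + b v / (nm v : ℝ)) :=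
    (Finset.prod_one_add (s := P x) (f := fun v => b v / (nm v : ℝ))).symm
  rw [h2]
  have h3 : ∏ v ∈ P x, (1 + b v / (nm v : ℝ)) ≤ ∏ v ∈ P x, Real.exp (b v / (nm v : ℝ)) := by
    refine Finset.prod_le_prod (fun v _ => ?_) (fun v _ => ?_)
    · have : 0 ≤ b v / (nm v : ℝ) := div_nonneg (hb v) (Nat.cast_nonneg _)
      linarith
    · have := Real.add_one_le_exp (b v / (nm v : ℝ))
      linarith
  have h4 : ∑ v ∈ P x, b v / (nm v : ℝ) ≤ C * ∑ v ∈ P x, 1 / (nm v : ℝ) := by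
    rw [Finset.mul_sum]
    refine Finset.sum_le_sum fun v _ => ?_
    rw [mul_one_div]
    exact div_le_div_of_nonneg_right (hbC v) (Nat.cast_nonneg _)
  have h5 := h1 V nm P hP x hx
  rw [← hL] at h5
  have h6 : C * ∑ v ∈ P x, 1 / (nm v : ℝ) ≤ C * (K1 * (1 + Real.log L)) :=
    mul_le_mul_of_nonneg_left h5 (by linarith)
  refine h3.trans ?_
  rw [← Real.exp_sum, Real.rpow_def_of_pos (by positivity), Real.exp_le_exp]
  refine (h4.trans h6).trans ?_
  rw [Real.log_mul (by linarith) (by linarith)]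
  have h7 : C * (K1 * (1 + Real.log L)) ≤ K * (1 + Real.log L) := by
    rw [← mul_assoc]
    exact mul_le_mul_of_nonneg_right (by linarith) (by linarith)
  refine h7.trans ?_
  rw [mul_comm (Real.log K + Real.log L)]
  exact mul_le_mul_of_nonneg_left (by linarith) (by linarith)

theorem M_le (C : ℝ) (hC : 2 ≤ C) : ∃ K : ℝ, 1 ≤ K ∧
    ∀ (V J Φ : Type) [DecidableEq V] [Fintype J] [Fintype Φ] (D : Dat V J Φ) (θ η A Z : ℝ),
      Hyp C θ η A Z D → ∀ φ j (x : ℝ), 2 ≤ x → D.M φ j x ≤ (K * (1 + Real.log x)) ^ K := by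
  obtain ⟨K, hK, h1⟩ := euler_le C hC
  refine ⟨K, hK, fun V J Φ _ _ _ D θ η A Z h φ j x hx => ?_⟩
  refine le_trans ?_ (h1 V D.nm D.P h.toP (D.r φ j) (h.r_nonneg φ j) (h.r_le φ j) x hx)
  unfold Dat.M
  have h2 : ∀ q : Finset V, D.R φ j q / D.NP q = ∏ v ∈ q, D.r φ j v / (D.nm v : ℝ) := by
    intro q
    unfold Dat.R Dat.NP
    rw [Finset.prod_div_distrib]
  rw [Finset.sum_congr rfl fun q _ => h2 q]
  refine Finset.sum_le_sum_of_subset_of_nonneg (Finset.filter_subset _ _) fun q _ _ => ?_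
  exact Finset.prod_nonneg fun v _ => div_nonneg (h.r_nonneg φ j v) (Nat.cast_nonneg _)

theorem fam_le (C : ℝ) (m : ℕ) (hC : 2 ≤ C) : ∃ K : ℝ, 1 ≤ K ∧
    ∀ (V J Φ : Type) [DecidableEq V] [Fintype J] [Fintype Φ] (D : Dat V J Φ) (θ η A Z : ℝ),
      Fintype.card J = m → Hyp C θ η A Z D → ∀ x : ℝ, 2 ≤ x →
        ∑ q ∈ D.Fam x, ∏ j, 1 / D.NP (q j) ≤ (K * (1 + Real.log x)) ^ K := by
  classical
  obtain ⟨K, hK, h1⟩ := euler_le C hC
  have hmK : 0 ≤ (m : ℝ) * K := by positivity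
  refine ⟨K + m * K, by linarith, fun V J Φ _ _ _ D θ η A Z hm h x hx => ?_⟩
  obtain ⟨L, hL⟩ : ∃ L, L = 1 + Real.log x := ⟨_, rfl⟩
  have hL1 : 1 ≤ L := by
    have := Real.log_nonneg (by linarith : (1 : ℝ) ≤ x)
    linarith
  have hKL : 1 ≤ K * L := one_le_mul_of_one_le_of_one_le hK hL1
  have h2 : ∑ q ∈ D.SQ x, 1 / D.NP q ≤ (K * L) ^ K := by
    have h3 := h1 V D.nm D.P h.toP (fun _ => 1) (fun _ => zero_le_one) (fun _ => by linarith) x hx
    rw [hL]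
    refine le_trans ?_ h3
    have h4 : ∀ q : Finset V, 1 / D.NP q = ∏ v ∈ q, 1 / (D.nm v : ℝ) := by
      intro q
      unfold Dat.NP
      rw [Finset.prod_div_distrib, Finset.prod_const_one]
    rw [Finset.sum_congr rfl fun q _ => h4 q]
    refine Finset.sum_le_sum_of_subset_of_nonneg (Finset.filter_subset _ _) fun q _ _ => ?_
    exact Finset.prod_nonneg fun v _ => div_nonneg zero_le_one (Nat.cast_nonneg _)
  have hN : ∀ q : Finset V, 0 ≤ 1 / D.NP q := by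
    intro q
    refine div_nonneg zero_le_one ?_
    exact Finset.prod_nonneg fun v _ => Nat.cast_nonneg _
  have h3 : ∑ q ∈ D.Fam x, ∏ j, 1 / D.NP (q j) ≤
      ∑ q ∈ Fintype.piFinset fun _ : J => D.SQ x, ∏ j, 1 / D.NP (q j) := by
    refine Finset.sum_le_sum_of_subset_of_nonneg ?_ fun q _ _ => Finset.prod_nonneg fun j _ => hN _
    unfold Dat.Fam
    exact Finset.filter_subset _ _
  have h4 : ∑ q ∈ Fintype.piFinset fun _ : J => D.SQ x, ∏ j, 1 / D.NP (q j) =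
      ∏ _j : J, ∑ q ∈ D.SQ x, 1 / D.NP q :=
    (Finset.prod_univ_sum (fun _ : J => D.SQ x) (fun _ q => 1 / D.NP q)).symm
  rw [h4, Finset.prod_const, Finset.card_univ, hm] at h3
  refine h3.trans ?_
  have h5 : (∑ q ∈ D.SQ x, 1 / D.NP q) ^ m ≤ ((K * L) ^ K) ^ m :=
    pow_le_pow_left₀ (Finset.sum_nonneg fun q _ => hN q) h2 m
  refine h5.trans ?_
  rw [← Real.rpow_mul_natCast (by positivity), ← hL]
  refine (Real.rpow_le_rpow_of_exponent_le hKL (show K * m ≤ K + m * K by linarith)).trans ?_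
  refine Real.rpow_le_rpow (by positivity) ?_ (by linarith)
  exact mul_le_mul_of_nonneg_right (by linarith) (by linarith)

end Pool.Agent.H36.RS
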