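import Pool.Agent.H36.RS.Sum

/-!
# Residues on average (T8, K1): few exceptional `φ`, VAR

For one window `B = win C a` (`Z ^ (ε/4) ≤ C ^ a ≤ Z ^ (2 ε)`) and one `j`: expand
`∑ φ, w φ (∑_{v ∈ B} (r φ j v - g j v))^2 = ∑_{v, v'} ∑ φ, w φ (r v - g v) (r v' - g v')`.
`v = v'`: at most `W C^2`. `v ≠ v'`: by `mean` (for `q j = {v, v'}`, `{v}`, `{v'}`, all other `q` empty; the norm is at most
`C^2 Z ^ (4 ε) ≤ Z ^ θ`, `5 ε ≤ θ`) at most `W (1 + 2 C) Z ^ (-η)`. With `#B ≤ C C^(a+1) / log (C^(a+1))`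
and `∑_{v ∈ B} g j v ≥ C^a / (C log (C^a))` (`che1`) the weight of the `φ` with `∑_{v ∈ B} r < C^a / (2 C log (C^a))` is at most
`W K (log Z Z ^ (-ε/4) + Z ^ (-η))`. Sum over `j` and `a ≤ 2 ε log Z / log C`: at most `W Z ^ (-η')`, `η' = min (ε/4) η / 2`.
-/

set_option autoImplicit false

noncomputable section

namespace Pool.Agent.H36.RS

private theorem W_nonneg {V J Φ : Type} [DecidableEq V] [Fintype J] [Fintype Φ] {C θ η A Z : ℝ}
    {D : Dat V J Φ} (h : Hyp C θ η A Z D) : 0 ≤ D.W :=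
  Finset.sum_nonneg fun φ _ => h.w_nonneg φ

private theorem mean_q {V J Φ : Type} [DecidableEq V] [Fintype J] [Fintype Φ] {C θ η A Z : ℝ}
    {D : Dat V J Φ} (h : Hyp C θ η A Z D) (j : J) (q0 : Finset V) (hq : D.NP q0 ≤ Z ^ θ) :
    |∑ φ, D.w φ * D.R φ j q0 - D.W * D.G j q0| ≤ D.W * Z ^ (-η) := by
  classical
  have e1 : ∏ i : J, D.NP (if i = j then q0 else ∅) = D.NP q0 := by
    rw [Finset.prod_eq_single j]
    · rw [if_pos rfl]
    · intro b _ hb
      rw [if_neg hb]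
      simp [Dat.NP]
    · intro hj
      exact absurd (Finset.mem_univ j) hj
  have e2 : ∏ i : J, D.G i (if i = j then q0 else ∅) = D.G j q0 := by
    rw [Finset.prod_eq_single j]
    · rw [if_pos rfl]
    · intro b _ hb
      rw [if_neg hb]
      simp [Dat.G]
    · intro hj
      exact absurd (Finset.mem_univ j) hj
  have e3 : ∀ φ : Φ, ∏ i : J, D.R φ i (if i = j then q0 else ∅) = D.R φ j q0 := by
    intro φ
    rw [Finset.prod_eq_single j]
    · rw [if_pos rfl]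
    · intro b _ hb
      rw [if_neg hb]
      simp [Dat.R]
    · intro hj
      exact absurd (Finset.mem_univ j) hj
  have h1 := h.mean (fun i => if i = j then q0 else ∅) (by
    intro i i' hii
    show Disjoint (if i = j then q0 else ∅) (if i' = j then q0 else ∅)
    by_cases hi : i = j
    · have hi' : i' ≠ j := fun h' => hii (hi.trans h'.symm)
      rw [if_neg hi']
      exact Finset.disjoint_empty_right _
    · rw [if_neg hi]
      exact Finset.disjoint_empty_left _) (by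
    show ∏ i : J, D.NP (if i = j then q0 else ∅) ≤ Z ^ θ
    rw [e1]
    exact hq)
  have h2 : ∑ φ, D.w φ * ∏ i, D.R φ i (if i = j then q0 else ∅) = ∑ φ, D.w φ * D.R φ j q0 :=
    Finset.sum_congr rfl fun φ _ => by rw [e3 φ]
  have h3 : |∑ φ, D.w φ * ∏ i, D.R φ i (if i = j then q0 else ∅)
      - D.W * ∏ i, D.G i (if i = j then q0 else ∅)| ≤ D.W * Z ^ (-η) := h1
  rw [h2, e2] at h3
  exact h3

/-- the covariance of two different primes -/
private theorem cov {V J Φ : Type} [DecidableEq V] [Fintype J] [Fintype Φ] {C θ η A Z : ℝ}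
    {D : Dat V J Φ} (h : Hyp C θ η A Z D) (hZ : 1 ≤ Z) (j : J) (v v' : V) (hv : v ≠ v')
    (h1 : (D.nm v : ℝ) ≤ Z ^ θ) (h2 : (D.nm v' : ℝ) ≤ Z ^ θ)
    (h3 : (D.nm v : ℝ) * (D.nm v' : ℝ) ≤ Z ^ θ) :
    ∑ φ, D.w φ * ((D.r φ j v - D.g j v) * (D.r φ j v' - D.g j v'))
      ≤ D.W * (1 + 2 * C) * Z ^ (-η) := by
  have hW := W_nonneg h
  have a1 := mean_q h j {v} (by rw [Dat.NP, Finset.prod_singleton]; exact h1)
  have a2 := mean_q h j {v'} (by rw [Dat.NP, Finset.prod_singleton]; exact h2)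
  have a3 := mean_q h j {v, v'} (by rw [Dat.NP, Finset.prod_pair hv]; exact h3)
  simp only [Dat.R, Dat.G, Finset.prod_singleton, Finset.prod_pair hv] at a1 a2 a3
  have hE : ∑ φ, D.w φ * ((D.r φ j v - D.g j v) * (D.r φ j v' - D.g j v'))
      = (∑ φ, D.w φ * (D.r φ j v * D.r φ j v') - D.W * (D.g j v * D.g j v'))
        - D.g j v' * (∑ φ, D.w φ * D.r φ j v - D.W * D.g j v)
        - D.g j v * (∑ φ, D.w φ * D.r φ j v' - D.W * D.g j v') := by
    have e1 : ∑ φ, D.w φ * ((D.r φ j v - D.g j v) * (D.r φ j v' - D.g j v'))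
        = ∑ φ, (D.w φ * (D.r φ j v * D.r φ j v') - D.g j v' * (D.w φ * D.r φ j v)
          - D.g j v * (D.w φ * D.r φ j v') + D.w φ * (D.g j v * D.g j v')) :=
      Finset.sum_congr rfl fun φ _ => by ring
    rw [e1, Finset.sum_add_distrib, Finset.sum_sub_distrib, Finset.sum_sub_distrib,
      ← Finset.mul_sum, ← Finset.mul_sum, ← Finset.sum_mul]
    unfold Dat.W
    ring
  rw [hE]
  have hz : 0 ≤ Z ^ (-η) := Real.rpow_nonneg (by linarith) _
  have hX : 0 ≤ D.W * Z ^ (-η) := mul_nonneg hW hz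
  rw [abs_le] at a1 a2 a3
  have g1 := h.g_nonneg j v
  have g2 := h.g_nonneg j v'
  have g3 := h.g_le j v
  have g4 := h.g_le j v'
  have b1 : -(D.g j v' * (∑ φ, D.w φ * D.r φ j v - D.W * D.g j v)) ≤ C * (D.W * Z ^ (-η)) := by
    have := mul_le_mul_of_nonneg_left a1.1 g2
    have h5 := mul_le_mul_of_nonneg_right g4 hX
    nlinarith
  have b2 : -(D.g j v * (∑ φ, D.w φ * D.r φ j v' - D.W * D.g j v')) ≤ C * (D.W * Z ^ (-η)) := by
    have := mul_le_mul_of_nonneg_left a2.1 g1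
    have h5 := mul_le_mul_of_nonneg_right g3 hX
    nlinarith
  have b3 := a3.2
  have : D.W * (1 + 2 * C) * Z ^ (-η) = D.W * Z ^ (-η) + C * (D.W * Z ^ (-η)) + C * (D.W * Z ^ (-η)) := by ring
  rw [this]
  linarith

private theorem diag {V J Φ : Type} [DecidableEq V] [Fintype J] [Fintype Φ] {C θ η A Z : ℝ}
    {D : Dat V J Φ} (h : Hyp C θ η A Z D) (j : J) (v : V) :
    ∑ φ, D.w φ * ((D.r φ j v - D.g j v) * (D.r φ j v - D.g j v)) ≤ D.W * C ^ 2 := by
  unfold Dat.W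
  rw [Finset.sum_mul]
  refine Finset.sum_le_sum fun φ _ => mul_le_mul_of_nonneg_left ?_ (h.w_nonneg φ)
  have g1 := h.g_nonneg j v
  have g3 := h.g_le j v
  have r1 := h.r_nonneg φ j v
  have r3 := h.r_le φ j v
  have h1 : |D.r φ j v - D.g j v| ≤ C := by
    rw [abs_le]
    constructor <;> linarith
  have h2 := abs_nonneg (D.r φ j v - D.g j v)
  have h3 : (D.r φ j v - D.g j v) * (D.r φ j v - D.g j v) = |D.r φ j v - D.g j v| ^ 2 := by
    rw [sq_abs, sq]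
  rw [h3]
  exact pow_le_pow_left₀ h2 h1 2

/-- second moment for a finite set of primes of small norm -/
private theorem second {V J Φ : Type} [DecidableEq V] [Fintype J] [Fintype Φ] {C θ η A Z : ℝ}
    {D : Dat V J Φ} (h : Hyp C θ η A Z D) (hC : 2 ≤ C) (hZ : 1 ≤ Z) (j : J) (B : Finset V) (X : ℝ)
    (hX1 : 1 ≤ X) (hB : ∀ v ∈ B, (D.nm v : ℝ) ≤ X) (hX : X * X ≤ Z ^ θ) :
    ∑ φ, D.w φ * (∑ v ∈ B, D.r φ j v - ∑ v ∈ B, D.g j v) ^ 2 ≤
      (B.card : ℝ) * (D.W * C ^ 2) + (B.card : ℝ) ^ 2 * (D.W * (1 + 2 * C) * Z ^ (-η)) := by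
  have hW := W_nonneg h
  have hz : 0 ≤ Z ^ (-η) := Real.rpow_nonneg (by linarith) _
  have hY : 0 ≤ D.W * (1 + 2 * C) * Z ^ (-η) := mul_nonneg (mul_nonneg hW (by linarith)) hz
  have e1 : ∑ φ, D.w φ * (∑ v ∈ B, D.r φ j v - ∑ v ∈ B, D.g j v) ^ 2
      = ∑ v ∈ B, ∑ v' ∈ B, ∑ φ, D.w φ * ((D.r φ j v - D.g j v) * (D.r φ j v' - D.g j v')) := by
    have e2 : ∀ φ : Φ, D.w φ * (∑ v ∈ B, D.r φ j v - ∑ v ∈ B, D.g j v) ^ 2
        = ∑ v ∈ B, ∑ v' ∈ B, D.w φ * ((D.r φ j v - D.g j v) * (D.r φ j v' - D.g j v')) := by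
      intro φ
      rw [← Finset.sum_sub_distrib, sq, Finset.sum_mul_sum, Finset.mul_sum]
      refine Finset.sum_congr rfl fun v _ => ?_
      rw [Finset.mul_sum]
    rw [Finset.sum_congr rfl fun φ _ => e2 φ, Finset.sum_comm]
    refine Finset.sum_congr rfl fun v _ => ?_
    rw [Finset.sum_comm]
  rw [e1]
  have hle : ∀ v ∈ B, ∀ v' ∈ B,
      ∑ φ, D.w φ * ((D.r φ j v - D.g j v) * (D.r φ j v' - D.g j v'))
      ≤ (if v = v' then D.W * C ^ 2 else 0) + D.W * (1 + 2 * C) * Z ^ (-η) := by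
    intro v hv v' hv'
    by_cases hvv : v = v'
    · subst hvv
      rw [if_pos rfl]
      have := diag h j v
      linarith
    · rw [if_neg hvv, zero_add]
      have p1 := hB v hv
      have p2 := hB v' hv'
      have p3 : X ≤ X * X := by nlinarith
      refine cov h hZ j v v' hvv (p1.trans (p3.trans hX)) (p2.trans (p3.trans hX)) ?_
      exact (mul_le_mul p1 p2 (Nat.cast_nonneg _) (by linarith)).trans hX
  have hs : ∑ v ∈ B, ∑ v' ∈ B, ((if v = v' then D.W * C ^ 2 else 0) + D.W * (1 + 2 * C) * Z ^ (-η))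
      = (B.card : ℝ) * (D.W * C ^ 2) + (B.card : ℝ) ^ 2 * (D.W * (1 + 2 * C) * Z ^ (-η)) := by
    have e3 : ∀ v ∈ B, ∑ v' ∈ B, ((if v = v' then D.W * C ^ 2 else 0) + D.W * (1 + 2 * C) * Z ^ (-η))
        = D.W * C ^ 2 + (B.card : ℝ) * (D.W * (1 + 2 * C) * Z ^ (-η)) := by
      intro v hv
      rw [Finset.sum_add_distrib, Finset.sum_ite_eq, if_pos hv, Finset.sum_const, nsmul_eq_mul]
    rw [Finset.sum_congr rfl e3, Finset.sum_const, nsmul_eq_mul]
    ring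
  rw [← hs]
  exact Finset.sum_le_sum fun v hv => Finset.sum_le_sum fun v' hv' => hle v hv v' hv'

/-- the variance over one window -/
theorem var1 (C θ ε : ℝ) (hC : 2 ≤ C) (hε : 0 < ε) (hθ : 5 * ε ≤ θ) :
    ∃ K Z0 : ℝ, 1 ≤ K ∧ 2 ≤ Z0 ∧
      ∀ (V J Φ : Type) [DecidableEq V] [Fintype J] [Fintype Φ] (D : Dat V J Φ) (η A Z : ℝ),
        Z0 ≤ Z → Hyp C θ η A Z D → ∀ (j : J) (a : ℕ), Z ^ (ε / 4) ≤ C ^ a → C ^ a ≤ Z ^ (2 * ε) →
          ∑ φ, D.w φ * (∑ v ∈ D.win C a, D.r φ j v - ∑ v ∈ D.win C a, D.g j v) ^ 2 ≤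
            K * D.W * (C ^ a / Real.log (C ^ a)) ^ 2 *
              (Real.log Z * Z ^ (-(ε / 4)) + Z ^ (-η)) := by
  refine ⟨1 + 2 * ε * C ^ 4 + C ^ 4 * (1 + 2 * C), max 2 ((C ^ 2) ^ (1 / ε)), ?_, le_max_left _ _, ?_⟩
  · have h1 : 0 ≤ 2 * ε * C ^ 4 := by positivity
    have h2 : 0 ≤ C ^ 4 * (1 + 2 * C) := by positivity
    linarith
  intro V J Φ _ _ _ D η A Z hZ h j a ha1 ha2
  have hZ2 : 2 ≤ Z := (le_max_left _ _).trans hZ
  have hZ1 : 1 ≤ Z := by linarith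
  have hZpos : 0 < Z := by linarith
  have hCZ : C ^ 2 ≤ Z ^ ε := by
    have h1 : (C ^ 2) ^ (1 / ε) ≤ Z := (le_max_right _ _).trans hZ
    have h2 := Real.rpow_le_rpow (by positivity) h1 hε.le
    rw [← Real.rpow_mul (by positivity), one_div, inv_mul_cancel₀ hε.ne', Real.rpow_one] at h2
    exact h2
  have hW := W_nonneg h
  have hz : 0 ≤ Z ^ (-η) := Real.rpow_nonneg (by linarith) _
  have hlogZ : 0 < Real.log Z := Real.log_pos (by linarith)
  have hCa1 : 1 < C ^ a := lt_of_lt_of_le (Real.one_lt_rpow (by linarith) (by linarith)) ha1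
  have ha0 : a ≠ 0 := fun h0 => by
    rw [h0, pow_zero] at hCa1
    exact lt_irrefl _ hCa1
  have hlog : 0 < Real.log (C ^ a) := Real.log_pos hCa1
  have hCapos : 0 < C ^ a := by linarith
  have hC1 : (1 : ℝ) ≤ C := by linarith
  have hCa2 : 2 ≤ C ^ (a + 1) := by
    calc (2 : ℝ) ≤ C := hC
      _ = C ^ 1 := (pow_one C).symm
      _ ≤ C ^ (a + 1) := pow_le_pow_right₀ hC1 (by omega)
  set L : ℝ := C ^ a / Real.log (C ^ a) with hL
  have hLpos : 0 < L := div_pos hCapos hlog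
  have hcard : ((D.win C a).card : ℝ) ≤ C ^ 2 * L := by
    have h1 : ((D.win C a).card : ℝ) ≤ ((D.P (C ^ (a + 1))).card : ℝ) := by
      exact_mod_cast Finset.card_le_card Finset.sdiff_subset
    have h2 := h.card_P (C ^ (a + 1)) hCa2
    have h3 : Real.log (C ^ a) ≤ Real.log (C ^ (a + 1)) :=
      Real.log_le_log hCapos (pow_le_pow_right₀ hC1 (by omega))
    have h4 : C * C ^ (a + 1) / Real.log (C ^ (a + 1)) ≤ C * C ^ (a + 1) / Real.log (C ^ a) :=
      div_le_div_of_nonneg_left (by positivity) hlog h3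
    have h5 : C * C ^ (a + 1) / Real.log (C ^ a) = C ^ 2 * L := by
      rw [hL, pow_succ]
      ring
    linarith
  have hsec := second h hC hZ1 j (D.win C a) (C ^ (a + 1)) (by linarith) (by
    intro v hv
    exact (h.mem_P _ v).1 (Finset.mem_sdiff.1 hv).1) (by
    have e1 : C ^ (a + 1) * C ^ (a + 1) = C ^ 2 * (C ^ a * C ^ a) := by ring
    rw [e1]
    calc C ^ 2 * (C ^ a * C ^ a) ≤ Z ^ ε * (Z ^ (2 * ε) * Z ^ (2 * ε)) :=
          mul_le_mul hCZ (mul_le_mul ha2 ha2 hCapos.le (by positivity)) (by positivity) (by positivity)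
      _ = Z ^ (5 * ε) := by
          rw [← Real.rpow_add hZpos, ← Real.rpow_add hZpos]
          congr 1
          ring
      _ ≤ Z ^ θ := Real.rpow_le_rpow_of_exponent_le hZ1 hθ)
  have hc0 : (0 : ℝ) ≤ ((D.win C a).card : ℝ) := Nat.cast_nonneg _
  -- the lower bound for `L`
  have hLZ : 1 ≤ 2 * ε * (L * (Real.log Z * Z ^ (-(ε / 4)))) := by
    have h1 : Real.log (C ^ a) ≤ 2 * ε * Real.log Z := by
      rw [← Real.log_rpow hZpos]
      exact Real.log_le_log hCapos ha2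
    have h2 : 1 ≤ C ^ a * Z ^ (-(ε / 4)) := by
      rw [Real.rpow_neg hZpos.le]
      have h3 : 0 < Z ^ (ε / 4) := Real.rpow_pos_of_pos hZpos _
      rw [← div_eq_mul_inv, le_div_iff₀ h3, one_mul]
      exact ha1
    have h4 : 2 * ε * (L * (Real.log Z * Z ^ (-(ε / 4))))
        = (C ^ a * Z ^ (-(ε / 4))) * ((2 * ε * Real.log Z) / Real.log (C ^ a)) := by
      rw [hL]
      ring
    rw [h4]
    have h5 : 1 ≤ (2 * ε * Real.log Z) / Real.log (C ^ a) := by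
      rw [le_div_iff₀ hlog, one_mul]
      exact h1
    nlinarith
  have hd1 : ((D.win C a).card : ℝ) * (D.W * C ^ 2)
      ≤ (2 * ε * C ^ 4) * D.W * L ^ 2 * (Real.log Z * Z ^ (-(ε / 4))) := by
    calc ((D.win C a).card : ℝ) * (D.W * C ^ 2) ≤ (C ^ 2 * L) * (D.W * C ^ 2) :=
          mul_le_mul_of_nonneg_right hcard (by positivity)
      _ = (C ^ 4 * D.W * L) * 1 := by ring
      _ ≤ (C ^ 4 * D.W * L) * (2 * ε * (L * (Real.log Z * Z ^ (-(ε / 4))))) :=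
          mul_le_mul_of_nonneg_left hLZ (by positivity)
      _ = _ := by ring
  have hd2 : ((D.win C a).card : ℝ) ^ 2 * (D.W * (1 + 2 * C) * Z ^ (-η))
      ≤ (C ^ 4 * (1 + 2 * C)) * D.W * L ^ 2 * Z ^ (-η) := by
    have h1 : ((D.win C a).card : ℝ) ^ 2 ≤ (C ^ 2 * L) ^ 2 := pow_le_pow_left₀ hc0 hcard 2
    calc ((D.win C a).card : ℝ) ^ 2 * (D.W * (1 + 2 * C) * Z ^ (-η))
        ≤ (C ^ 2 * L) ^ 2 * (D.W * (1 + 2 * C) * Z ^ (-η)) :=
          mul_le_mul_of_nonneg_right h1 (by positivity)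
      _ = _ := by ring
  have hP : 0 ≤ Real.log Z * Z ^ (-(ε / 4)) := by positivity
  have hM : 0 ≤ D.W * L ^ 2 := by positivity
  refine hsec.trans ((add_le_add hd1 hd2).trans ?_)
  have e : (1 + 2 * ε * C ^ 4 + C ^ 4 * (1 + 2 * C)) * D.W * L ^ 2 *
      (Real.log Z * Z ^ (-(ε / 4)) + Z ^ (-η))
      = (2 * ε * C ^ 4 * D.W * L ^ 2 * (Real.log Z * Z ^ (-(ε / 4)))
        + C ^ 4 * (1 + 2 * C) * D.W * L ^ 2 * Z ^ (-η))
        + (D.W * L ^ 2 * (Real.log Z * Z ^ (-(ε / 4)) + Z ^ (-η))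
        + 2 * ε * C ^ 4 * (D.W * L ^ 2 * Z ^ (-η))
        + C ^ 4 * (1 + 2 * C) * (D.W * L ^ 2 * (Real.log Z * Z ^ (-(ε / 4))))) := by ring
  rw [e]
  have hr : 0 ≤ D.W * L ^ 2 * (Real.log Z * Z ^ (-(ε / 4)) + Z ^ (-η))
        + 2 * ε * C ^ 4 * (D.W * L ^ 2 * Z ^ (-η))
        + C ^ 4 * (1 + 2 * C) * (D.W * L ^ 2 * (Real.log Z * Z ^ (-(ε / 4)))) := by positivity
  linarith

/-- one window, one orbit: few `φ` -/
private theorem cheb {V J Φ : Type} [DecidableEq V] [Fintype J] [Fintype Φ] {C θ η A Z K E : ℝ}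
    {D : Dat V J Φ} (h : Hyp C θ η A Z D) (hC : 2 ≤ C) (j : J) (a : ℕ) (ha : 1 < C ^ a)
    (hv : ∑ φ, D.w φ * (∑ v ∈ D.win C a, D.r φ j v - ∑ v ∈ D.win C a, D.g j v) ^ 2 ≤
            K * D.W * (C ^ a / Real.log (C ^ a)) ^ 2 * E) (S : Finset Φ)
    (hS : ∀ φ ∈ S, ∑ v ∈ D.win C a, D.r φ j v < C ^ a / (2 * C * Real.log (C ^ a))) :
    ∑ φ ∈ S, D.w φ ≤ 4 * C ^ 2 * K * D.W * E := by
  have ha0 : a ≠ 0 := fun h0 => by
    rw [h0, pow_zero] at ha
    exact lt_irrefl _ ha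
  have hlog : 0 < Real.log (C ^ a) := Real.log_pos ha
  have hC1 : (1 : ℝ) ≤ C := by linarith
  have hCpos : 0 < C := by linarith
  have hCapos : 0 < C ^ a := by linarith
  set L : ℝ := C ^ a / Real.log (C ^ a) with hL
  have hLpos : 0 < L := div_pos hCapos hlog
  have hCa : C ≤ C ^ a := by
    calc C = C ^ 1 := (pow_one C).symm
      _ ≤ C ^ a := pow_le_pow_right₀ hC1 (by omega)
  have hg := h.che1 j (C ^ a) hCa
  have hwin : D.P (C * C ^ a) \ D.P (C ^ a) = D.win C a := by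
    unfold Dat.win
    rw [pow_succ, mul_comm]
  rw [hwin] at hg
  have e1 : C ^ a / (C * Real.log (C ^ a)) = L / C := by
    rw [hL]
    field_simp
  have e2 : C ^ a / (2 * C * Real.log (C ^ a)) = L / (2 * C) := by
    rw [hL]
    field_simp
  rw [e1] at hg
  have key : ∀ φ ∈ S, D.w φ * (L / (2 * C)) ^ 2
      ≤ D.w φ * (∑ v ∈ D.win C a, D.r φ j v - ∑ v ∈ D.win C a, D.g j v) ^ 2 := by
    intro φ hφ
    refine mul_le_mul_of_nonneg_left ?_ (h.w_nonneg φ)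
    have h1 := hS φ hφ
    rw [e2] at h1
    have h2 : L / C = L / (2 * C) + L / (2 * C) := by
      field_simp
      ring
    have h3 : 0 ≤ L / (2 * C) := by positivity
    have h4 : L / (2 * C) ≤ ∑ v ∈ D.win C a, D.g j v - ∑ v ∈ D.win C a, D.r φ j v := by linarith
    have h5 := pow_le_pow_left₀ h3 h4 2
    calc (L / (2 * C)) ^ 2 ≤ (∑ v ∈ D.win C a, D.g j v - ∑ v ∈ D.win C a, D.r φ j v) ^ 2 := h5
      _ = _ := by ring
  have h1 : ∑ φ ∈ S, D.w φ * (L / (2 * C)) ^ 2 ≤ K * D.W * L ^ 2 * E := by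
    refine (Finset.sum_le_sum key).trans (le_trans ?_ hv)
    refine Finset.sum_le_univ_sum_of_nonneg fun φ => ?_
    exact mul_nonneg (h.w_nonneg φ) (sq_nonneg _)
  rw [← Finset.sum_mul] at h1
  have h2 : 0 < (L / (2 * C)) ^ 2 := by positivity
  have h3 : K * D.W * L ^ 2 * E = (4 * C ^ 2 * K * D.W * E) * (L / (2 * C)) ^ 2 := by
    field_simp
    ring
  rw [h3] at h1
  exact le_of_mul_le_mul_right h1 h2

private theorem sum_biUnion_le' {ι κ : Type} [DecidableEq κ] (s : Finset ι) (t : ι → Finset κ)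
    (w : κ → ℝ) (hw : ∀ k, 0 ≤ w k) : ∑ k ∈ s.biUnion t, w k ≤ ∑ i ∈ s, ∑ k ∈ t i, w k := by
  classical
  induction s using Finset.induction_on with
  | empty => simp
  | insert i s hi ih =>
    rw [Finset.biUnion_insert, Finset.sum_insert hi]
    have h1 : ∑ k ∈ t i ∪ s.biUnion t, w k ≤ ∑ k ∈ t i, w k + ∑ k ∈ s.biUnion t, w k := by
      rw [← Finset.sum_union_inter]
      have : 0 ≤ ∑ k ∈ t i ∩ s.biUnion t, w k := Finset.sum_nonneg fun k _ => hw k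
      linarith
    linarith

/-- growth: `c (1 + b log Z) (1 + log Z) ≤ Z ^ δ` -/
private theorem growth (c b δ : ℝ) (hc : 0 ≤ c) (hb : 0 ≤ b) (hδ : 0 < δ) :
    ∃ Z0 : ℝ, 2 ≤ Z0 ∧ ∀ Z : ℝ, Z0 ≤ Z → c * ((1 + b * Real.log Z) * (1 + Real.log Z)) ≤ Z ^ δ := by
  set e : ℝ := δ / 4 with he
  have he0 : 0 < e := by rw [he]; linarith
  set c' : ℝ := c * ((1 + b / e) * (1 + 1 / e)) with hc'
  have hc'0 : 0 ≤ c' := by positivity
  refine ⟨max 2 (c' ^ (1 / (2 * e))), le_max_left _ _, fun Z hZ => ?_⟩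
  have hZ2 : 2 ≤ Z := (le_max_left _ _).trans hZ
  have hZpos : 0 < Z := by linarith
  have hZ1 : 1 ≤ Z := by linarith
  have hlog0 : 0 ≤ Real.log Z := Real.log_nonneg hZ1
  have h1 : Real.log Z ≤ Z ^ e / e := Real.log_le_rpow_div hZpos.le he0
  have h2 : 1 ≤ Z ^ e := Real.one_le_rpow hZ1 he0.le
  have h3 : 1 + Real.log Z ≤ (1 + 1 / e) * Z ^ e := by
    have : (1 + 1 / e) * Z ^ e = Z ^ e + Z ^ e / e := by ring
    rw [this]
    linarith
  have h4 : 1 + b * Real.log Z ≤ (1 + b / e) * Z ^ e := by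
    have : (1 + b / e) * Z ^ e = Z ^ e + b * (Z ^ e / e) := by ring
    rw [this]
    have := mul_le_mul_of_nonneg_left h1 hb
    linarith
  have h5 : (1 + b * Real.log Z) * (1 + Real.log Z)
      ≤ ((1 + b / e) * Z ^ e) * ((1 + 1 / e) * Z ^ e) :=
    mul_le_mul h4 h3 (by linarith) (by positivity)
  have h6 : c' ≤ Z ^ (2 * e) := by
    have h7 : c' ^ (1 / (2 * e)) ≤ Z := (le_max_right _ _).trans hZ
    have h8 := Real.rpow_le_rpow (by positivity) h7 (by positivity : (0 : ℝ) ≤ 2 * e)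
    rw [← Real.rpow_mul hc'0, one_div, inv_mul_cancel₀ (by positivity), Real.rpow_one] at h8
    exact h8
  calc c * ((1 + b * Real.log Z) * (1 + Real.log Z))
      ≤ c * (((1 + b / e) * Z ^ e) * ((1 + 1 / e) * Z ^ e)) := mul_le_mul_of_nonneg_left h5 hc
    _ = c' * (Z ^ e * Z ^ e) := by rw [hc']; ring
    _ ≤ Z ^ (2 * e) * (Z ^ e * Z ^ e) := mul_le_mul_of_nonneg_right h6 (by positivity)
    _ = Z ^ δ := by
        rw [← Real.rpow_add hZpos, ← Real.rpow_add hZpos]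
        congr 1
        rw [he]
        ring

theorem var (C θ η ε : ℝ) (m : ℕ) (hC : 2 ≤ C) (hη : 0 < η) (hε : 0 < ε) (hθ : 5 * ε ≤ θ) :
    ∃ η' Z0 : ℝ, 0 < η' ∧ 2 ≤ Z0 ∧
      ∀ (V J Φ : Type) [DecidableEq V] [Fintype J] [Fintype Φ] (D : Dat V J Φ) (A Z : ℝ),
        Z0 ≤ Z → Fintype.card J = m → Hyp C θ η A Z D →
          ∑ φ ∈ D.Exc C ε Z, D.w φ ≤ D.W * Z ^ (-η') := by
  obtain ⟨K, Z1, hK, hZ1, H⟩ := var1 C θ ε hC hε hθ
  set δ : ℝ := min (ε / 4) η with hδ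
  have hδ0 : 0 < δ := lt_min (by linarith) hη
  have hlog2 : 0 < Real.log 2 := Real.log_pos (by norm_num)
  obtain ⟨Z2, hZ2, G⟩ := growth ((m : ℝ) * (4 * C ^ 2 * K)) (2 * ε / Real.log 2) (δ / 2)
    (by positivity) (by positivity) (by positivity)
  refine ⟨δ / 2, max Z1 Z2, by positivity, hZ1.trans (le_max_left _ _), ?_⟩
  intro V J Φ _ _ _ D A Z hZ hm h
  have hZa : Z1 ≤ Z := (le_max_left _ _).trans hZ
  have hZb : Z2 ≤ Z := (le_max_right _ _).trans hZ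
  have hZge2 : 2 ≤ Z := hZ1.trans hZa
  have hZpos : 0 < Z := by linarith
  have hZone : 1 ≤ Z := by linarith
  have hlogZ : 0 < Real.log Z := Real.log_pos (by linarith)
  have hW := W_nonneg h
  have hC1 : (1 : ℝ) ≤ C := by linarith
  set E : ℝ := Real.log Z * Z ^ (-(ε / 4)) + Z ^ (-η) with hE
  have hE0 : 0 ≤ E := by positivity
  have hE1 : E ≤ (1 + Real.log Z) * Z ^ (-δ) := by
    have h1 : Z ^ (-(ε / 4)) ≤ Z ^ (-δ) :=
      Real.rpow_le_rpow_of_exponent_le hZone (neg_le_neg (min_le_left _ _))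
    have h2 : Z ^ (-η) ≤ Z ^ (-δ) :=
      Real.rpow_le_rpow_of_exponent_le hZone (neg_le_neg (min_le_right _ _))
    have h3 := mul_le_mul_of_nonneg_left h1 hlogZ.le
    rw [hE]
    have : (1 + Real.log Z) * Z ^ (-δ) = Real.log Z * Z ^ (-δ) + Z ^ (-δ) := by ring
    rw [this]
    linarith
  classical
  set N : ℕ := ⌊2 * ε / Real.log 2 * Real.log Z⌋₊ with hN
  -- the exceptional sets
  set Bad : J → ℕ → Finset Φ := fun j a => Finset.univ.filter fun φ =>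
    (Z ^ (ε / 4) ≤ C ^ a ∧ C ^ a ≤ Z ^ (2 * ε)) ∧
      ∑ v ∈ D.win C a, D.r φ j v < C ^ a / (2 * C * Real.log (C ^ a)) with hBad
  have hbad : ∀ j a, ∑ φ ∈ Bad j a, D.w φ ≤ 4 * C ^ 2 * K * D.W * E := by
    intro j a
    by_cases hr : Z ^ (ε / 4) ≤ C ^ a ∧ C ^ a ≤ Z ^ (2 * ε)
    · have hCa1 : 1 < C ^ a := lt_of_lt_of_le (Real.one_lt_rpow (by linarith) (by linarith)) hr.1
      refine cheb h hC j a hCa1 (H V J Φ D η A Z hZa h j a hr.1 hr.2) (Bad j a) fun φ hφ => ?_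
      exact (Finset.mem_filter.1 hφ).2.2
    · have he : Bad j a = ∅ := Finset.filter_eq_empty_iff.2 fun φ _ h' => hr h'.1
      rw [he, Finset.sum_empty]
      positivity
  have hsub : D.Exc C ε Z ⊆ (Finset.univ : Finset J).biUnion fun j =>
      (Finset.range (N + 1)).biUnion fun a => Bad j a := by
    intro φ hφ
    have hφ' : ¬ D.Good3 C ε Z φ := (Finset.mem_filter.1 hφ).2
    have hex : ∃ ε' : ℝ, ε / 4 ≤ ε' ∧ ε' ≤ ε ∧ ¬ D.Good C ε' Z φ := by
      by_contra hcon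
      push Not at hcon
      exact hφ' ⟨hcon (ε / 4) le_rfl (by linarith), hcon (ε / 2) (by linarith) (by linarith),
        hcon ε (by linarith) le_rfl⟩
    obtain ⟨ε', h1, h2, h3⟩ := hex
    unfold Dat.Good at h3
    push Not at h3
    obtain ⟨j, a, b1, b2, b3⟩ := h3
    have c1 : Z ^ (ε / 4) ≤ C ^ a := (Real.rpow_le_rpow_of_exponent_le hZone h1).trans b1
    have c2 : C ^ a ≤ Z ^ (2 * ε) := b2.trans (Real.rpow_le_rpow_of_exponent_le hZone (by linarith))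
    refine Finset.mem_biUnion.2 ⟨j, Finset.mem_univ j, Finset.mem_biUnion.2 ⟨a, ?_, ?_⟩⟩
    · rw [Finset.mem_range, Nat.lt_succ_iff]
      refine Nat.le_floor ?_
      have d1 : (2 : ℝ) ^ a ≤ Z ^ (2 * ε) := (pow_le_pow_left₀ (by norm_num) hC a).trans c2
      have d2 := Real.log_le_log (by positivity) d1
      rw [Real.log_pow, Real.log_rpow hZpos] at d2
      rw [div_mul_eq_mul_div, le_div_iff₀ hlog2]
      exact d2
    · exact Finset.mem_filter.2 ⟨Finset.mem_univ φ, ⟨c1, c2⟩, b3⟩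
  have hsum : ∑ φ ∈ D.Exc C ε Z, D.w φ ≤ (m : ℝ) * (((N : ℝ) + 1) * (4 * C ^ 2 * K * D.W * E)) := by
    calc ∑ φ ∈ D.Exc C ε Z, D.w φ
        ≤ ∑ φ ∈ (Finset.univ : Finset J).biUnion fun j =>
            (Finset.range (N + 1)).biUnion fun a => Bad j a, D.w φ :=
          Finset.sum_le_sum_of_subset_of_nonneg hsub fun φ _ _ => h.w_nonneg φ
      _ ≤ ∑ j : J, ∑ φ ∈ (Finset.range (N + 1)).biUnion fun a => Bad j a, D.w φ :=
          sum_biUnion_le' _ _ _ fun φ => h.w_nonneg φ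
      _ ≤ ∑ j : J, ∑ a ∈ Finset.range (N + 1), ∑ φ ∈ Bad j a, D.w φ :=
          Finset.sum_le_sum fun j _ => sum_biUnion_le' _ _ _ fun φ => h.w_nonneg φ
      _ ≤ ∑ _j : J, ∑ _a ∈ Finset.range (N + 1), 4 * C ^ 2 * K * D.W * E :=
          Finset.sum_le_sum fun j _ => Finset.sum_le_sum fun a _ => hbad j a
      _ = _ := by
          rw [Finset.sum_const, Finset.sum_const, Finset.card_univ, hm, Finset.card_range,
            nsmul_eq_mul, nsmul_eq_mul]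
          push_cast
          ring
  have hNle : (N : ℝ) + 1 ≤ 1 + 2 * ε / Real.log 2 * Real.log Z := by
    have := Nat.floor_le (show 0 ≤ 2 * ε / Real.log 2 * Real.log Z by positivity)
    rw [hN]
    linarith
  have hG := G Z hZb
  refine hsum.trans ?_
  have hzd : 0 < Z ^ (-δ) := Real.rpow_pos_of_pos hZpos _
  calc (m : ℝ) * (((N : ℝ) + 1) * (4 * C ^ 2 * K * D.W * E))
      ≤ (m : ℝ) * ((1 + 2 * ε / Real.log 2 * Real.log Z) *
          (4 * C ^ 2 * K * D.W * ((1 + Real.log Z) * Z ^ (-δ)))) := by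
        refine mul_le_mul_of_nonneg_left ?_ (Nat.cast_nonneg _)
        refine mul_le_mul hNle (mul_le_mul_of_nonneg_left hE1 (by positivity)) (by positivity)
          (by positivity)
    _ = D.W * (((m : ℝ) * (4 * C ^ 2 * K) *
          ((1 + 2 * ε / Real.log 2 * Real.log Z) * (1 + Real.log Z))) * Z ^ (-δ)) := by ring
    _ ≤ D.W * (Z ^ (δ / 2) * Z ^ (-δ)) :=
        mul_le_mul_of_nonneg_left (mul_le_mul_of_nonneg_right hG hzd.le) hW
    _ = D.W * Z ^ (-(δ / 2)) := by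
        rw [← Real.rpow_add hZpos]
        congr 2
        ring

end Pool.Agent.H36.RS
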