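import Pool.Agent.H36.RS.Box
import Pool.Agent.H36.RS.Var
import Pool.Agent.H36.RS.Ptw
import Pool.Agent.H36.RS.Fam
import Pool.Agent.H36.RS.Dtm

/-!
# Residues on average (T8, K1): END

`mmn`: `∑ φ, w φ ∏ j, M φ j x ≥ ∑_{q ∈ Fam x} (∑ φ, w φ ∏ j, R φ j (q j)) / ∏ NP` (`fam_upper`, exchange the sums)
`≥ W ∑_{q ∈ Fam x} (∏ G - Z ^ (-η)) / ∏ NP` (`mean`, `x = Z ^ ε'' ≤ Z ^ θ`) `≥ W (c (log Z) ^ m - Z ^ (-η) (K (1 + log Z)) ^ K)`
(`fam_lower`, `dtm`, `fam_le`) `≥ (c/2) W (log Z) ^ m`.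
`res`: for good `φ` `κ φ j ≥ (c / C) M φ j (Z ^ (ε/8)) / log Z` (`box`, `cnt`); so
`∑ w ∏ κ ≥ ∑_{good} w ∏ κ ≥ (c / (C log Z)) ^ m (∑ w ∏ M - ∑_{exceptional} w ∏ M)`, and the last sum is at most
`W Z ^ (-η') ((K (1 + log Z)) ^ K) ^ m` (`var`, `M_le`).
-/

set_option autoImplicit false

noncomputable section

namespace Pool.Agent.H36.RS

private theorem ev (a b p η δ : ℝ) (ha : 0 ≤ a) (hb : 0 ≤ b) (hp : 0 ≤ p) (hη : 0 < η)
    (hδ : 0 < δ) : ∃ Z1 : ℝ, 3 ≤ Z1 ∧ ∀ Z, Z1 ≤ Z →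
      Z ^ (-η) * (a * (1 + b * Real.log Z)) ^ p ≤ δ := by
  have h := isLittleO_log_rpow_rpow_atTop p hη
  have hK : 0 ≤ (a * (1 + b)) ^ p := by positivity
  have hc : 0 < δ / ((a * (1 + b)) ^ p + 1) := by positivity
  obtain ⟨Z2, hZ2⟩ := Filter.eventually_atTop.mp (h.def hc)
  refine ⟨max 3 Z2, le_max_left _ _, fun Z hZ => ?_⟩
  have h3 : 3 ≤ Z := le_trans (le_max_left _ _) hZ
  have hl : 1 ≤ Real.log Z := by
    rw [Real.le_log_iff_exp_le (by linarith)]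
    exact le_trans (by linarith [Real.exp_one_lt_d9]) h3
  have h4 := hZ2 Z (le_trans (le_max_right _ _) hZ)
  have hZ0 : 0 < Z := by linarith
  have hl0 : 0 ≤ Real.log Z := by linarith
  rw [Real.norm_of_nonneg (by positivity), Real.norm_of_nonneg (by positivity)] at h4
  have h5 : (a * (1 + b * Real.log Z)) ^ p ≤ (a * (1 + b)) ^ p * Real.log Z ^ p := by
    rw [← Real.mul_rpow (by positivity) hl0]
    apply Real.rpow_le_rpow (by positivity) _ hp
    nlinarith [mul_nonneg ha hb]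
  have hZp : 0 < Z ^ (-η) := Real.rpow_pos_of_pos hZ0 _
  have hZm : Z ^ (-η) * Z ^ η = 1 := by
    rw [← Real.rpow_add hZ0]; simp
  calc Z ^ (-η) * (a * (1 + b * Real.log Z)) ^ p
      ≤ Z ^ (-η) * ((a * (1 + b)) ^ p * Real.log Z ^ p) :=
        mul_le_mul_of_nonneg_left h5 hZp.le
    _ ≤ Z ^ (-η) * ((a * (1 + b)) ^ p * (δ / ((a * (1 + b)) ^ p + 1) * Z ^ η)) := by
        gcongr
    _ = (a * (1 + b)) ^ p * (δ / ((a * (1 + b)) ^ p + 1)) * (Z ^ (-η) * Z ^ η) := by ring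
    _ = (a * (1 + b)) ^ p * (δ / ((a * (1 + b)) ^ p + 1)) := by rw [hZm, mul_one]
    _ ≤ δ := by
        rw [mul_div_assoc', div_le_iff₀ (by positivity)]
        nlinarith

private theorem NP_nonneg {V J Φ : Type} [DecidableEq V] [Fintype J] [Fintype Φ]
    (D : Dat V J Φ) (q : Finset V) : 0 ≤ D.NP q :=
  Finset.prod_nonneg fun _ _ => Nat.cast_nonneg _

private theorem W_nonneg {V J Φ : Type} [DecidableEq V] [Fintype J] [Fintype Φ]
    {C θ η A Z : ℝ} {D : Dat V J Φ} (h : Hyp C θ η A Z D) : 0 ≤ D.W :=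
  Finset.sum_nonneg fun φ _ => h.w_nonneg φ

private theorem R_nonneg {V J Φ : Type} [DecidableEq V] [Fintype J] [Fintype Φ]
    {C θ η A Z : ℝ} {D : Dat V J Φ} (h : Hyp C θ η A Z D) (φ : Φ) (j : J) (q : Finset V) :
    0 ≤ D.R φ j q :=
  Finset.prod_nonneg fun v _ => h.r_nonneg φ j v

private theorem M_nonneg {V J Φ : Type} [DecidableEq V] [Fintype J] [Fintype Φ]
    {C θ η A Z : ℝ} {D : Dat V J Φ} (h : Hyp C θ η A Z D) (φ : Φ) (j : J) (x : ℝ) :
    0 ≤ D.M φ j x :=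
  Finset.sum_nonneg fun q _ => div_nonneg (R_nonneg h φ j q) (NP_nonneg D q)

theorem mmn (C θ η ε : ℝ) (m : ℕ) (hC : 2 ≤ C) (hη : 0 < η) (hε : 0 < ε) (hθ : ε ≤ θ) :
    ∃ c Z0 : ℝ, 0 < c ∧ 2 ≤ Z0 ∧
      ∀ (V J Φ : Type) [DecidableEq V] [Fintype J] [Fintype Φ] (D : Dat V J Φ) (A Z : ℝ),
        Z0 ≤ Z → Fintype.card J = m → Hyp C θ η A Z D →
          c * D.W * Real.log Z ^ m ≤ ∑ φ, D.w φ * ∏ j, D.M φ j (Z ^ ε) := by
  obtain ⟨c, Z1, hc, hZ1, hd⟩ := dtm C ε m hC hε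
  obtain ⟨K, hK, hf⟩ := fam_le C m hC
  obtain ⟨Z2, hZ2, he⟩ := ev K ε K η (c / 2) (by linarith) hε.le (by linarith) hη (by linarith)
  obtain ⟨Z3, hZ3⟩ : ∃ Z3 : ℝ, ∀ Z, Z3 ≤ Z → 2 ≤ Z ^ ε := by
    have := (tendsto_rpow_atTop hε).eventually_ge_atTop 2
    exact Filter.eventually_atTop.mp this
  refine ⟨c / 2, max (max Z1 Z2) Z3, by linarith,
    le_trans hZ1 (le_trans (le_max_left _ _) (le_max_left _ _)), ?_⟩
  intro V J Φ _ _ _ D A Z hZ hJ h
  have h1 : Z1 ≤ Z := le_trans (le_trans (le_max_left _ _) (le_max_left _ _)) hZ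
  have h2 : Z2 ≤ Z := le_trans (le_trans (le_max_right _ _) (le_max_left _ _)) hZ
  have h3 : Z3 ≤ Z := le_trans (le_max_right _ _) hZ
  have hZ0 : 3 ≤ Z := le_trans hZ2 h2
  have hl : 1 ≤ Real.log Z := by
    rw [Real.le_log_iff_exp_le (by linarith)]
    exact le_trans (by linarith [Real.exp_one_lt_d9]) hZ0
  have hx := hZ3 Z h3
  have hD := hd V J Φ D θ η A Z h1 hJ h
  have hF := hf V J Φ D θ η A Z hJ h (Z ^ ε) hx
  have hE := he Z h2
  rw [Real.log_rpow (by linarith)] at hF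
  set x := Z ^ ε with hxd
  have hW := W_nonneg h
  have hxθ : x ≤ Z ^ θ := Real.rpow_le_rpow_of_exponent_le (by linarith) hθ
  have key : ∑ q ∈ D.Fam x, (D.W * ∏ j, D.G j (q j) - D.W * Z ^ (-η)) * ∏ j, 1 / D.NP (q j)
      ≤ ∑ φ, D.w φ * ∏ j, D.M φ j x := by
    calc ∑ q ∈ D.Fam x, (D.W * ∏ j, D.G j (q j) - D.W * Z ^ (-η)) * ∏ j, 1 / D.NP (q j)
        ≤ ∑ q ∈ D.Fam x, (∑ φ, D.w φ * ∏ j, D.R φ j (q j)) * ∏ j, 1 / D.NP (q j) := by
          apply Finset.sum_le_sum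
          intro q hq
          obtain ⟨hdis, hprod⟩ := fam_spec hq
          have hm := h.mean q hdis (le_trans hprod hxθ)
          have hm2 := (abs_le.mp hm).1
          apply mul_le_mul_of_nonneg_right
          · linarith
          · exact Finset.prod_nonneg fun j _ =>
              div_nonneg zero_le_one (NP_nonneg D _)
      _ = ∑ φ, D.w φ * ∑ q ∈ D.Fam x, ∏ j, D.R φ j (q j) / D.NP (q j) := by
          simp_rw [Finset.sum_mul, Finset.mul_sum]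
          rw [Finset.sum_comm]
          apply Finset.sum_congr rfl
          intro φ _
          apply Finset.sum_congr rfl
          intro q _
          rw [mul_assoc, ← Finset.prod_mul_distrib]
          congr 1
          apply Finset.prod_congr rfl
          intro j _
          rw [mul_one_div]
      _ ≤ ∑ φ, D.w φ * ∏ j, D.M φ j x := by
          apply Finset.sum_le_sum
          intro φ _
          exact mul_le_mul_of_nonneg_left (fam_upper h x φ) (h.w_nonneg φ)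
  refine le_trans ?_ key
  have e1 : ∑ q ∈ D.Fam x, (D.W * ∏ j, D.G j (q j) - D.W * Z ^ (-η)) * ∏ j, 1 / D.NP (q j)
      = D.W * (∑ q ∈ D.Fam x, ∏ j, D.G j (q j) / D.NP (q j)
        - Z ^ (-η) * ∑ q ∈ D.Fam x, ∏ j, 1 / D.NP (q j)) := by
    rw [mul_sub, Finset.mul_sum, Finset.mul_sum, Finset.mul_sum, ← Finset.sum_sub_distrib]
    apply Finset.sum_congr rfl
    intro q _
    have : ∏ j, D.G j (q j) / D.NP (q j) = (∏ j, D.G j (q j)) * ∏ j, 1 / D.NP (q j) := by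
      rw [← Finset.prod_mul_distrib]
      apply Finset.prod_congr rfl
      intro j _
      rw [mul_one_div]
    rw [this]
    ring
  rw [e1]
  have hfl := fam_lower h x
  have hZp : 0 < Z ^ (-η) := Real.rpow_pos_of_pos (by linarith) _
  have e2 : Z ^ (-η) * ∑ q ∈ D.Fam x, ∏ j, 1 / D.NP (q j) ≤ c / 2 * Real.log Z ^ m := by
    calc Z ^ (-η) * ∑ q ∈ D.Fam x, ∏ j, 1 / D.NP (q j)
        ≤ Z ^ (-η) * (K * (1 + ε * Real.log Z)) ^ K := mul_le_mul_of_nonneg_left hF hZp.le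
      _ ≤ c / 2 := hE
      _ = c / 2 * 1 := by ring
      _ ≤ c / 2 * Real.log Z ^ m :=
          mul_le_mul_of_nonneg_left (one_le_pow₀ hl) (by linarith)
  have e3 : c / 2 * Real.log Z ^ m ≤ ∑ q ∈ D.Fam x, ∏ j, D.G j (q j) / D.NP (q j)
        - Z ^ (-η) * ∑ q ∈ D.Fam x, ∏ j, 1 / D.NP (q j) := by
    have := le_trans hD hfl
    linarith
  calc c / 2 * D.W * Real.log Z ^ m = D.W * (c / 2 * Real.log Z ^ m) := by ring
    _ ≤ _ := mul_le_mul_of_nonneg_left e3 hW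

/-- THE RESULT: the residues on average -/
theorem res (C θ η A : ℝ) (m : ℕ) (hC : 2 ≤ C) (hθ : 0 < θ) (hη : 0 < η) (hA : 0 < A) :
    ∃ c Z0 : ℝ, 0 < c ∧ 2 ≤ Z0 ∧
      ∀ (V J Φ : Type) [DecidableEq V] [Fintype J] [Fintype Φ] (D : Dat V J Φ) (Z : ℝ),
        Z0 ≤ Z → Fintype.card J = m → Hyp C θ η A Z D →
          c * ∑ φ, D.w φ ≤ ∑ φ, D.w φ * ∏ j, D.κ φ j := by
  obtain ⟨ε, c1, Z1, hε, hε1, hεθ, hc1, hZ1, hbox⟩ := box C θ A hC hθ hA
  obtain ⟨c2, Z2, hc2, hZ2, hmm⟩ := mmn C θ η (ε / 8) m hC hη (by linarith) (by linarith)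
  obtain ⟨η', Z3, hη', hZ3, hvar⟩ := var C θ η ε m hC hη hε hεθ
  obtain ⟨K, hK, hM⟩ := M_le C hC
  have hKm : 0 ≤ K * (m : ℝ) := mul_nonneg (by linarith) (Nat.cast_nonneg _)
  obtain ⟨Z4, hZ4, he⟩ := ev K (ε / 8) (K * m) η' (c2 / 2) (by linarith) (by linarith)
    hKm hη' (by linarith)
  obtain ⟨Z5, hZ5⟩ : ∃ Z5 : ℝ, ∀ Z, Z5 ≤ Z → 2 ≤ Z ^ (ε / 8) := by
    have hε8 : 0 < ε / 8 := by linarith
    have := (tendsto_rpow_atTop hε8).eventually_ge_atTop 2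
    exact Filter.eventually_atTop.mp this
  have hCp : 0 < C := by linarith
  refine ⟨(c1 / C) ^ m * (c2 / 2), max (max (max Z1 Z2) (max Z3 Z4)) Z5, by positivity,
    le_trans hZ1 (le_trans (le_trans (le_max_left _ _) (le_max_left _ _)) (le_max_left _ _)), ?_⟩
  intro V J Φ _ _ _ D Z hZ hJ h
  have hZa : max (max Z1 Z2) (max Z3 Z4) ≤ Z := le_trans (le_max_left _ _) hZ
  have h12 : max Z1 Z2 ≤ Z := le_trans (le_max_left _ _) hZa
  have h34 : max Z3 Z4 ≤ Z := le_trans (le_max_right _ _) hZa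
  have h1 : Z1 ≤ Z := le_trans (le_max_left _ _) h12
  have h2 : Z2 ≤ Z := le_trans (le_max_right _ _) h12
  have h3 : Z3 ≤ Z := le_trans (le_max_left _ _) h34
  have h4 : Z4 ≤ Z := le_trans (le_max_right _ _) h34
  have h5 : Z5 ≤ Z := le_trans (le_max_right _ _) hZ
  have hZ0 : 3 ≤ Z := le_trans hZ4 h4
  have hZpos : 0 < Z := by linarith
  have hl : 1 ≤ Real.log Z := by
    rw [Real.le_log_iff_exp_le (by linarith)]
    exact le_trans (by linarith [Real.exp_one_lt_d9]) hZ0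
  have hlpos : 0 < Real.log Z := by linarith
  have hx := hZ5 Z h5
  have hmm' := hmm V J Φ D A Z h2 hJ h
  have hvar' := hvar V J Φ D A Z h3 hJ h
  have hE := he Z h4
  have hW := W_nonneg h
  have hMle : ∀ φ j, D.M φ j (Z ^ (ε / 8)) ≤ (K * (1 + ε / 8 * Real.log Z)) ^ K := by
    intro φ j
    have := hM V J Φ D θ η A Z h φ j (Z ^ (ε / 8)) hx
    rwa [Real.log_rpow hZpos] at this
  set x := Z ^ (ε / 8) with hxd
  set B := (K * (1 + ε / 8 * Real.log Z)) ^ K with hB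
  have hBase : 0 ≤ K * (1 + ε / 8 * Real.log Z) := by positivity
  have hBm : B ^ m = (K * (1 + ε / 8 * Real.log Z)) ^ (K * (m : ℝ)) := by
    rw [hB, Real.rpow_mul hBase, Real.rpow_natCast]
  have hB0 : 0 ≤ B := Real.rpow_nonneg hBase _
  -- the good ones
  have hZA : 0 < Z ^ A := Real.rpow_pos_of_pos hZpos _
  have hgood : ∀ φ, φ ∉ D.Exc C ε Z → ∀ j, c1 / (C * Real.log Z) * D.M φ j x ≤ D.κ φ j := by
    intro φ hφ j
    have hg : D.Good3 C ε Z φ := by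
      by_contra hn
      exact hφ (by simp only [Dat.Exc, Finset.mem_filter, Finset.mem_univ, true_and]; exact hn)
    have hb := hbox V J Φ D η Z h1 h φ hg j
    have hcnt := h.cnt φ j
    have h6 : c1 * (Z ^ A / Real.log Z) * D.M φ j x ≤ C * D.κ φ j * Z ^ A := le_trans hb hcnt
    have h7 : c1 / (C * Real.log Z) * D.M φ j x * (C * Z ^ A) ≤ D.κ φ j * (C * Z ^ A) := by
      calc c1 / (C * Real.log Z) * D.M φ j x * (C * Z ^ A)
          = c1 * (Z ^ A / Real.log Z) * D.M φ j x := by field_simp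
        _ ≤ C * D.κ φ j * Z ^ A := h6
        _ = D.κ φ j * (C * Z ^ A) := by ring
    exact le_of_mul_le_mul_right h7 (by positivity)
  have hlow : ∀ φ, φ ∉ D.Exc C ε Z →
      (c1 / (C * Real.log Z)) ^ m * ∏ j, D.M φ j x ≤ ∏ j, D.κ φ j := by
    intro φ hφ
    calc (c1 / (C * Real.log Z)) ^ m * ∏ j, D.M φ j x
        = ∏ j, (c1 / (C * Real.log Z) * D.M φ j x) := by
          rw [Finset.prod_mul_distrib, Finset.prod_const, Finset.card_univ, hJ]
      _ ≤ ∏ j, D.κ φ j := by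
          apply Finset.prod_le_prod
          · intro j _
            exact mul_nonneg (by positivity) (M_nonneg h φ j x)
          · intro j _
            exact hgood φ hφ j
  have hexc : ∑ φ ∈ D.Exc C ε Z, D.w φ * ∏ j, D.M φ j x ≤ D.W * (c2 / 2) := by
    calc ∑ φ ∈ D.Exc C ε Z, D.w φ * ∏ j, D.M φ j x
        ≤ ∑ φ ∈ D.Exc C ε Z, D.w φ * B ^ m := by
          apply Finset.sum_le_sum
          intro φ _
          apply mul_le_mul_of_nonneg_left _ (h.w_nonneg φ)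
          calc ∏ j, D.M φ j x ≤ ∏ _j : J, B :=
                Finset.prod_le_prod (fun j _ => M_nonneg h φ j x) (fun j _ => hMle φ j)
            _ = B ^ m := by rw [Finset.prod_const, Finset.card_univ, hJ]
      _ = (∑ φ ∈ D.Exc C ε Z, D.w φ) * B ^ m := by rw [Finset.sum_mul]
      _ ≤ (D.W * Z ^ (-η')) * B ^ m := mul_le_mul_of_nonneg_right hvar' (pow_nonneg hB0 _)
      _ = D.W * (Z ^ (-η') * (K * (1 + ε / 8 * Real.log Z)) ^ (K * (m : ℝ))) := by
          rw [hBm]; ring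
      _ ≤ D.W * (c2 / 2) := mul_le_mul_of_nonneg_left hE hW
  have hc0 : 0 ≤ (c1 / (C * Real.log Z)) ^ m := by positivity
  have : DecidableEq Φ := Classical.decEq Φ
  have hsplit : ∀ f : Φ → ℝ, ∑ φ, f φ = ∑ φ ∈ D.Exc C ε Z, f φ
      + ∑ φ ∈ Finset.univ \ D.Exc C ε Z, f φ := by
    intro f
    rw [add_comm]
    exact (Finset.sum_sdiff (Finset.subset_univ _)).symm
  have hgoodsum : D.W * (c2 / 2) * Real.log Z ^ m ≤
      ∑ φ ∈ Finset.univ \ D.Exc C ε Z, D.w φ * ∏ j, D.M φ j x := by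
    have h8 := hsplit (fun φ => D.w φ * ∏ j, D.M φ j x)
    have h9 : D.W * (c2 / 2) * 1 ≤ D.W * (c2 / 2) * Real.log Z ^ m :=
      mul_le_mul_of_nonneg_left (one_le_pow₀ hl) (by positivity)
    have h10 : c2 * D.W * Real.log Z ^ m = D.W * (c2 / 2) * Real.log Z ^ m
      + D.W * (c2 / 2) * Real.log Z ^ m := by ring
    linarith
  have hfin : (c1 / (C * Real.log Z)) ^ m * (D.W * (c2 / 2) * Real.log Z ^ m) ≤
      ∑ φ, D.w φ * ∏ j, D.κ φ j := by
    calc (c1 / (C * Real.log Z)) ^ m * (D.W * (c2 / 2) * Real.log Z ^ m)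
        ≤ (c1 / (C * Real.log Z)) ^ m *
          ∑ φ ∈ Finset.univ \ D.Exc C ε Z, D.w φ * ∏ j, D.M φ j x :=
          mul_le_mul_of_nonneg_left hgoodsum hc0
      _ = ∑ φ ∈ Finset.univ \ D.Exc C ε Z,
          D.w φ * ((c1 / (C * Real.log Z)) ^ m * ∏ j, D.M φ j x) := by
          rw [Finset.mul_sum]
          apply Finset.sum_congr rfl
          intro φ _
          ring
      _ ≤ ∑ φ ∈ Finset.univ \ D.Exc C ε Z, D.w φ * ∏ j, D.κ φ j := by
          apply Finset.sum_le_sum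
          intro φ hφ
          exact mul_le_mul_of_nonneg_left (hlow φ (Finset.mem_sdiff.mp hφ).2) (h.w_nonneg φ)
      _ ≤ ∑ φ, D.w φ * ∏ j, D.κ φ j := by
          apply Finset.sum_le_sum_of_subset_of_nonneg (Finset.subset_univ _)
          intro φ _ _
          exact mul_nonneg (h.w_nonneg φ) (Finset.prod_nonneg fun j _ => h.κ_nonneg φ j)
  have hW' : ∑ φ, D.w φ = D.W := rfl
  rw [hW']
  refine le_trans (le_of_eq ?_) hfin
  have : (c1 / (C * Real.log Z)) ^ m * Real.log Z ^ m = (c1 / C) ^ m := by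
    rw [← mul_pow]
    congr 1
    field_simp
  calc (c1 / C) ^ m * (c2 / 2) * D.W
      = ((c1 / (C * Real.log Z)) ^ m * Real.log Z ^ m) * (c2 / 2) * D.W := by rw [this]
    _ = (c1 / (C * Real.log Z)) ^ m * (D.W * (c2 / 2) * Real.log Z ^ m) := by ring

end Pool.Agent.H36.RS
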