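import Pool.Agent.H36.RS.Box

/-!
# Typed divisors on average (T8, K1): inserting primes, INS

Induction on the list `L` (`δ = ρ β / K`, `α = β + δ #L`). Empty list: `Q = Fam (Z ^ (β/2))` (each `q j ∈ SQ (Z ^ (β/2))`: `NP (q j) ≤ Z ^ (β/2)`, primes of
norm `≤ Z ^ (β/2) ≤ Z ^ β`, `NP ≥ 1`).
`i :: L`: `Q'` = image of `(q, v) ↦ Function.update q i (insert v (q i))`, `q ∈ Q`, `v ∈ P (Z ^ (α + δ)) \ P (Z ^ α)`: injective (`v` is the
only prime of norm `> Z ^ α` in `q'`), `v ∉ q j` for all `j`, so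
`∏ j, R (q' j) / NP (q' j) = (r φ i v / nm v) ∏ j, R (q j) / NP (q j)`, and
`Sm φ Q' = (∑ v, r φ i v / nm v) Sm φ Q ≥ c Sm φ Q`, `c = δ / (8 C^2 log C)`, by `ratio_lower` (Box.lean, with `ε := β`; `β ≤ α`,
`α + δ ≤ 2 β` because `#L + 1 ≤ K`, `4 log C ≤ δ log Z` for `Z ≥ Z0`). `Z ^ β ≤ nm v ≤ Z ^ ((1 + ρ) β)`.
-/

set_option autoImplicit false

noncomputable section

namespace Pool.Agent.H36.RS

private theorem nm_one {V J Φ : Type} [DecidableEq V] [Fintype J] [Fintype Φ] {C : ℝ} {D : Dat V J Φ} (h : Bas C D)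
    (v : V) : (1 : ℝ) ≤ D.nm v := by
  have := h.two v
  exact_mod_cast (by omega : 1 ≤ D.nm v)

private theorem NP_one {V J Φ : Type} [DecidableEq V] [Fintype J] [Fintype Φ] {C : ℝ} {D : Dat V J Φ} (h : Bas C D)
    (q : Finset V) : 1 ≤ D.NP q := by
  unfold Dat.NP
  calc (1 : ℝ) = ∏ _v ∈ q, (1 : ℝ) := by rw [Finset.prod_const_one]
    _ ≤ ∏ v ∈ q, (D.nm v : ℝ) := Finset.prod_le_prod (fun _ _ => zero_le_one) fun v _ => nm_one h v

private theorem R_nn {V J Φ : Type} [DecidableEq V] [Fintype J] [Fintype Φ] {C : ℝ} {D : Dat V J Φ} (h : Bas C D)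
    (φ : Φ) (j : J) (q : Finset V) : 0 ≤ D.R φ j q := Finset.prod_nonneg fun v _ => h.r_nonneg φ j v

private theorem Sm_nn {V J Φ : Type} [DecidableEq V] [Fintype J] [Fintype Φ] {C : ℝ} {D : Dat V J Φ} (h : Bas C D)
    (φ : Φ) (Q : Finset (J → Finset V)) : 0 ≤ D.Sm φ Q :=
  Finset.sum_nonneg fun q _ => Finset.prod_nonneg fun j _ =>
    div_nonneg (R_nn h φ j _) (zero_le_one.trans (NP_one h _))

private theorem NP_insert {V J Φ : Type} [DecidableEq V] [Fintype J] [Fintype Φ] (D : Dat V J Φ) (q : Finset V) (v : V)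
    (hv : v ∉ q) : D.NP (insert v q) = D.nm v * D.NP q := by
  unfold Dat.NP
  rw [Finset.prod_insert hv]

private theorem R_insert {V J Φ : Type} [DecidableEq V] [Fintype J] [Fintype Φ] (D : Dat V J Φ) (φ : Φ) (j : J)
    (q : Finset V) (v : V) (hv : v ∉ q) : D.R φ j (insert v q) = D.r φ j v * D.R φ j q := by
  unfold Dat.R
  rw [Finset.prod_insert hv]

private theorem fam_mem {V J Φ : Type} [DecidableEq V] [Fintype J] [Fintype Φ] {D : Dat V J Φ} {x : ℝ}
    {q : J → Finset V} (hq : q ∈ D.Fam x) :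
    (∀ i j, i ≠ j → Disjoint (q i) (q j)) ∧ ∀ j, q j ⊆ D.P x ∧ D.NP (q j) ≤ x := by
  classical
  have hq2 := Finset.mem_filter.1 hq
  have hqj := Fintype.mem_piFinset.1 hq2.1
  refine ⟨hq2.2.1, fun j => ?_⟩
  have h1 := hqj j
  unfold Dat.SQ Dat.SY at h1
  rw [Finset.mem_filter, Finset.mem_powerset] at h1
  exact h1

private theorem prod_upd {V J Φ : Type} [DecidableEq V] [Fintype J] [DecidableEq J] [Fintype Φ] (D : Dat V J Φ) (φ : Φ)
    (q : J → Finset V) (i : J) (v : V) (hv : v ∉ q i) :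
    ∏ j, D.R φ j (Function.update q i (insert v (q i)) j) / D.NP (Function.update q i (insert v (q i)) j) =
      D.r φ i v / D.nm v * ∏ j, D.R φ j (q j) / D.NP (q j) := by
  rw [← Finset.mul_prod_erase Finset.univ _ (Finset.mem_univ i),
    ← Finset.mul_prod_erase Finset.univ (fun j => D.R φ j (q j) / D.NP (q j)) (Finset.mem_univ i)]
  rw [Function.update_self, NP_insert D _ _ hv, R_insert D φ i _ _ hv]
  have h1 : ∏ j ∈ Finset.univ.erase i, D.R φ j (Function.update q i (insert v (q i)) j) /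
      D.NP (Function.update q i (insert v (q i)) j) = ∏ j ∈ Finset.univ.erase i, D.R φ j (q j) / D.NP (q j) := by
    refine Finset.prod_congr rfl fun j hj => ?_
    rw [Function.update_of_ne (Finset.ne_of_mem_erase hj)]
  rw [h1, mul_div_mul_comm, mul_assoc]

theorem ins (C β ρ : ℝ) (K : ℕ) (hC : 2 ≤ C) (hβ : 0 < β) (hβ1 : β ≤ 1) (hK : 0 < K) (hρ : 0 < ρ)
    (hρ1 : ρ ≤ 1) :
    ∃ c Z0 : ℝ, 0 < c ∧ 2 ≤ Z0 ∧
      ∀ (V J Φ : Type) [DecidableEq V] [Fintype J] [DecidableEq J] [Fintype Φ] (D : Dat V J Φ)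
        (Z : ℝ), Z0 ≤ Z → Bas C D → ∀ φ, D.Good3 C β Z φ → ∀ L : List J, L.length ≤ K →
          ∃ Q : Finset (J → Finset V),
            (∀ q ∈ Q, (∀ i j, i ≠ j → Disjoint (q i) (q j)) ∧
              (∀ j, ∀ v ∈ q j, (D.nm v : ℝ) ≤ Z ^ (β + ρ * β / K * L.length)) ∧
              ∀ j, Z ^ (β * L.count j) ≤ D.NP (q j) ∧
                D.NP (q j) ≤ Z ^ (β / 2 + (1 + ρ) * β * L.count j)) ∧
            c ^ L.length * D.Sm φ (D.Fam (Z ^ (β / 2))) ≤ D.Sm φ Q := by
  obtain ⟨δ, hδd⟩ : ∃ δ : ℝ, δ = ρ * β / K := ⟨_, rfl⟩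
  have hK0 : (0 : ℝ) < K := by exact_mod_cast hK
  have hδ : 0 < δ := by rw [hδd]; positivity
  have hδK : δ * K = ρ * β := by rw [hδd]; field_simp
  have hlC : 0 < Real.log C := Real.log_pos (by linarith)
  obtain ⟨c, hcd⟩ : ∃ c : ℝ, c = δ / (8 * C ^ 2 * Real.log C) := ⟨_, rfl⟩
  have hc : 0 < c := by rw [hcd]; positivity
  refine ⟨c, max 2 (Real.exp (4 * Real.log C / δ)), hc, le_max_left _ _, ?_⟩
  intro V J Φ _ _ _ _ D Z hZ h φ hg L
  have hZ2 : 2 ≤ Z := (le_max_left _ _).trans hZ
  have hZ1 : 1 < Z := by linarith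
  have hZ0 : 0 < Z := by linarith
  have hbig : 4 * Real.log C ≤ δ * Real.log Z := by
    have h1 : 4 * Real.log C / δ ≤ Real.log Z := by
      rw [Real.le_log_iff_exp_le hZ0]
      exact (le_max_right _ _).trans hZ
    rw [div_le_iff₀ hδ] at h1
    linarith
  rw [← hδd]
  induction L with
  | nil =>
    intro _
    refine ⟨D.Fam (Z ^ (β / 2)), ?_, ?_⟩
    · intro q hq
      obtain ⟨hq2, hqj1⟩ := fam_mem hq
      refine ⟨hq2, ?_, ?_⟩
      · intro j v hv
        have h1 : (D.nm v : ℝ) ≤ Z ^ (β / 2) := (h.mem_P _ _).1 ((hqj1 j).1 hv)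
        refine h1.trans (Real.rpow_le_rpow_of_exponent_le hZ1.le ?_)
        simp only [List.length_nil, Nat.cast_zero, mul_zero, add_zero]
        linarith
      · intro j
        simp only [List.count_nil, Nat.cast_zero, mul_zero, add_zero, Real.rpow_zero]
        exact ⟨NP_one h _, (hqj1 j).2⟩
    · simp only [List.length_nil, pow_zero, one_mul]
      exact le_rfl
  | cons i L ih =>
    intro hL
    rw [List.length_cons] at hL
    obtain ⟨Q, hQ, hS⟩ := ih (by omega)
    obtain ⟨α, hαd⟩ : ∃ α : ℝ, α = β + δ * L.length := ⟨_, rfl⟩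
    have hlen0 : (0 : ℝ) ≤ L.length := Nat.cast_nonneg _
    have hlen1 : (L.length : ℝ) + 1 ≤ K := by exact_mod_cast hL
    have hα : β ≤ α := by
      rw [hαd]
      have := mul_nonneg hδ.le hlen0
      linarith
    have hαδ : α + δ ≤ (1 + ρ) * β := by
      have h1 : δ * ((L.length : ℝ) + 1) ≤ δ * K := mul_le_mul_of_nonneg_left hlen1 hδ.le
      rw [hαd]
      linarith
    have hαδ2 : α + δ ≤ 2 * β := by
      have : (1 + ρ) * β ≤ 2 * β := mul_le_mul_of_nonneg_right (by linarith) hβ.le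
      linarith
    have hrat := ratio_lower h hC φ i hβ hβ1 hZ1 hg hα hδ hαδ2 hbig
    rw [← hcd] at hrat
    rw [← hαd] at hQ
    obtain ⟨N, hNd⟩ : ∃ N : Finset V, N = D.P (Z ^ (α + δ)) \ D.P (Z ^ α) := ⟨_, rfl⟩
    rw [← hNd] at hrat
    have hN : ∀ v ∈ N, Z ^ α < D.nm v ∧ (D.nm v : ℝ) ≤ Z ^ (α + δ) := by
      intro v hv
      rw [hNd, Finset.mem_sdiff, h.mem_P, h.mem_P, not_le] at hv
      exact ⟨hv.2, hv.1⟩
    have hnot : ∀ q ∈ Q, ∀ v ∈ N, ∀ j, v ∉ q j := by
      intro q hq v hv j hvj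
      exact absurd ((hQ q hq).2.1 j v hvj) (not_le.2 (hN v hv).1)
    classical
    obtain ⟨f, hfd⟩ : ∃ f : (J → Finset V) × V → (J → Finset V),
      f = fun p => Function.update p.1 i (insert p.2 (p.1 i)) := ⟨_, rfl⟩
    have hinj : Set.InjOn f (Q ×ˢ N : Finset ((J → Finset V) × V)) := by
      rintro ⟨q, v⟩ hqv ⟨q', v'⟩ hqv' he
      rw [Finset.mem_coe, Finset.mem_product] at hqv hqv'
      rw [hfd] at he
      simp only at he
      have hi := congrFun he i
      rw [Function.update_self, Function.update_self] at hi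
      have hvv : v = v' := by
        have h1 : v ∈ insert v' (q' i) := by
          rw [← hi]
          exact Finset.mem_insert_self _ _
        rcases Finset.mem_insert.1 h1 with h2 | h2
        · exact h2
        · exact absurd h2 (hnot q' hqv'.1 v hqv.2 i)
      subst hvv
      have hqi : q i = q' i := by
        have h1 : (insert v (q i)).erase v = (insert v (q' i)).erase v := by rw [hi]
        rwa [Finset.erase_insert (hnot q hqv.1 v hqv.2 i), Finset.erase_insert (hnot q' hqv'.1 v hqv'.2 i)] at h1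
      have hqq : q = q' := by
        funext j
        by_cases hj : j = i
        · rw [hj]; exact hqi
        · have h1 := congrFun he j
          rwa [Function.update_of_ne hj, Function.update_of_ne hj] at h1
      rw [hqq]
    refine ⟨(Q ×ˢ N).image f, ?_, ?_⟩
    · intro q' hq'
      obtain ⟨⟨q, v⟩, hqv, rfl⟩ := Finset.mem_image.1 hq'
      rw [Finset.mem_product] at hqv
      obtain ⟨hq, hv⟩ := hqv
      obtain ⟨hd, hb, hn⟩ := hQ q hq
      obtain ⟨hv1, hv2⟩ := hN v hv
      have hvn := hnot q hq v hv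
      have hfi : f (q, v) i = insert v (q i) := by rw [hfd]; exact Function.update_self _ _ _
      have hfj : ∀ j, j ≠ i → f (q, v) j = q j := fun j hj => by rw [hfd]; exact Function.update_of_ne hj _ _
      refine ⟨?_, ?_, ?_⟩
      · intro s t hst
        by_cases hs : s = i
        · subst hs
          rw [hfi, hfj t (Ne.symm hst), Finset.disjoint_insert_left]
          exact ⟨hvn t, hd s t hst⟩
        · by_cases ht : t = i
          · subst ht
            rw [hfi, hfj s hs, Finset.disjoint_insert_right]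
            exact ⟨hvn s, hd s t hst⟩
          · rw [hfj s hs, hfj t ht]
            exact hd s t hst
      · intro j u hu
        have e1 : β + δ * ((i :: L).length : ℝ) = α + δ := by
          rw [List.length_cons, hαd]
          push_cast
          ring
        rw [e1]
        have h2 : Z ^ α ≤ Z ^ (α + δ) := Real.rpow_le_rpow_of_exponent_le hZ1.le (by linarith)
        by_cases hj : j = i
        · subst hj
          rw [hfi, Finset.mem_insert] at hu
          rcases hu with hu | hu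
          · rw [hu]; exact hv2
          · exact (hb j u hu).trans h2
        · rw [hfj j hj] at hu
          exact (hb j u hu).trans h2
      · intro j
        by_cases hj : j = i
        · subst hj
          rw [hfi, NP_insert D _ _ (hvn j), List.count_cons_self]
          obtain ⟨hn1, hn2⟩ := hn j
          have hv0 : 0 < (D.nm v : ℝ) := by linarith [nm_one h v]
          constructor
          · have e1 : β * ((L.count j + 1 : ℕ) : ℝ) = β + β * (L.count j : ℝ) := by
              push_cast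
              ring
            rw [e1, Real.rpow_add hZ0]
            have h3 : Z ^ β ≤ D.nm v := (Real.rpow_le_rpow_of_exponent_le hZ1.le hα).trans hv1.le
            exact mul_le_mul h3 hn1 (Real.rpow_nonneg hZ0.le _) hv0.le
          · have e1 : β / 2 + (1 + ρ) * β * ((L.count j + 1 : ℕ) : ℝ) =
                (1 + ρ) * β + (β / 2 + (1 + ρ) * β * (L.count j : ℝ)) := by
              push_cast
              ring
            rw [e1, Real.rpow_add hZ0]
            have h3 : (D.nm v : ℝ) ≤ Z ^ ((1 + ρ) * β) :=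
              hv2.trans (Real.rpow_le_rpow_of_exponent_le hZ1.le hαδ)
            exact mul_le_mul h3 hn2 (zero_le_one.trans (NP_one h _)) (Real.rpow_nonneg hZ0.le _)
        · rw [hfj j hj, List.count_cons_of_ne (Ne.symm hj)]
          exact hn j
    · have hsum : D.Sm φ ((Q ×ˢ N).image f) = (∑ v ∈ N, D.r φ i v / D.nm v) * D.Sm φ Q := by
        unfold Dat.Sm
        rw [Finset.sum_image hinj, Finset.sum_product, Finset.mul_sum]
        refine Finset.sum_congr rfl fun q hq => ?_
        rw [Finset.sum_mul]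
        refine Finset.sum_congr rfl fun v hv => ?_
        rw [hfd]
        exact prod_upd D φ q i v (hnot q hq v hv i)
      rw [hsum, List.length_cons, pow_succ]
      have hS0 := Sm_nn h φ Q
      calc c ^ L.length * c * D.Sm φ (D.Fam (Z ^ (β / 2))) = c * (c ^ L.length * D.Sm φ (D.Fam (Z ^ (β / 2)))) := by ring
        _ ≤ c * D.Sm φ Q := mul_le_mul_of_nonneg_left hS hc.le
        _ ≤ (∑ v ∈ N, D.r φ i v / D.nm v) * D.Sm φ Q := mul_le_mul_of_nonneg_right hrat hS0

end Pool.Agent.H36.RS
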