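import Pool.Agent.H36.RS.Sum

/-!
# Residues on average (T8, K1): one more prime, STP

`step`: `T φ j x y' ≥ ∑_{v ∈ P y' \\ P y} r v * T φ j (x / nm v) y` for `1 ≤ y ≤ y'`: the map `(v, q) ↦ insert v q`
(`q ⊂ P y`) is injective (`v` is the only element of the image outside `P y`), the image lies in `SY x y'`, all terms are
nonnegative.
`base`: for `C^2 X' ≤ x / ..`: if all `q ∈ SQ X` (`1 ≤ X`) are combined with one prime `v` with
`x / (C^2 NP q) < nm v ≤ x / NP q`, `v ∈ P y`, and `x / (C^2 X) ≥ X` (so that `nm v > X ≥` norms of the elements of `q`), then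
`T φ j x y ≥ ∑_{q ∈ SQ X} R q * ∑_{v ∈ P (x/NP q) \\ P (x / (C^2 NP q))} r v`; here `x ≤ y`.
-/

set_option autoImplicit false

noncomputable section

namespace Pool.Agent.H36.RS

variable {V J Φ : Type} [DecidableEq V] [Fintype J] [Fintype Φ]

private theorem one_le_NP {C θ η A Z : ℝ} {D : Dat V J Φ} (h : Hyp C θ η A Z D) (q : Finset V) : 1 ≤ D.NP q := by
  unfold Dat.NP
  refine Finset.prod_induction _ (fun t : ℝ => 1 ≤ t) (fun a b ha hb => one_le_mul_of_one_le_of_one_le ha hb) le_rfl ?_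
  intro v _
  have h1 : (2 : ℝ) ≤ (D.nm v : ℝ) := by exact_mod_cast h.two v
  linarith

private theorem R_nonneg {C θ η A Z : ℝ} {D : Dat V J Φ} (h : Hyp C θ η A Z D) (φ : Φ) (j : J) (q : Finset V) :
    0 ≤ D.R φ j q := by
  unfold Dat.R
  exact Finset.prod_nonneg fun v _ => h.r_nonneg φ j v

private theorem nm_pos {C θ η A Z : ℝ} {D : Dat V J Φ} (h : Hyp C θ η A Z D) (v : V) : (0 : ℝ) < (D.nm v : ℝ) := by
  have h1 : (2 : ℝ) ≤ (D.nm v : ℝ) := by exact_mod_cast h.two v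
  linarith

private theorem ins {C θ η A Z : ℝ} {D : Dat V J Φ} (h : Hyp C θ η A Z D) (φ : Φ) (j : J) (x y : ℝ) {ι : Type}
    (s : Finset ι) (a : ι → V) (b : ι → Finset V) (B : V → Prop)
    (inj : ∀ i ∈ s, ∀ i' ∈ s, a i = a i' → b i = b i' → i = i') (hB : ∀ i ∈ s, B (a i))
    (hb : ∀ i ∈ s, ∀ u ∈ b i, ¬ B u) (hmem : ∀ i ∈ s, insert (a i) (b i) ∈ D.SY x y) :
    ∑ i ∈ s, D.r φ j (a i) * D.R φ j (b i) ≤ D.T φ j x y := by
  have hni : ∀ i ∈ s, a i ∉ b i := fun i hi hm => hb i hi _ hm (hB i hi)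
  have e1 : ∑ i ∈ s, D.r φ j (a i) * D.R φ j (b i) = ∑ i ∈ s, D.R φ j (insert (a i) (b i)) := by
    refine Finset.sum_congr rfl fun i hi => ?_
    unfold Dat.R
    rw [Finset.prod_insert (hni i hi)]
  have e2 : ∑ i ∈ s, D.R φ j (insert (a i) (b i)) =
      ∑ q ∈ s.image (fun i => insert (a i) (b i)), D.R φ j q := by
    rw [Finset.sum_image]
    intro i hi i' hi' hii
    have hi1 : i ∈ s := hi
    have hi2 : i' ∈ s := hi'
    have hii1 : insert (a i) (b i) = insert (a i') (b i') := hii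
    have ha : a i = a i' := by
      have h1 : a i ∈ insert (a i') (b i') := by
        rw [← hii1]
        exact Finset.mem_insert_self _ _
      rcases Finset.mem_insert.1 h1 with h2 | h2
      · exact h2
      · exact absurd (hB i hi1) (hb i' hi2 _ h2)
    have hbb : b i = b i' := by
      have h3 := congrArg (fun t => t.erase (a i)) hii1
      have h4 : (insert (a i) (b i)).erase (a i) = (insert (a i') (b i')).erase (a i) := h3
      rw [Finset.erase_insert (hni i hi1)] at h4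
      rw [ha, Finset.erase_insert (hni i' hi2)] at h4
      exact h4
    exact inj i hi1 i' hi2 ha hbb
  rw [e1, e2]
  unfold Dat.T
  refine Finset.sum_le_sum_of_subset_of_nonneg ?_ fun q _ _ => R_nonneg h φ j q
  intro q hq
  obtain ⟨i, hi, rfl⟩ := Finset.mem_image.1 hq
  exact hmem i hi

omit [DecidableEq V] [Fintype J] [Fintype Φ] in
private theorem mem_SY {D : Dat V J Φ} {x y : ℝ} {q : Finset V} : q ∈ D.SY x y ↔ q ⊆ D.P y ∧ D.NP q ≤ x := by
  unfold Dat.SY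
  rw [Finset.mem_filter, Finset.mem_powerset]

omit [Fintype J] [Fintype Φ] in
private theorem NP_insert {D : Dat V J Φ} {v : V} {q : Finset V} (hv : v ∉ q) :
    D.NP (insert v q) = (D.nm v : ℝ) * D.NP q := by
  unfold Dat.NP
  rw [Finset.prod_insert hv]

theorem step {C θ η A Z : ℝ} {D : Dat V J Φ} (h : Hyp C θ η A Z D) (φ : Φ) (j : J) (x y y' : ℝ)
    (hy : y ≤ y') :
    ∑ v ∈ D.P y' \ D.P y, D.r φ j v * D.T φ j (x / D.nm v) y ≤ D.T φ j x y' := by
  have e0 : ∑ v ∈ D.P y' \ D.P y, D.r φ j v * D.T φ j (x / D.nm v) y =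
      ∑ p ∈ (D.P y' \ D.P y).sigma (fun v => D.SY (x / D.nm v) y), D.r φ j p.1 * D.R φ j p.2 := by
    rw [Finset.sum_sigma]
    refine Finset.sum_congr rfl fun v _ => ?_
    unfold Dat.T
    rw [Finset.mul_sum]
  rw [e0]
  refine ins h φ j x y' _ (fun p : (_ : V) × Finset V => p.1) (fun p : (_ : V) × Finset V => p.2)
    (fun v => v ∉ D.P y) ?_ ?_ ?_ ?_
  · rintro ⟨a, b⟩ _ ⟨a', b'⟩ _ h1 h2
    have h3 : a = a' := h1
    have h4 : b = b' := h2
    rw [h3, h4]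
  · intro p hp
    exact (Finset.mem_sdiff.1 (Finset.mem_sigma.1 hp).1).2
  · intro p hp u hu hn
    exact hn ((mem_SY.1 (Finset.mem_sigma.1 hp).2).1 hu)
  · intro p hp
    have h1 := Finset.mem_sdiff.1 (Finset.mem_sigma.1 hp).1
    have h2 := mem_SY.1 (Finset.mem_sigma.1 hp).2
    have h3 : p.1 ∉ p.2 := fun hm => h1.2 (h2.1 hm)
    refine mem_SY.2 ⟨?_, ?_⟩
    · intro u hu
      rcases Finset.mem_insert.1 hu with h4 | h4
      · rw [h4]
        exact h1.1
      · have h5 := (h.mem_P y u).1 (h2.1 h4)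
        exact (h.mem_P y' u).2 (h5.trans hy)
    · show D.NP (insert p.1 p.2) ≤ x
      rw [NP_insert h3]
      have h6 := nm_pos h p.1
      calc (D.nm p.1 : ℝ) * D.NP p.2 ≤ (D.nm p.1 : ℝ) * (x / D.nm p.1) := mul_le_mul_of_nonneg_left h2.2 h6.le
        _ = x := by field_simp

theorem base {C θ η A Z : ℝ} {D : Dat V J Φ} (h : Hyp C θ η A Z D) (hC : 2 ≤ C) (φ : Φ) (j : J)
    (X x y : ℝ) (hX : 1 ≤ X) (hx : C ^ 2 * X ^ 2 ≤ x) (hy : x ≤ y) :
    ∑ q ∈ D.SQ X, D.R φ j q * ∑ v ∈ D.P (x / D.NP q) \ D.P (x / (C ^ 2 * D.NP q)), D.r φ j v ≤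
      D.T φ j x y := by
  have hC2 : (1 : ℝ) ≤ C ^ 2 := by nlinarith
  have hXx : X ≤ x := by nlinarith [mul_nonneg (sub_nonneg.2 hC2) (sq_nonneg X)]
  have e0 : ∑ q ∈ D.SQ X, D.R φ j q * ∑ v ∈ D.P (x / D.NP q) \ D.P (x / (C ^ 2 * D.NP q)), D.r φ j v =
      ∑ p ∈ (D.SQ X).sigma (fun q => D.P (x / D.NP q) \ D.P (x / (C ^ 2 * D.NP q))),
        D.r φ j p.2 * D.R φ j p.1 := by
    rw [Finset.sum_sigma]
    refine Finset.sum_congr rfl fun q _ => ?_
    rw [Finset.mul_sum]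
    exact Finset.sum_congr rfl fun v _ => mul_comm _ _
  have hbig : ∀ p ∈ (D.SQ X).sigma (fun q => D.P (x / D.NP q) \ D.P (x / (C ^ 2 * D.NP q))),
      X < (D.nm p.2 : ℝ) := by
    intro p hp
    have h1 := (Finset.mem_sdiff.1 (Finset.mem_sigma.1 hp).2).2
    have h2 : p.1 ∈ D.SY X X := (Finset.mem_sigma.1 hp).1
    have h3 := (mem_SY.1 h2).2
    have h4 := one_le_NP h p.1
    rw [h.mem_P, not_le] at h1
    refine lt_of_le_of_lt ?_ h1
    rw [le_div_iff₀ (by positivity)]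
    calc X * (C ^ 2 * D.NP p.1) ≤ X * (C ^ 2 * X) := by gcongr
      _ = C ^ 2 * X ^ 2 := by ring
      _ ≤ x := hx
  have hsm : ∀ p ∈ (D.SQ X).sigma (fun q => D.P (x / D.NP q) \ D.P (x / (C ^ 2 * D.NP q))),
      ∀ u ∈ p.1, (D.nm u : ℝ) ≤ X := by
    intro p hp u hu
    have h2 : p.1 ∈ D.SY X X := (Finset.mem_sigma.1 hp).1
    exact (h.mem_P X u).1 ((mem_SY.1 h2).1 hu)
  rw [e0]
  refine ins h φ j x y _ (fun p : (_ : Finset V) × V => p.2) (fun p : (_ : Finset V) × V => p.1)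
    (fun v => X < (D.nm v : ℝ)) ?_ hbig ?_ ?_
  · rintro ⟨a, b⟩ _ ⟨a', b'⟩ _ h1 h2
    have h3 : b = b' := h1
    have h4 : a = a' := h2
    rw [h3, h4]
  · intro p hp u hu
    exact not_lt.2 (hsm p hp u hu)
  · intro p hp
    have h1 := (Finset.mem_sdiff.1 (Finset.mem_sigma.1 hp).2).1
    rw [h.mem_P] at h1
    have h4 := one_le_NP h p.1
    have h3 : p.2 ∉ p.1 := fun hm => absurd (hbig p hp) (not_lt.2 (hsm p hp _ hm))
    refine mem_SY.2 ⟨?_, ?_⟩
    · intro u hu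
      rcases Finset.mem_insert.1 hu with h5 | h5
      · rw [h5, h.mem_P]
        refine (h1.trans ?_).trans hy
        rw [div_le_iff₀ (by linarith)]
        nlinarith
      · rw [h.mem_P]
        linarith [hsm p hp u h5]
    · show D.NP (insert p.2 p.1) ≤ x
      rw [NP_insert h3]
      exact (le_div_iff₀ (by linarith)).1 h1

end Pool.Agent.H36.RS
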