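import Pool.Agent.H36.RS.Def

/-!
# Residues on average (T8, K1): sums over primes (Chebyshev upper bounds), SUM

`nm` the norm, `P x` the finite set of the `v` with `nm v ≤ x`, `#P x ≤ C x / log x` for `x ≥ 2`.
Windows `(2 ^ a, 2 ^ (a+1)]`, `a ≥ 1`, and `nm v = 2` (`a = 0`): a window is contained in `P (2 ^ (a+1))`, so it has at most
`C 2 ^ (a+1) / ((a+1) log 2)` elements, and `nm v > 2 ^ a` there.
`sum_inv`: `∑ 1/nm ≤ ∑_{a ≤ a0} 2 C / ((a+1) log 2)`, `a0 ≤ log x / log 2`; harmonic sum.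
`sum_log`: `log nm / nm ≤ (a+1) log 2 / 2 ^ a`: each window gives at most `2 C`, the number of windows is at most
`1 + log x / log 2 ≤ (2 / log 2) log x` (`x ≥ 2`).
`sum_sq`: geometric series.
-/

set_option autoImplicit false

noncomputable section

namespace Pool.Agent.H36.RS

private theorem card_fib {C : ℝ} {V : Type} {nm : V → ℕ} {P : ℝ → Finset V}
    (h : PH C nm P) (x : ℝ) (a : ℕ) :
    (((P x).filter fun v => Nat.log 2 (nm v) = a).card : ℝ)
      ≤ C * 2 ^ (a + 1) / (((a : ℝ) + 1) * Real.log 2) := by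
  have h2 : (2 : ℝ) ≤ 2 ^ (a + 1) := by
    calc (2 : ℝ) = 2 ^ 1 := (pow_one _).symm
      _ ≤ 2 ^ (a + 1) := pow_le_pow_right₀ (by norm_num) (by omega)
  have h3 := h.card_P (2 ^ (a + 1)) h2
  rw [Real.log_pow] at h3
  have h4 : ((P x).filter fun v => Nat.log 2 (nm v) = a).card ≤ (P (2 ^ (a + 1))).card := by
    apply Finset.card_le_card
    intro v hv
    rw [Finset.mem_filter] at hv
    rw [h.mem_P]
    have h6 := Nat.lt_pow_succ_log_self (b := 2) (by norm_num) (nm v)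
    rw [hv.2] at h6
    have h7 : nm v ≤ 2 ^ (a + 1) := h6.le
    exact_mod_cast h7
  have h5 : (((P x).filter fun v => Nat.log 2 (nm v) = a).card : ℝ)
      ≤ ((P (2 ^ (a + 1))).card : ℝ) := by exact_mod_cast h4
  push_cast at h3
  exact h5.trans h3

private theorem dyad {C : ℝ} {V : Type} {nm : V → ℕ} {P : ℝ → Finset V}
    (h : PH C nm P) (x : ℝ) (f : V → ℝ) (F : ℕ → ℝ) (hF : ∀ a, 0 ≤ F a)
    (hf : ∀ v, f v ≤ F (Nat.log 2 (nm v))) :
    ∑ v ∈ P x, f v ≤ ∑ a ∈ Finset.Icc 1 (Nat.log 2 ⌊x⌋₊),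
      F a * (C * 2 ^ (a + 1) / (((a : ℝ) + 1) * Real.log 2)) := by
  classical
  have hmap : ∀ v ∈ P x, Nat.log 2 (nm v) ∈ Finset.Icc 1 (Nat.log 2 ⌊x⌋₊) := by
    intro v hv
    rw [h.mem_P] at hv
    rw [Finset.mem_Icc]
    exact ⟨Nat.log_pos (by norm_num) (h.two v), Nat.log_mono_right (Nat.le_floor hv)⟩
  calc ∑ v ∈ P x, f v ≤ ∑ v ∈ P x, F (Nat.log 2 (nm v)) := Finset.sum_le_sum fun v _ => hf v
    _ = ∑ a ∈ Finset.Icc 1 (Nat.log 2 ⌊x⌋₊),
          ∑ v ∈ (P x).filter (fun v => Nat.log 2 (nm v) = a), F (Nat.log 2 (nm v)) :=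
        (Finset.sum_fiberwise_of_maps_to hmap _).symm
    _ ≤ _ := by
      apply Finset.sum_le_sum
      intro a _
      have h1 : ∑ v ∈ (P x).filter (fun v => Nat.log 2 (nm v) = a), F (Nat.log 2 (nm v))
          = ∑ v ∈ (P x).filter (fun v => Nat.log 2 (nm v) = a), F a := by
        apply Finset.sum_congr rfl
        intro v hv
        rw [(Finset.mem_filter.mp hv).2]
      rw [h1, Finset.sum_const, nsmul_eq_mul, mul_comm]
      exact mul_le_mul_of_nonneg_left (card_fib h x a) (hF a)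

private theorem L_le {x : ℝ} (hx : 2 ≤ x) :
    ((Nat.log 2 ⌊x⌋₊ : ℕ) : ℝ) ≤ Real.log x / Real.log 2 := by
  have hf : ⌊x⌋₊ ≠ 0 := by
    have : 2 ≤ ⌊x⌋₊ := Nat.le_floor (by exact_mod_cast hx)
    omega
  have h1 : 2 ^ (Nat.log 2 ⌊x⌋₊) ≤ ⌊x⌋₊ := Nat.pow_log_le_self 2 hf
  have h2 : ((2 : ℝ) ^ (Nat.log 2 ⌊x⌋₊)) ≤ x := by
    calc ((2 : ℝ) ^ (Nat.log 2 ⌊x⌋₊)) ≤ (⌊x⌋₊ : ℝ) := by exact_mod_cast h1
      _ ≤ x := Nat.floor_le (by linarith)
  rw [le_div_iff₀ (Real.log_pos (by norm_num)), ← Real.log_pow]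
  exact Real.log_le_log (by positivity) h2

private theorem harm (L : ℕ) : ∑ a ∈ Finset.Icc 1 L, 1 / ((a : ℝ) + 1) ≤ Real.log ((L : ℝ) + 1) := by
  induction L with
  | zero => simp
  | succ L ih =>
    rw [Finset.sum_Icc_succ_top (by omega)]
    have h1 : (0 : ℝ) < (L : ℝ) + 1 := by positivity
    have h2 : (0 : ℝ) < (L : ℝ) + 2 := by positivity
    have h3 := Real.one_sub_inv_le_log_of_pos (div_pos h2 h1)
    rw [Real.log_div h2.ne' h1.ne', inv_div] at h3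
    have h4 : 1 - ((L : ℝ) + 1) / ((L : ℝ) + 2) = 1 / (((L + 1 : ℕ) : ℝ) + 1) := by
      push_cast
      field_simp
      ring
    have h5 : (((L + 1 : ℕ) : ℝ) + 1) = (L : ℝ) + 2 := by push_cast; ring
    rw [h4] at h3
    rw [h5] at h3 ⊢
    linarith

private theorem log2_pos : 0 < Real.log 2 := Real.log_pos (by norm_num)

private theorem log2_lt : Real.log 2 < 1 := by
  have := Real.log_two_lt_d9
  linarith

private theorem log2_gt : 1 / 2 < Real.log 2 := by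
  have := Real.log_two_gt_d9
  linarith

private theorem pow_le_nm {C : ℝ} {V : Type} {nm : V → ℕ} {P : ℝ → Finset V}
    (h : PH C nm P) (v : V) : (2 : ℝ) ^ (Nat.log 2 (nm v)) ≤ (nm v : ℝ) := by
  have h1 : 2 ^ (Nat.log 2 (nm v)) ≤ nm v :=
    Nat.pow_log_le_self 2 (by have := h.two v; omega)
  exact_mod_cast h1

private theorem K_ge {C : ℝ} (hC : 2 ≤ C) : 1 ≤ 2 * C / Real.log 2 := by
  rw [le_div_iff₀ log2_pos]
  have := log2_lt
  linarith

theorem sum_inv (C : ℝ) (hC : 2 ≤ C) : ∃ K : ℝ, 1 ≤ K ∧ ∀ (V : Type) (nm : V → ℕ)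
    (P : ℝ → Finset V), PH C nm P → ∀ x : ℝ, 2 ≤ x →
      ∑ v ∈ P x, 1 / (nm v : ℝ) ≤ K * (1 + Real.log (1 + Real.log x)) := by
  refine ⟨2 * C / Real.log 2, K_ge hC, ?_⟩
  intro V nm P h x hx
  have h1 := dyad h x (fun v => 1 / (nm v : ℝ)) (fun a => 1 / 2 ^ a) (fun a => by positivity)
    (fun v => one_div_le_one_div_of_le (by positivity) (pow_le_nm h v))
  refine h1.trans ?_
  have h2 : ∑ a ∈ Finset.Icc 1 (Nat.log 2 ⌊x⌋₊),
      (1 / 2 ^ a : ℝ) * (C * 2 ^ (a + 1) / (((a : ℝ) + 1) * Real.log 2))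
      = (2 * C / Real.log 2) * ∑ a ∈ Finset.Icc 1 (Nat.log 2 ⌊x⌋₊), 1 / ((a : ℝ) + 1) := by
    rw [Finset.mul_sum]
    apply Finset.sum_congr rfl
    intro a _
    have h3 := log2_pos.ne'
    field_simp
    ring
  rw [h2]
  apply mul_le_mul_of_nonneg_left _ (by linarith [K_ge hC])
  refine (harm _).trans ?_
  have hlx : 0 < Real.log x := Real.log_pos (by linarith)
  have h4 := L_le hx
  have h5 : ((Nat.log 2 ⌊x⌋₊ : ℕ) : ℝ) + 1 ≤ 2 * (1 + Real.log x) := by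
    have h6 : Real.log x / Real.log 2 ≤ 2 * Real.log x := by
      rw [div_le_iff₀ log2_pos]
      have := log2_gt
      nlinarith
    linarith
  calc Real.log (((Nat.log 2 ⌊x⌋₊ : ℕ) : ℝ) + 1) ≤ Real.log (2 * (1 + Real.log x)) :=
        Real.log_le_log (by positivity) h5
    _ = Real.log 2 + Real.log (1 + Real.log x) := Real.log_mul (by norm_num) (by linarith)
    _ ≤ 1 + Real.log (1 + Real.log x) := by linarith [log2_lt]

theorem sum_log (C : ℝ) (hC : 2 ≤ C) : ∃ K : ℝ, 1 ≤ K ∧ ∀ (V : Type) (nm : V → ℕ)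
    (P : ℝ → Finset V), PH C nm P → ∀ x : ℝ, 2 ≤ x →
      ∑ v ∈ P x, Real.log (nm v) / (nm v : ℝ) ≤ K * Real.log x := by
  refine ⟨2 * C / Real.log 2, K_ge hC, ?_⟩
  intro V nm P h x hx
  have h1 := dyad h x (fun v => Real.log (nm v) / (nm v : ℝ))
    (fun a => (((a : ℝ) + 1) * Real.log 2) / 2 ^ a)
    (fun a => by have := log2_pos; positivity)
    (fun v => by
      have h2 : Real.log (nm v) ≤ (((Nat.log 2 (nm v) : ℕ) : ℝ) + 1) * Real.log 2 := by
        have h6 := (Nat.lt_pow_succ_log_self (b := 2) (by norm_num) (nm v)).le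
        have h7 : (nm v : ℝ) ≤ 2 ^ (Nat.log 2 (nm v) + 1) := by exact_mod_cast h6
        have h8 : (0 : ℝ) < nm v := by
          have := h.two v
          exact_mod_cast (by omega : 0 < nm v)
        have h9 := Real.log_le_log h8 h7
        rw [Real.log_pow] at h9
        push_cast at h9
        exact h9
      have h3 : 0 ≤ (((Nat.log 2 (nm v) : ℕ) : ℝ) + 1) * Real.log 2 := by
        have := log2_pos
        positivity
      exact div_le_div₀ h3 h2 (by positivity) (pow_le_nm h v))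
  refine h1.trans ?_
  have h2 : ∑ a ∈ Finset.Icc 1 (Nat.log 2 ⌊x⌋₊),
      ((((a : ℝ) + 1) * Real.log 2) / 2 ^ a) * (C * 2 ^ (a + 1) / (((a : ℝ) + 1) * Real.log 2))
      = 2 * C * ((Nat.log 2 ⌊x⌋₊ : ℕ) : ℝ) := by
    have h3 : ∀ a ∈ Finset.Icc 1 (Nat.log 2 ⌊x⌋₊),
        ((((a : ℝ) + 1) * Real.log 2) / 2 ^ a) * (C * 2 ^ (a + 1) / (((a : ℝ) + 1) * Real.log 2))
        = 2 * C := by
      intro a _
      have h4 := log2_pos.ne'
      have h5 : ((a : ℝ) + 1) ≠ 0 := by positivity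
      field_simp
      ring
    rw [Finset.sum_congr rfl h3, Finset.sum_const, nsmul_eq_mul, Nat.card_Icc]
    simp
    ring
  rw [h2]
  have h4 := L_le hx
  calc 2 * C * ((Nat.log 2 ⌊x⌋₊ : ℕ) : ℝ) ≤ 2 * C * (Real.log x / Real.log 2) :=
        mul_le_mul_of_nonneg_left h4 (by linarith)
    _ = 2 * C / Real.log 2 * Real.log x := by ring

theorem sum_sq (C : ℝ) (hC : 2 ≤ C) : ∃ K : ℝ, 1 ≤ K ∧ ∀ (V : Type) (nm : V → ℕ)
    (P : ℝ → Finset V), PH C nm P → ∀ x : ℝ,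
      ∑ v ∈ P x, 1 / (nm v : ℝ) ^ 2 ≤ K := by
  refine ⟨2 * C / Real.log 2, K_ge hC, ?_⟩
  intro V nm P h x
  have h1 := dyad h x (fun v => 1 / (nm v : ℝ) ^ 2) (fun a => 1 / (2 ^ a) ^ 2)
    (fun a => by positivity)
    (fun v => one_div_le_one_div_of_le (by positivity)
      (pow_le_pow_left₀ (by positivity) (pow_le_nm h v) 2))
  refine h1.trans ?_
  have h2 : ∀ L : ℕ, ∑ a ∈ Finset.Icc 1 L, (1 / 2 : ℝ) ^ a ≤ 1 - (1 / 2) ^ L := by
    intro L
    induction L with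
    | zero => simp
    | succ L ih =>
      rw [Finset.sum_Icc_succ_top (by omega)]
      rw [pow_succ]
      linarith
  have h3 : ∑ a ∈ Finset.Icc 1 (Nat.log 2 ⌊x⌋₊),
      (1 / (2 ^ a) ^ 2 : ℝ) * (C * 2 ^ (a + 1) / (((a : ℝ) + 1) * Real.log 2))
      ≤ ∑ a ∈ Finset.Icc 1 (Nat.log 2 ⌊x⌋₊), (2 * C / Real.log 2) * (1 / 2 : ℝ) ^ a := by
    apply Finset.sum_le_sum
    intro a _
    have h4 : (1 / (2 ^ a) ^ 2 : ℝ) * (C * 2 ^ (a + 1) / (((a : ℝ) + 1) * Real.log 2))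
        = (2 * C / Real.log 2) * (1 / 2 : ℝ) ^ a * (1 / ((a : ℝ) + 1)) := by
      have h5 := log2_pos.ne'
      rw [div_pow, one_pow]
      field_simp
      ring
    rw [h4]
    apply mul_le_of_le_one_right
    · have := K_ge hC
      positivity
    · rw [div_le_one (by positivity)]
      linarith [(Nat.cast_nonneg a : (0 : ℝ) ≤ a)]
  refine h3.trans ?_
  rw [← Finset.mul_sum]
  apply mul_le_of_le_one_right (by linarith [K_ge hC])
  refine (h2 _).trans ?_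
  have : (0 : ℝ) ≤ (1 / 2) ^ (Nat.log 2 ⌊x⌋₊) := by positivity
  linarith

end Pool.Agent.H36.RS
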